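import Pool.Agent.MP_aca74d_lc.H29.Run


set_option autoImplicit false

namespace Pool.Agent.MP_26cd3b_lc.H27

open Pool.Agent.Shared.H56 Pool.Agent.MP_aca74d_lc.H29

abbrev Quad := ℕ × ℕ × ℕ × ℕ

def ESat (qs : List Quad) (t : ℕ → ℝ) : Prop :=
  ∀ q ∈ qs, t q.1 * (t q.2.2.2 - t q.2.1) = t q.2.1 * (t q.2.2.2 - t q.2.2.1)


end Pool.Agent.MP_26cd3b_lc.H27
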