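import Pool.Agent.MP_26cd3b_lc.H27.CellDefs
import Pool.Agent.MP_26cd3b_lc.H27.ESys

set_option autoImplicit false

namespace Pool.Agent.MP_26cd3b_lc.H27

def WF (n : ℕ) (qs : List Quad) : Prop :=
  qs ≠ [] ∧ ∀ q ∈ qs, 10 < q.1 ∧ q.1 < q.2.1 ∧ q.2.1 < q.2.2.1 ∧ q.2.2.1 < q.2.2.2 ∧ q.2.2.2 ≤ n

def qd (qs : List Quad) (i : ℕ) : Quad := qs.getD i (0, 0, 0, 0)

theorem qd_mem {qs : List Quad} {i : ℕ} (h : i < qs.length) : qd qs i ∈ qs := by
  rw [qd, List.getD_eq_getElem _ _ h]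
  exact List.getElem_mem h

def lvq (n : ℕ) (q : Quad) (j : ℕ) : ℕ :=
  if j = 0 then 0 else if j = 1 then q.1 else if j = 2 then q.2.1 else if j = 3 then q.2.2.1
  else if j = 4 then q.2.2.2 else n + 1

def inS (qs : List Quad) (j l : ℕ) : Prop :=
  2 ≤ j ∧ (l = (qd qs (j / 2 - 1)).2.1 ∨ l = (qd qs (j / 2 - 1)).2.2.2 ∨
    (j % 2 = 1 ∧ (l = (qd qs (j / 2 - 1)).1 ∨ l = (qd qs (j / 2 - 1)).2.2.1)))

def cN (n K v : ℕ) : ℕ := if v ≤ 2 * K then n + 2 else 6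

def cEs (n : ℕ) (qs : List Quad) (v j i : ℕ) : Prop :=
  if v ≤ 2 * qs.length then j ≠ 2 ∨ i = 0 ∨ i = n + 1 ∨ inS qs (v + 1) i ∨ inS qs v i
  else v ≤ 3 * qs.length ∨ esG j i

def cCh (K v i l : ℕ) : Prop := 2 * K < v ∧ (chA i l ∨ (3 * K < v ∧ i = 0 ∧ l = 4))

def apx (r : ℕ) : Finset Lb := (Finset.range (r + 1)).image fun j => (1, j)

theorem mem_apx {r : ℕ} {a : Lb} : a ∈ apx r ↔ a.1 = 1 ∧ a.2 ≤ r := by
  obtain ⟨p, q⟩ := a
  simp only [apx, Finset.mem_image, Finset.mem_range, Prod.mk.injEq, Nat.lt_succ_iff]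
  exact ⟨fun ⟨_, h, e, e'⟩ => ⟨e.symm, e' ▸ h⟩, fun ⟨e, h⟩ => ⟨q, h, e.symm, rfl⟩⟩

def cLab (r n K v : ℕ) : Finset Lb := lab0 (cN n K v) ∪ apx r

theorem mem_cLab {r n K v : ℕ} {a : Lb} : a ∈ cLab r n K v ↔
    (a.1 = 0 ∧ a.2 < 3) ∨ (a.1 = 2 ∧ a.2 < cN n K v) ∨ (a.1 = 1 ∧ a.2 ≤ r) := by
  rw [cLab, Finset.mem_union, mem_lab0, mem_apx, or_assoc]

def cAdj (r n : ℕ) (qs : List Quad) (v : ℕ) (a b : Lb) : Prop :=
  a ∈ cLab r n qs.length v ∧ b ∈ cLab r n qs.length v ∧ a ≠ b ∧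
    (a.1 = 0 → b.1 = 2 → cEs n qs v a.2 b.2) ∧ (a.1 = 2 → b.1 = 0 → cEs n qs v b.2 a.2) ∧
    (a.1 = 2 → b.1 = 2 → a.2 + 1 = b.2 ∨ b.2 + 1 = a.2 ∨ cCh qs.length v a.2 b.2 ∨
      cCh qs.length v b.2 a.2)

def cPar (K v : ℕ) : ℕ := if v ≤ 2 * K then v - 1 else if v ≤ 3 * K then 2 * (v - 2 * K) else v - K

def cDn (K v : ℕ) : Lb := if v ≤ 2 * K then (0, 1) else (0, 2)

def cMt (n : ℕ) (qs : List Quad) (v : ℕ) (b : Lb) : Lb :=
  if b = cDn qs.length v then up else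
    if 2 * qs.length < v ∧ v ≤ 3 * qs.length ∧ b.1 = 2 then
      (2, lvq n (qd qs (v - 2 * qs.length - 1)) b.2) else b

def cSp (K w : ℕ) : ℕ := if w ≤ 2 * K then w else if w ≤ 3 * K then 2 * (w - 2 * K) else 2 * (w - 3 * K)

def cDir (K z : ℕ) (x : Vt) : Lb :=
  if x.1 = z then x.2 else if x.1 < z then up else
    if z ≤ 2 * K then (if z < cSp K x.1 then (0, 1) else if z = cSp K x.1 then (0, 2) else up)
    else if z ≤ 3 * K ∧ x.1 = z + K then (0, 2) else up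

section

variable {r n v : ℕ} {qs : List Quad}

theorem cAdj_corner {i j : ℕ} (hi : i < 3) (hj : j < 3) (h : i ≠ j) : cAdj r n qs v (0, i) (0, j) := by
  simp [cAdj, mem_cLab, hi, hj, h]

theorem cAdj_apex {a b : Lb} (ha : a ∈ cLab r n qs.length v) (hb : b ∈ cLab r n qs.length v)
    (h : a ≠ b) (h1 : a.1 = 1 ∨ b.1 = 1) : cAdj r n qs v a b := by
  refine ⟨ha, hb, h, ?_, ?_, ?_⟩ <;> omega

theorem cAdj_cl {j i : ℕ} : cAdj r n qs v (0, j) (2, i) ↔
    j < 3 ∧ i < cN n qs.length v ∧ cEs n qs v j i := by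
  simp [cAdj, mem_cLab]

theorem cAdj_symm {a b : Lb} (h : cAdj r n qs v a b) : cAdj r n qs v b a :=
  ⟨h.2.1, h.1, h.2.2.1.symm, fun p q => h.2.2.2.2.1 q p, fun p q => h.2.2.2.1 q p,
    fun p q => by have := h.2.2.2.2.2 q p; tauto⟩

theorem up_cases {j : ℕ} {b : Lb} (h : cAdj r n qs v (0, j) b) : (∃ i < 3, j ≠ i ∧ b = (0, i)) ∨
    (∃ i ≤ r, b = (1, i)) ∨ ∃ i < cN n qs.length v, cEs n qs v j i ∧ b = (2, i) := by
  obtain ⟨p, q⟩ := b
  rcases mem_cLab.1 h.2.1 with ⟨e, g⟩ | ⟨e, g⟩ | ⟨e, g⟩ <;> obtain rfl : p = _ := e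
  · exact Or.inl ⟨q, g, by simpa using h.2.2.1, rfl⟩
  · exact Or.inr (Or.inr ⟨q, g, (cAdj_cl.1 h).2.2, rfl⟩)
  · exact Or.inr (Or.inl ⟨q, g, rfl⟩)

theorem cMt_apex {i : ℕ} : cMt n qs v (1, i) = (1, i) := by
  unfold cMt cDn; split_ifs <;> simp_all

theorem cMt_corner {i : ℕ} : cMt n qs v (0, i) = if (0, i) = cDn qs.length v then up else (0, i) := by
  simp [cMt]

theorem cMt_level {i : ℕ} : cMt n qs v (2, i) = (2, if 2 * qs.length < v ∧ v ≤ 3 * qs.length then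
    lvq n (qd qs (v - 2 * qs.length - 1)) i else i) := by
  unfold cMt cDn; split_ifs <;> simp_all

theorem cDn_eq (K v : ℕ) : ∃ j, 0 < j ∧ j < 3 ∧ cDn K v = (0, j) ∧ (j = 1 ↔ v ≤ 2 * K) := by
  unfold cDn
  split_ifs with h
  · exact ⟨1, by simp [h]⟩
  · exact ⟨2, by simp [h]⟩

theorem cDir_lt {K z w : ℕ} {b : Lb} (h1 : z < w) (h2 : w < 4 * K + 1) :
    cDir K z (w, b) = cDir K z (cPar K w, cDn K w) := by
  obtain ⟨p, d, a, c, e1, e2, e3, e4, e5⟩ : ∃ p d a c, cPar K w = p ∧ cDn K w = (0, d) ∧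
      cSp K w = a ∧ cSp K p = c ∧ ((w ≤ 2 * K ∧ p + 1 = w ∧ d = 1 ∧ a = w ∧ c = p) ∨
        (2 * K < w ∧ w ≤ 3 * K ∧ p + 4 * K = 2 * w ∧ d = 2 ∧ a = p ∧ c = p) ∨
        (3 * K < w ∧ p + K = w ∧ d = 2 ∧ a + 6 * K = 2 * w ∧ c = a)) := by
    refine ⟨_, (cDn K w).2, _, _, rfl, by unfold cDn; split_ifs <;> rfl, rfl, rfl, ?_⟩
    unfold cSp cPar cDn
    split_ifs <;> omega
  unfold cDir
  simp only [h1.ne', h1.not_gt, if_false, e1, e2, e3, e4, up]
  split_ifs <;> first | rfl | omega | (simp only [Prod.mk.injEq, true_and]; omega)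

end

/-- the tree of cells of a system of equations -/
def inst (r n : ℕ) (qs : List Quad) (h : WF n qs) : TD where
  m := 4 * qs.length + 1
  lab := cLab r n qs.length
  par := cPar qs.length
  dn := cDn qs.length
  adj := cAdj r n qs
  mt := cMt n qs
  dir := cDir qs.length
  m_pos := by omega
  par_lt v h0 hv := by unfold cPar; split_ifs <;> omega
  up_mem v _ := by simp [mem_cLab, up]
  dn_mem v _ _ := by unfold cDn; split_ifs <;> simp [mem_cLab]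
  dn_ne v := by unfold cDn; split_ifs <;> simp [up]
  inj v w h1 h2 h3 h4 := by
    unfold cPar cDn
    split_ifs <;> simp <;> omega
  adj_mem v a b g := ⟨g.1, g.2.1, g.2.2.1⟩
  adj_symm v a b := cAdj_symm
  mt_adj v h0 hv b g := by
    obtain ⟨j, j0, j1, j2, j3⟩ := cDn_eq qs.length v
    rcases up_cases g with ⟨i, g1, g2, rfl⟩ | ⟨i, g1, rfl⟩ | ⟨i, g1, g2, rfl⟩
    · rw [cMt_corner, j2]
      split_ifs with e
      · exact cAdj_corner j1 (by omega) (by omega)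
      · exact cAdj_corner j1 g1 (by rintro rfl; exact e rfl)
    · rw [cMt_apex, j2]
      exact cAdj_apex (by simp [mem_cLab, j1]) (by simp [mem_cLab, g1]) (by simp) (Or.inr rfl)
    · rw [cMt_level, j2, cAdj_cl]
      refine ⟨j1, ?_⟩
      by_cases e1 : v ≤ 2 * qs.length
      · rw [if_neg (by omega), cPar, if_pos e1, cEs, if_pos (by omega), cN, if_pos (by omega)]
        rw [cN, if_pos e1] at g1
        exact ⟨g1, Or.inl (by omega)⟩
      rw [cN, if_neg e1] at g1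
      by_cases e2 : v ≤ 3 * qs.length
      · obtain ⟨q1, q2, q3, q4, q5⟩ := h.2 _ (qd_mem (i := v - 2 * qs.length - 1) (by omega))
        rw [if_pos (by omega), cPar, if_neg e1, if_pos e2, cEs, if_pos (by omega), cN,
          if_pos (by omega), inS, show (2 * (v - 2 * qs.length) + 1) / 2 = v - 2 * qs.length by omega]
        unfold lvq
        split_ifs <;> omega
      · rw [if_neg (by omega), cPar, if_neg e1, if_neg e2, cEs, if_neg (by omega), cN,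
          if_neg (by omega)]
        exact ⟨g1, Or.inl (by omega)⟩
  mt_inj v h0 hv b b' g g' := by
    obtain ⟨j, j0, j1, j2, j3⟩ := cDn_eq qs.length v
    rcases up_cases g with ⟨i, g1, g2, rfl⟩ | ⟨i, g1, rfl⟩ | ⟨i, g1, g2, rfl⟩ <;>
    rcases up_cases g' with ⟨i', g1', g2', rfl⟩ | ⟨i', g1', rfl⟩ | ⟨i', g1', g2', rfl⟩ <;>
    simp only [cMt_corner, cMt_apex, cMt_level, j2, up, Prod.mk.injEq, true_and] <;>
    (try split_ifs) <;> (try simp only [Prod.mk.injEq, true_and]) <;> try omega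
    obtain ⟨q1, q2, q3, q4, q5⟩ := h.2 _ (qd_mem (i := v - 2 * qs.length - 1) (by omega))
    rw [cN, if_neg (by omega)] at g1 g1'
    unfold lvq
    split_ifs <;> intro <;> first | omega | contradiction
  mt_surj v h0 hv a g := by
    obtain ⟨j, j0, j1, j2, j3⟩ := cDn_eq qs.length v
    rw [j2] at g
    rcases up_cases g with ⟨i, g1, g2, rfl⟩ | ⟨i, g1, rfl⟩ | ⟨i, g1, g2, rfl⟩
    · by_cases e : i = 0
      · exact ⟨(0, j), cAdj_corner (by omega) j1 (by omega), by simp [cMt_corner, j2, up, e]⟩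
      · exact ⟨(0, i), cAdj_corner (by omega) g1 (by omega), by simp [cMt_corner, j2, g2.symm]⟩
    · exact ⟨(1, i), cAdj_apex (by simp [mem_cLab, up]) (by simp [mem_cLab, g1]) (by simp [up])
        (Or.inr rfl), cMt_apex⟩
    · by_cases e1 : v ≤ 2 * qs.length
      · rw [cPar, if_pos e1, cN, if_pos (by omega)] at g1
        exact ⟨(2, i), cAdj_cl.2 ⟨by omega, by rwa [cN, if_pos e1], by simp [cEs, e1]⟩,
          by rw [cMt_level, if_neg (by omega)]⟩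
      by_cases e2 : v ≤ 3 * qs.length
      · rw [cPar, if_neg e1, if_pos e2, cEs, if_pos (by omega), inS, inS,
          show (2 * (v - 2 * qs.length) + 1) / 2 = v - 2 * qs.length by omega,
          show 2 * (v - 2 * qs.length) / 2 = v - 2 * qs.length by omega] at g2
        have : ∃ c < 6, lvq n (qd qs (v - 2 * qs.length - 1)) c = i := by
          rcases g2 with e | e | e | ⟨-, e | e | ⟨-, e | e⟩⟩ | ⟨-, e | e | ⟨e, -⟩⟩
          · omega
          · exact ⟨0, by omega, e.symm⟩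
          · exact ⟨5, by omega, e.symm⟩
          · exact ⟨2, by omega, e.symm⟩
          · exact ⟨4, by omega, e.symm⟩
          · exact ⟨1, by omega, e.symm⟩
          · exact ⟨3, by omega, e.symm⟩
          · exact ⟨2, by omega, e.symm⟩
          · exact ⟨4, by omega, e.symm⟩
          · omega
        obtain ⟨c, c1, c2⟩ := this
        exact ⟨(2, c), cAdj_cl.2 ⟨by omega, by rwa [cN, if_neg e1], by simp [cEs, e1, e2]⟩,
          by rw [cMt_level, if_pos (by omega), c2]⟩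
      · rw [cPar, if_neg e1, if_neg e2, cN, if_neg (by omega)] at g1
        exact ⟨(2, i), cAdj_cl.2 ⟨by omega, by rwa [cN, if_neg e1], by simp [cEs, e1, esG]⟩,
          by rw [cMt_level, if_neg (by omega)]⟩
  dir_self z b := by simp [cDir]
  dir_lt z w b := cDir_lt
  dir_gt z w b h1 := by simp [cDir, h1, h1.ne]

theorem inst_apex {r n : ℕ} {qs : List Quad} (h : WF n qs) {j : ℕ} (hj : j ≤ r) :
    (inst r n qs h).Apex (1, j) where
  ne_up := by simp [up]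
  ne_dn v := by
    obtain ⟨i, -, -, e, -⟩ := cDn_eq qs.length v
    intro g
    simpa using e.symm.trans g
  adj v _ a ha e := cAdj_apex (by simp [mem_cLab, hj]) ha e.symm (Or.inl rfl)
  mt _ := cMt_apex

end Pool.Agent.MP_26cd3b_lc.H27
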