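import Mathlib

set_option autoImplicit false

namespace Pool.Agent.MP_26cd3b_lc.H27

abbrev Lb := ℕ × ℕ
abbrev Vt := ℕ × Lb

/-- the label of the port toward the parent -/
def up : Lb := (0, 0)

/-- a rooted tree of cells -/
structure TD where
  m : ℕ
  lab : ℕ → Finset Lb
  par : ℕ → ℕ
  dn : ℕ → Lb
  adj : ℕ → Lb → Lb → Prop
  mt : ℕ → Lb → Lb
  dir : ℕ → Vt → Lb
  m_pos : 0 < m
  par_lt : ∀ v, 0 < v → v < m → par v < v
  up_mem : ∀ v < m, up ∈ lab v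
  dn_mem : ∀ v, 0 < v → v < m → dn v ∈ lab (par v)
  dn_ne : ∀ v, dn v ≠ up
  inj : ∀ v w, 0 < v → v < m → 0 < w → w < m → par v = par w → dn v = dn w → v = w
  adj_mem : ∀ v a b, adj v a b → a ∈ lab v ∧ b ∈ lab v ∧ a ≠ b
  adj_symm : ∀ v a b, adj v a b → adj v b a
  mt_adj : ∀ v, 0 < v → v < m → ∀ b, adj v up b → adj (par v) (dn v) (mt v b)
  mt_inj : ∀ v, 0 < v → v < m → ∀ b b', adj v up b → adj v up b' → mt v b = mt v b' → b = b'
  mt_surj : ∀ v, 0 < v → v < m → ∀ a, adj (par v) (dn v) a → ∃ b, adj v up b ∧ mt v b = a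
  dir_self : ∀ z b, dir z (z, b) = b
  dir_lt : ∀ z w b, z < w → w < m → dir z (w, b) = dir z (par w, dn w)
  dir_gt : ∀ z w b, w < z → dir z (w, b) = up

namespace TD

variable (D : TD)

/-- the vertices once the first `n` cells are glued -/
def InV (n : ℕ) (x : Vt) : Prop :=
  x.1 < n ∧ x.2 ∈ D.lab x.1 ∧ (0 < x.1 → x.2 ≠ up) ∧
    ∀ w < n, 0 < w → D.par w = x.1 → D.dn w ≠ x.2

open Classical in
noncomputable def Vs (n : ℕ) : Finset Vt :=
  ((Finset.range n).biUnion fun v => (D.lab v).image fun a => (v, a)).filter (D.InV n)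

theorem mem_Vs {n : ℕ} {x : Vt} : x ∈ D.Vs n ↔ D.InV n x := by
  simp only [Vs, Finset.mem_filter, Finset.mem_biUnion, Finset.mem_range, Finset.mem_image]
  exact ⟨fun h => h.2, fun h => ⟨⟨x.1, h.1, x.2, h.2.1, rfl⟩, h⟩⟩

def C (z : ℕ) (x x' : Vt) : Prop :=
  (D.dir z x ≠ D.dir z x' → D.adj z (D.dir z x) (D.dir z x')) ∧
    (0 < z → D.dir z x = up → D.dir z x' ≠ up → D.dir (D.par z) x = D.mt z (D.dir z x'))

/-- the graph once the first `n` cells are glued -/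
def G (n : ℕ) (x x' : Vt) : Prop := x ≠ x' ∧ ∀ z < n, D.C z x x' ∧ D.C z x' x

variable {D}

theorem G.symm {n : ℕ} {x x' : Vt} (h : D.G n x x') : D.G n x' x :=
  ⟨h.1.symm, fun z hz => (h.2 z hz).symm⟩

theorem G.adj {n z : ℕ} {x x' : Vt} (h : D.G n x x') (hz : z < n) (e : D.dir z x ≠ D.dir z x') :
    D.adj z (D.dir z x) (D.dir z x') := (h.2 z hz).1.1 e

/-- the port at which the cell `n` is glued -/
def port (D : TD) (n : ℕ) : Vt := (D.par n, D.dn n)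

theorem port_mem {n : ℕ} (h0 : 0 < n) (hn : n < D.m) : D.InV n (D.port n) :=
  ⟨D.par_lt n h0 hn, D.dn_mem n h0 hn, fun _ => D.dn_ne n, fun w hw h1 h2 h3 =>
    hw.ne (D.inj w n h1 (hw.trans hn) h0 hn h2 h3)⟩

theorem inV_succ {n : ℕ} (h0 : 0 < n) (hn : n < D.m) (x : Vt) : D.InV (n + 1) x ↔
    (D.InV n x ∧ x ≠ D.port n) ∨ (x.1 = n ∧ x.2 ∈ D.lab n ∧ x.2 ≠ up) := by
  obtain ⟨v, a⟩ := x
  simp only [InV, port, ne_eq, Prod.mk.injEq, Nat.lt_succ_iff_lt_or_eq]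
  constructor
  · rintro ⟨h1 | rfl, h2, h3, h4⟩
    · exact Or.inl ⟨⟨h1, h2, h3, fun w hw => h4 w (Or.inl hw)⟩,
        fun e => h4 n (Or.inr rfl) h0 e.1.symm e.2.symm⟩
    · exact Or.inr ⟨rfl, h2, h3 h0⟩
  · rintro (⟨⟨h1, h2, h3, h4⟩, h5⟩ | ⟨rfl, h2, h3⟩)
    · refine ⟨Or.inl h1, h2, h3, ?_⟩
      rintro w (hw | rfl) g1 g2 g3
      · exact h4 w hw g1 g2 g3
      · exact h5 ⟨g2.symm, g3.symm⟩
    · refine ⟨Or.inr rfl, h2, fun _ => h3, fun w hw g1 g2 => ?_⟩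
      have := D.par_lt w g1 (by omega)
      omega

theorem dir_port {z n : ℕ} (hz : z < n) (hn : n < D.m) (b : Lb) :
    D.dir z (n, b) = D.dir z (D.port n) := D.dir_lt z n b hz hn

theorem dir_up {z : ℕ} {x : Vt} (h : x.1 < z) : D.dir z x = up := D.dir_gt z x.1 x.2 h

theorem G_old {n : ℕ} {x x' : Vt} (h : x.1 < n) (h' : x'.1 < n) :
    D.G (n + 1) x x' ↔ D.G n x x' := by
  refine and_congr_right fun _ => ⟨fun g z hz => g z (by omega), fun g z hz => ?_⟩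
  rcases Nat.lt_succ_iff_lt_or_eq.1 hz with e | rfl
  · exact g z e
  · simp [C, dir_up h, dir_up h']

theorem G_new {n : ℕ} (hn : n < D.m) {b b' : Lb} (h : b ≠ up) (h' : b' ≠ up) :
    D.G (n + 1) (n, b) (n, b') ↔ D.adj n b b' := by
  constructor
  · intro g
    have := g.adj (z := n) (by omega)
    simp only [D.dir_self] at this
    exact this fun e => g.1 (by rw [e])
  · intro g
    refine ⟨by simpa using (D.adj_mem _ _ _ g).2.2, fun z hz => ?_⟩
    rcases Nat.lt_succ_iff_lt_or_eq.1 hz with e | rfl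
    · simp only [C, dir_port e hn]
      tauto
    · simp [C, D.dir_self, g, D.adj_symm _ _ _ g, h, h']

theorem G_mixed {n : ℕ} (h0 : 0 < n) (hn : n < D.m) {x : Vt} (hx : x.1 < n) (hp : x ≠ D.port n)
    {b : Lb} (h : b ≠ up) : D.G (n + 1) x (n, b) ↔
      D.G n x (D.port n) ∧ D.adj n up b ∧ D.dir (D.par n) x = D.mt n b := by
  have key : ∀ z < n, (D.C z x (n, b) ∧ D.C z (n, b) x ↔
      D.C z x (D.port n) ∧ D.C z (D.port n) x) := by
    intro z hz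
    simp only [C, dir_port hz hn]
    refine and_congr Iff.rfl (and_congr Iff.rfl (forall_congr' fun h1 => ?_))
    rw [dir_port ((D.par_lt z h1 (by omega)).trans hz) hn]
  have k2 : D.C n x (n, b) ∧ D.C n (n, b) x ↔
      D.adj n up b ∧ D.dir (D.par n) x = D.mt n b := by
    simp only [C, dir_up hx, D.dir_self]
    exact ⟨fun g => ⟨g.1.1 h.symm, g.1.2 h0 trivial h⟩, fun g =>
      ⟨⟨fun _ => g.1, fun _ _ _ => g.2⟩, fun _ => D.adj_symm _ _ _ g.1, fun _ e => absurd e h⟩⟩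
  constructor
  · intro g
    exact ⟨⟨hp, fun z hz => (key z hz).1 (g.2 z (by omega))⟩, k2.1 (g.2 n (by omega))⟩
  · rintro ⟨g1, g2⟩
    refine ⟨fun e => hx.ne (by rw [e]), fun z hz => ?_⟩
    rcases Nat.lt_succ_iff_lt_or_eq.1 hz with e | rfl
    · exact (key z e).2 (g1.2 z e)
    · exact k2.2 g2

/-- where a vertex of another cell lies -/
theorem dir_cases {v : ℕ} : ∀ (w : ℕ) (b : Lb), w < D.m → w ≠ v → (0 < w → b ≠ up) →
    (0 < v ∧ D.dir v (w, b) = up) ∨ ∃ c ≤ w, 0 < c ∧ D.par c = v ∧ D.dir v (w, b) = D.dn c ∧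
      D.dir c (w, b) ≠ up := by
  intro w
  induction w using Nat.strong_induction_on with
  | _ w ih =>
    intro b hw hne hb
    rcases lt_or_gt_of_ne hne with e | e
    · exact Or.inl ⟨by omega, D.dir_gt _ _ _ e⟩
    · have h0 : 0 < w := by omega
      have h1 := D.par_lt w h0 hw
      rw [D.dir_lt _ _ _ e hw]
      by_cases e2 : D.par w = v
      · exact Or.inr ⟨w, le_rfl, h0, e2, by rw [e2, D.dir_self], by rw [D.dir_self]; exact hb h0⟩
      · rcases ih _ h1 (D.dn w) (by omega) e2 fun _ => D.dn_ne w with g | ⟨c, g1, g2, g3, g4, g5⟩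
        · exact Or.inl g
        · exact Or.inr ⟨c, by omega, g2, g3, g4, by rwa [D.dir_lt _ _ _ (by omega) hw]⟩

theorem dir_par {z : ℕ} (h0 : 0 < z) (hz : z < D.m) : ∀ (w : ℕ) (b : Lb), w < D.m →
    D.dir z (w, b) ≠ up → D.dir (D.par z) (w, b) = D.dn z := by
  intro w
  induction w using Nat.strong_induction_on with
  | _ w ih =>
    intro b hw h
    have h1 := D.par_lt z h0 hz
    rcases lt_trichotomy w z with e | rfl | e
    · exact absurd (D.dir_gt _ _ _ e) h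
    · rw [D.dir_lt _ _ _ h1 hw, D.dir_self]
    · have h2 := D.par_lt w (by omega) hw
      rw [D.dir_lt _ _ _ e hw] at h
      rw [D.dir_lt _ _ _ (h1.trans e) hw]
      exact ih _ h2 _ (by omega) h

theorem eq_of_dir {n v : ℕ} (hn : n ≤ D.m) {a : Lb} {x : Vt} (hx : D.InV n x)
    (ha : D.InV n (v, a)) (h : D.dir v x = a) : x = (v, a) := by
  obtain ⟨w, b⟩ := x
  by_cases e : w = v
  · subst e; rw [D.dir_self] at h; rw [h]
  · rcases dir_cases (D := D) w b (by have := hx.1; omega) e hx.2.2.1 with g | ⟨c, g1, g2, g3, g4, -⟩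
    · exact absurd (h.symm.trans g.2) (ha.2.2.1 g.1)
    · exact absurd (g4.symm.trans h) (ha.2.2.2 c (by have := hx.1; omega) g2 g3)

theorem G.adj_left {n v : ℕ} (hn : n ≤ D.m) {a : Lb} {x : Vt} (hx : D.InV n x)
    (ha : D.InV n (v, a)) (h : D.G n (v, a) x) : D.adj v a (D.dir v x) := by
  have := h.adj (z := v) ha.1
  rw [D.dir_self] at this
  exact this fun e => h.1 (eq_of_dir hn hx ha e.symm).symm

/-- every local edge extends to a global edge -/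
theorem strand : ∀ n ≤ D.m, ∀ z < n, ∀ a b, D.adj z a b →
    ∃ x x', D.InV n x ∧ D.InV n x' ∧ D.G n x x' ∧ D.dir z x = a ∧ D.dir z x' = b := by
  intro n
  induction n with
  | zero => intro _ z hz; omega
  | succ n ih =>
    intro hn z hz a b hab
    rcases Nat.eq_zero_or_pos n with rfl | h0
    · obtain rfl : z = 0 := by omega
      obtain ⟨h1, h2, h3⟩ := D.adj_mem _ _ _ hab
      refine ⟨(0, a), (0, b), ⟨hz, h1, by simp, fun w hw => by omega⟩,
        ⟨hz, h2, by simp, fun w hw => by omega⟩, ⟨by simpa using h3, fun w hw => ?_⟩,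
        D.dir_self _ _, D.dir_self _ _⟩
      obtain rfl : w = 0 := by omega
      simp [C, D.dir_self, hab, D.adj_symm _ _ _ hab]
    have hn' : n < D.m := hn
    have hp := port_mem h0 hn'
    have ext : ∀ x, D.InV n x → D.G n x (D.port n) →
        ∃ c, D.InV (n + 1) x ∧ D.InV (n + 1) (n, c) ∧ D.G (n + 1) x (n, c) := by
      intro x hx g
      obtain ⟨c, h1, h2⟩ := D.mt_surj n h0 hn' _ (g.symm.adj_left hn'.le hx hp)
      obtain ⟨-, h3, h4⟩ := D.adj_mem _ _ _ h1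
      exact ⟨c, (inV_succ h0 hn' _).2 (Or.inl ⟨hx, g.1⟩), (inV_succ h0 hn' _).2
        (Or.inr ⟨rfl, h3, h4.symm⟩), (G_mixed h0 hn' hx.1 g.1 h4.symm).2 ⟨g, h1, h2.symm⟩⟩
    have fromup : ∀ b, D.adj n up b → ∃ x, D.InV (n + 1) x ∧ D.InV (n + 1) (n, b) ∧
        D.G (n + 1) x (n, b) ∧ D.dir n x = up := by
      intro b hb
      obtain ⟨x', x, h1, h2, h3, h4, h5⟩ := ih hn'.le _ (D.par_lt n h0 hn') _ _
        (D.mt_adj n h0 hn' b hb)
      obtain rfl : x' = D.port n := eq_of_dir hn'.le h1 hp h4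
      obtain ⟨-, h6, h7⟩ := D.adj_mem _ _ _ hb
      exact ⟨x, (inV_succ h0 hn' _).2 (Or.inl ⟨h2, h3.1.symm⟩), (inV_succ h0 hn' _).2
        (Or.inr ⟨rfl, h6, h7.symm⟩), (G_mixed h0 hn' h2.1 h3.1.symm h7.symm).2 ⟨h3.symm, hb, h5⟩,
        dir_up h2.1⟩
    rcases Nat.lt_succ_iff_lt_or_eq.1 hz with e | rfl
    · obtain ⟨x, x', h1, h2, h3, h4, h5⟩ := ih hn'.le z e a b hab
      by_cases e1 : x' = D.port n
      · subst e1
        obtain ⟨c, g1, g2, g3⟩ := ext x h1 h3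
        exact ⟨x, (n, c), g1, g2, g3, h4, (dir_port e hn' c).trans h5⟩
      by_cases e2 : x = D.port n
      · subst e2
        obtain ⟨c, g1, g2, g3⟩ := ext x' h2 h3.symm
        exact ⟨(n, c), x', g2, g1, g3.symm, (dir_port e hn' c).trans h4, h5⟩
      exact ⟨x, x', (inV_succ h0 hn' _).2 (Or.inl ⟨h1, e2⟩), (inV_succ h0 hn' _).2
        (Or.inl ⟨h2, e1⟩), (G_old h1.1 h2.1).2 h3, h4, h5⟩
    · by_cases e1 : a = up
      · subst e1
        obtain ⟨x, g1, g2, g3, g4⟩ := fromup b hab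
        exact ⟨x, (z, b), g1, g2, g3, g4, D.dir_self _ _⟩
      by_cases e2 : b = up
      · subst e2
        obtain ⟨x, g1, g2, g3, g4⟩ := fromup a (D.adj_symm _ _ _ hab)
        exact ⟨(z, a), x, g2, g1, g3.symm, D.dir_self _ _, g4⟩
      obtain ⟨h1, h2, -⟩ := D.adj_mem _ _ _ hab
      exact ⟨(z, a), (z, b), (inV_succ h0 hn' _).2 (Or.inr ⟨rfl, h1, e1⟩), (inV_succ h0 hn' _).2
        (Or.inr ⟨rfl, h2, e2⟩), (G_new hn' e1 e2).2 hab, D.dir_self _ _, D.dir_self _ _⟩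

/-- a label that behaves as the apex of every cell -/
structure Apex (D : TD) (nd : Lb) : Prop where
  ne_up : nd ≠ up
  ne_dn : ∀ v, D.dn v ≠ nd
  adj : ∀ v < D.m, ∀ a ∈ D.lab v, a ≠ nd → D.adj v nd a
  mt : ∀ v, D.mt v nd = nd

theorem Apex.mem {nd : Lb} (h : D.Apex nd) {v : ℕ} (hv : v < D.m) : D.InV D.m (v, nd) :=
  ⟨hv, (D.adj_mem _ _ _ (h.adj v hv up (D.up_mem v hv) h.ne_up.symm)).1, fun _ => h.ne_up,
    fun w _ _ _ => h.ne_dn w⟩

/-- the neighbours of a node -/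
theorem Apex.nbr {nd : Lb} (h : D.Apex nd) {v : ℕ} (hv : v < D.m) {x : Vt} (hx : D.InV D.m x)
    (g : D.G D.m (v, nd) x) : x.1 = v ∨ (0 < v ∧ D.dir v x = up ∧ x = (D.par v, nd)) ∨
      ∃ c < D.m, 0 < c ∧ D.par c = v ∧ D.dir v x = D.dn c ∧ x = (c, nd) := by
  obtain ⟨w, b⟩ := x
  by_cases e : w = v
  · exact Or.inl e
  right
  rcases dir_cases w b hx.1 e hx.2.2.1 with k | ⟨c, g1, g2, g3, g4, g5⟩
  · refine Or.inl ⟨k.1, k.2, eq_of_dir le_rfl hx (h.mem ((D.par_lt v k.1 hv).trans hv)) ?_⟩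
    have := (g.2 v hv).2.2 k.1 k.2 (by rw [D.dir_self]; exact h.ne_up)
    rwa [D.dir_self, h.mt] at this
  · have hc : c < D.m := lt_of_le_of_lt g1 hx.1
    refine Or.inr ⟨c, hc, g2, g3, g4, eq_of_dir le_rfl hx (h.mem hc) ?_⟩
    have e1 : D.dir c (v, nd) = up := D.dir_gt _ _ _ (g3 ▸ D.par_lt c g2 hc)
    have e2 := (g.2 c hc).1.2 g2 e1 g5
    have e3 := g.adj hc (e1 ▸ g5.symm)
    rw [g3, D.dir_self] at e2
    rw [e1] at e3
    exact D.mt_inj c g2 hc _ _ e3 (D.adj_symm _ _ _ (h.adj c hc up (D.up_mem c hc) h.ne_up.symm))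
      (by rw [h.mt, ← e2])

theorem Apex.exists_nbr {nd : Lb} (h : D.Apex nd) {v : ℕ} (hv : v < D.m) {a : Lb}
    (ha : a ∈ D.lab v) (hne : a ≠ nd) :
    ∃ x, D.InV D.m x ∧ D.G D.m (v, nd) x ∧ D.dir v x = a := by
  obtain ⟨x', x, h1, h2, h3, h4, h5⟩ := strand D.m le_rfl v hv _ _ (h.adj v hv a ha hne)
  obtain rfl := eq_of_dir le_rfl h1 (h.mem hv) h4
  exact ⟨x, h2, h3, h5⟩

theorem Apex.nbr_unique {nd : Lb} (h : D.Apex nd) {v : ℕ} (hv : v < D.m) {x x' : Vt}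
    (hx : D.InV D.m x) (hx' : D.InV D.m x') (g : D.G D.m (v, nd) x) (g' : D.G D.m (v, nd) x')
    (e : D.dir v x = D.dir v x') : x = x' := by
  have key : ∀ x x' : Vt, D.InV D.m x → D.InV D.m x' → D.dir v x = D.dir v x' → x.1 = v →
      x = x' := by
    rintro ⟨w, b⟩ x' h1 h2 h3 rfl
    rw [D.dir_self] at h3
    exact (eq_of_dir le_rfl h2 h1 h3.symm).symm
  rcases h.nbr hv hx g with k | ⟨k1, k2, k3⟩ | ⟨c, k1, k2, k3, k4, k5⟩
  · exact key x x' hx hx' e k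
  · rcases h.nbr hv hx' g' with l | ⟨l1, l2, l3⟩ | ⟨d, l1, l2, l3, l4, l5⟩
    · exact (key x' x hx' hx e.symm l).symm
    · rw [k3, l3]
    · exact absurd (l4.symm.trans (e.symm.trans k2)) (D.dn_ne d)
  · rcases h.nbr hv hx' g' with l | ⟨l1, l2, l3⟩ | ⟨d, l1, l2, l3, l4, l5⟩
    · exact (key x' x hx' hx e.symm l).symm
    · exact absurd (k4.symm.trans (e.trans l2)) (D.dn_ne c)
    · rw [k5, l5, D.inj c d k2 k1 l2 l1 (k3.trans l3.symm) (k4.symm.trans (e.trans l4))]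

end TD

end Pool.Agent.MP_26cd3b_lc.H27
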