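import Pool.Agent.MP_26cd3b_lc.H27.Real
import Pool.Agent.MP_26cd3b_lc.H27.Tree

set_option autoImplicit false

namespace Pool.Agent.MP_26cd3b_lc.H27

open Submodule

variable {E : Type} [AddCommGroup E] [Module ℝ E] [FiniteDimensional ℝ E]

/-- a treetope with the graph of the tree of cells, whose nodes carry the label `nd` -/
structure Glob (D : TD) (nd : Lb) (Y : Vt → E) (ν : E →ₗ[ℝ] ℝ) : Prop where
  ap : D.Apex nd
  tp : Tp (D.Vs D.m) Y ν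
  ed : ∀ x x', D.InV D.m x → D.InV D.m x' → (D.G D.m x x' ↔ Ed (D.Vs D.m) Y x x')
  nd : ∀ x, D.InV D.m x → (0 < ν (Y x) ↔ x.2 = nd)

open Classical in
/-- the neighbour of the node `v` in the direction `a` -/
noncomputable def TD.nb (D : TD) (nd : Lb) (v : ℕ) (a : Lb) : Vt :=
  if h : ∃ x, D.InV D.m x ∧ D.G D.m (v, nd) x ∧ D.dir v x = a then h.choose else (v, nd)

variable {D : TD} {nd : Lb} {Y : Vt → E} {ν : E →ₗ[ℝ] ℝ}

theorem TD.Apex.nb_spec (h : D.Apex nd) {v : ℕ} (hv : v < D.m) {a : Lb} (ha : a ∈ D.lab v)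
    (hne : a ≠ nd) : D.InV D.m (D.nb nd v a) ∧ D.G D.m (v, nd) (D.nb nd v a) ∧
      D.dir v (D.nb nd v a) = a := by
  have := h.exists_nbr hv ha hne
  rw [TD.nb, dif_pos this]
  exact this.choose_spec

theorem TD.Apex.dir_mem (h : D.Apex nd) {v : ℕ} (hv : v < D.m) {x : Vt} (hx : D.InV D.m x)
    (g : D.G D.m (v, nd) x) : D.dir v x ∈ D.lab v ∧ D.dir v x ≠ nd :=
  let k := D.adj_mem _ _ _ (g.adj_left le_rfl hx (h.mem hv))
  ⟨k.2.1, k.2.2.symm⟩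

theorem TD.Apex.eq_nb (h : D.Apex nd) {v : ℕ} (hv : v < D.m) {x : Vt} (hx : D.InV D.m x)
    (g : D.G D.m (v, nd) x) : x = D.nb nd v (D.dir v x) :=
  let k := h.dir_mem hv hx g
  let l := h.nb_spec hv k.1 k.2
  h.nbr_unique hv hx l.1 g l.2.1 l.2.2.symm

theorem TD.Apex.nb_up (h : D.Apex nd) {v : ℕ} (h0 : 0 < v) (hv : v < D.m) :
    D.nb nd v up = (D.par v, nd) := by
  obtain ⟨k1, k2, k3⟩ := h.nb_spec hv (D.up_mem v hv) h.ne_up.symm
  rcases h.nbr hv k1 k2 with e | ⟨-, -, e⟩ | ⟨c, -, -, -, e, -⟩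
  · generalize D.nb nd v up = x at *
    obtain ⟨w, b⟩ := x
    subst e
    rw [D.dir_self] at k3
    exact absurd k3 (k1.2.2.1 h0)
  · exact e
  · exact absurd (e.symm.trans k3) (D.dn_ne c)

theorem TD.Apex.nb_dn (h : D.Apex nd) {v : ℕ} (h0 : 0 < v) (hv : v < D.m) :
    D.nb nd (D.par v) (D.dn v) = (v, nd) := by
  have hu := D.par_lt v h0 hv
  have g := (h.nb_spec hv (D.up_mem v hv) h.ne_up.symm).2.1
  rw [h.nb_up h0 hv] at g
  have := h.eq_nb (hu.trans hv) (h.mem hv) g.symm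
  rwa [D.dir_lt _ _ _ hu hv, D.dir_self, eq_comm] at this

namespace Glob

theorem base (h : Glob D nd Y ν) {x : Vt} (hx : D.InV D.m x) : ν (Y x) = 0 ↔ x.2 ≠ nd := by
  rw [ne_eq, ← h.nd x hx, not_lt]
  exact ⟨fun e => e.le, fun e => le_antisymm e (h.tp.nu x (D.mem_Vs.2 hx))⟩

section strand

variable (h : Glob D nd Y ν) {φ : E →ₗ[ℝ] ℝ} (hφ : Valid (D.Vs D.m) Y φ)
  (h3 : Three (D.Vs D.m) Y φ) {l l' : Vt}
  (hZ : ∀ x, D.InV D.m x → φ (Y x) = 0 → x.2 ≠ nd → x = l ∨ x = l')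
include h hφ h3

theorem other {w : ℕ} (hw : w < D.m) (h0 : φ (Y (w, nd)) = 0) {a : Lb} (ha : a ≠ nd) :
    ∃ x, D.InV D.m x ∧ D.G D.m (w, nd) x ∧ φ (Y x) = 0 ∧ D.dir w x ≠ a := by
  obtain ⟨x, k1, k2, k3⟩ := h.tp.vx.two_nbrs hφ h3 (D.mem_Vs.2 (h.ap.mem hw)) h0 (D.nb nd w a)
  have k4 := D.mem_Vs.1 k1.2.1
  have k5 := (h.ed _ _ (h.ap.mem hw) k4).2 k1
  exact ⟨x, k4, k5, k2, fun e => k3 (e ▸ h.ap.eq_nb hw k4 k5)⟩

include hZ

theorem down_dir (hl : D.InV D.m l) (hl' : D.InV D.m l') : ∀ w < D.m, φ (Y (w, nd)) = 0 →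
    ∀ x, D.InV D.m x → D.G D.m (w, nd) x → φ (Y x) = 0 → (0 < w → D.dir w x ≠ up) →
      D.dir w x = D.dir w l ∨ D.dir w x = D.dir w l' := by
  intro w hw
  induction hk : D.m - w using Nat.strong_induction_on generalizing w with
  | _ k ih =>
    intro h0 x hx g h1 h2
    rcases h.ap.nbr hw hx g with e | ⟨e1, e2, -⟩ | ⟨c, e1, e2, e3, e4, e5⟩
    · refine (hZ x hx h1 fun e' => g.1 (Prod.ext e.symm e'.symm)).imp ?_ ?_ <;> rintro rfl <;> rfl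
    · exact absurd e2 (h2 e1)
    · subst e5
      have hc := D.par_lt c e2 e1
      obtain ⟨x', k1, k2, k3, k4⟩ := h.other hφ h3 e1 h1 h.ap.ne_up.symm
      rw [e4, ← e3]
      refine (ih (D.m - c) (by omega) c e1 rfl h1 x' k1 k2 k3 fun _ => k4).imp
        (fun e => ?_) fun e => ?_
      · exact (TD.dir_par e2 e1 l.1 l.2 hl.1 (e ▸ k4)).symm
      · exact (TD.dir_par e2 e1 l'.1 l'.2 hl'.1 (e ▸ k4)).symm

theorem ascend (hl : D.InV D.m l) (hl' : D.InV D.m l') (h1 : φ (Y l) = 0) (h2 : l.2 ≠ nd) :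
    ∀ z < D.m, (0 < z → D.dir z l ≠ up) → D.dir z l ≠ D.dir z l' →
      φ (Y (z, nd)) = 0 ∧ φ (Y (D.nb nd z (D.dir z l))) = 0 := by
  intro z hz
  induction hk : D.m - z using Nat.strong_induction_on generalizing z with
  | _ k ih =>
    intro g1 g2
    obtain ⟨w, b⟩ := l
    by_cases e : w = z
    · subst e
      obtain ⟨x, k1, k2, k3⟩ := h.tp.vx.two_nbrs hφ h3 (D.mem_Vs.2 hl) h1 l'
      have k4 := D.mem_Vs.1 k1.2.1
      have k5 : x.2 = nd := by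
        by_contra e
        exact (hZ x k4 k2 e).elim (fun e' => k1.2.2.1 e'.symm) k3
      obtain ⟨w', b'⟩ := x
      subst k5
      have k6 := ((h.ed _ _ hl k4).2 k1).symm
      rcases h.ap.nbr k4.1 hl k6 with e | ⟨-, -, e⟩ | ⟨c, -, -, -, -, e⟩
      · obtain rfl : w = w' := e
        exact ⟨k2, h.ap.eq_nb hz hl k6 ▸ h1⟩
      · exact absurd (congrArg Prod.snd e) h2
      · exact absurd (congrArg Prod.snd e) h2
    · rcases TD.dir_cases (D := D) w b hl.1 e hl.2.2.1 with k | ⟨c, e1, e2, e3, e4, e5⟩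
      · exact absurd k.2 (g1 k.1)
      · have hc : c < D.m := lt_of_le_of_lt e1 hl.1
        have hc' := D.par_lt c e2 hc
        have e6 : D.dir c l' = up := by
          by_contra e6
          exact g2 (e4.trans (e3 ▸ TD.dir_par e2 hc l'.1 l'.2 hl'.1 e6).symm)
        obtain ⟨k1, k2⟩ := ih (D.m - c) (by omega) c hc rfl (fun _ => e5) (e6 ▸ e5)
        refine ⟨?_, by rwa [e4, ← e3, h.ap.nb_dn e2 hc]⟩
        have e7 : D.dir c (w, b) ≠ nd := fun e7 =>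
          h2 (congrArg Prod.snd (TD.eq_of_dir le_rfl hl (h.ap.mem hc) e7))
        obtain ⟨x, m1, m2, m3, m4⟩ := h.other hφ h3 hc k1 e7
        have m5 : D.dir c x = up := by
          by_contra m5
          exact (h.down_dir hφ h3 hZ hl hl' c hc k1 x m1 m2 m3 fun _ => m5).elim m4
            fun m6 => m5 (m6.trans e6)
        rwa [h.ap.eq_nb hc m1 m2, m5, h.ap.nb_up e2 hc, e3] at m3

theorem through (hl : D.InV D.m l) (hl' : D.InV D.m l') (h1 : φ (Y l) = 0) (h2 : l.2 ≠ nd)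
    (h1' : φ (Y l') = 0) (h2' : l'.2 ≠ nd) {z : ℕ} (hz : z < D.m)
    (g : D.dir z l ≠ D.dir z l') :
    φ (Y (z, nd)) = 0 ∧ φ (Y (D.nb nd z (D.dir z l))) = 0 := by
  by_cases e : 0 < z → D.dir z l ≠ up
  · exact h.ascend hφ h3 hZ hl hl' h1 h2 z hz e g
  push Not at e
  have hZ' : ∀ x, D.InV D.m x → φ (Y x) = 0 → x.2 ≠ nd → x = l' ∨ x = l :=
    fun x a b c => (hZ x a b c).symm
  obtain ⟨k1, -⟩ := h.ascend hφ h3 hZ' hl' hl h1' h2' z hz (fun _ => e.2 ▸ g.symm) g.symm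
  have e7 : D.dir z l' ≠ nd := fun e7 =>
    h2' (congrArg Prod.snd (TD.eq_of_dir le_rfl hl' (h.ap.mem hz) e7))
  obtain ⟨x, m1, m2, m3, m4⟩ := h.other hφ h3 hz k1 e7
  have m5 : D.dir z x = D.dir z l := by
    by_contra m5
    exact (h.down_dir hφ h3 hZ hl hl' z hz k1 x m1 m2 m3 fun _ => e.2 ▸ m5).elim m5 m4
  exact ⟨k1, by rwa [h.ap.eq_nb hz m1 m2, m5] at m3⟩

theorem no_escape (hl : D.InV D.m l) (hl' : D.InV D.m l') (h2 : l.2 ≠ nd) : ∀ w < D.m,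
    φ (Y (w, nd)) = 0 → D.dir w l = D.dir w l' → (0 < w → D.dir w l ≠ up) → False := by
  intro w
  induction w using Nat.strong_induction_on with
  | _ w ih =>
    intro hw h0 g1 g2
    have e7 : D.dir w l ≠ nd := fun e7 =>
      h2 (congrArg Prod.snd (TD.eq_of_dir le_rfl hl (h.ap.mem hw) e7))
    obtain ⟨x, m1, m2, m3, m4⟩ := h.other hφ h3 hw h0 e7
    by_cases e : 0 < w → D.dir w x ≠ up
    · exact (h.down_dir hφ h3 hZ hl hl' w hw h0 x m1 m2 m3 e).elim m4 fun m => m4 (m.trans g1.symm)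
    push Not at e
    rw [h.ap.eq_nb hw m1 m2, e.2, h.ap.nb_up e.1 hw] at m3
    have hp := D.par_lt w e.1 hw
    have k1 := TD.dir_par e.1 hw l.1 l.2 hl.1 (g2 e.1)
    have k2 := TD.dir_par e.1 hw l'.1 l'.2 hl'.1 (g1 ▸ g2 e.1)
    exact ih _ hp (hp.trans hw) m3 (k1.trans k2.symm) fun _ => k1 ▸ D.dn_ne w

end strand

/-- the two-dimensional face over an edge of the base -/
theorem strand_face (h : Glob D nd Y ν) {l l' : Vt} (hl : D.InV D.m l) (hl' : D.InV D.m l')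
    (g : D.G D.m l l') (h2 : l.2 ≠ nd) (h2' : l'.2 ≠ nd) :
    ∃ φ : E →ₗ[ℝ] ℝ, Valid (D.Vs D.m) Y φ ∧ ∃ U : Submodule ℝ E, Module.finrank ℝ U ≤ 3 ∧
      (∀ x, D.InV D.m x → φ (Y x) = 0 → Y x ∈ U) ∧ ∀ z < D.m, D.dir z l ≠ D.dir z l' →
        φ (Y (z, nd)) = 0 ∧ φ (Y (D.nb nd z (D.dir z l))) = 0 ∧
          φ (Y (D.nb nd z (D.dir z l'))) = 0 := by
  classical
  have ge := (h.ed _ _ hl hl').1 g
  obtain ⟨θ, k1, k2, k3, k4⟩ := ge.fn
  have b1 := (h.base hl).2 h2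
  have b2 := (h.base hl').2 h2'
  obtain ⟨c, c1, c2⟩ := up_exists h.tp.vx h.tp.hn ge.1 b1
  let φ := θ - (θ (Y c) / ν (Y c)) • ν
  have e : ∀ x, φ x = θ x - θ (Y c) / ν (Y c) * ν x := fun x => rfl
  have p1 : φ (Y l) = 0 := by simp [e, k2, b1]
  have p2 : φ (Y l') = 0 := by simp [e, k3, b2]
  have p3 : φ (Y c) = 0 := by simp [e, c2.ne']
  have p4 : ∀ x ∈ D.Vs D.m, ν (Y x) = 0 → φ (Y x) = θ (Y x) := fun x _ g => by simp [e, g]
  have hφ : Valid (D.Vs D.m) Y φ := h.tp.vx.valid ge.1 p1 fun x hx => by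
    rcases (h.tp.nu x hx.2.1).eq_or_lt with g | g
    · rw [p4 x hx.2.1 g.symm]; exact k1 x hx.2.1
    · rw [h.tp.up_unique b1 hx c1 g c2, p3]
  have h3 : Three (D.Vs D.m) Y φ := ⟨l, ge.1, l', ge.2.1, c, c1.2.1, ge.2.2.1, c1.2.2.1,
    fun g => c2.ne' (g ▸ b2), p1, p2, p3⟩
  have hZ : ∀ x, D.InV D.m x → φ (Y x) = 0 → x.2 ≠ nd → x = l ∨ x = l' := by
    intro x hx g1 g2
    by_contra g3
    push Not at g3
    rw [p4 x (D.mem_Vs.2 hx) ((h.base hx).2 g2)] at g1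
    exact (k4 x (D.mem_Vs.2 hx) g3.1 g3.2).ne' g1
  refine ⟨φ, hφ, span ℝ ({Y l, Y l', Y c} : Finset E),
    (finrank_span_finset_le_card _).trans Finset.card_le_three, fun x hx g1 => ?_, fun z hz g1 => ?_⟩
  · refine (h.tp.vx.tangent_face ge.1 (D.mem_Vs.2 hx) hφ p1 g1).mem_sup (span_mono (by simp)) ?_
    rintro _ ⟨x', ⟨g2, g3⟩, rfl⟩
    rcases (h.tp.nu x' g2.2.1).eq_or_lt with g4 | g4
    · rcases hZ x' (D.mem_Vs.1 g2.2.1) g3 ((h.base (D.mem_Vs.1 g2.2.1)).1 g4.symm) with rfl | rfl <;>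
        exact subset_span (by simp)
    · rw [h.tp.up_unique b1 g2 c1 g4 c2]
      exact subset_span (by simp)
  · have q1 := h.through hφ h3 hZ hl hl' p1 h2 p2 h2' hz g1
    exact ⟨q1.1, q1.2, (h.through hφ h3 (fun x a b c => (hZ x a b c).symm) hl' hl p2 h2' p1 h2 hz
      g1.symm).2⟩

end Glob

theorem mem_span_of_rank {U : Submodule ℝ E} (hU : Module.finrank ℝ U ≤ 3) {a b c d : E}
    (ha : a ∈ U) (hb : b ∈ U) (hc : c ∈ U) (hd : d ∈ U) (h1 : a ≠ 0) (h2 : b ∉ span ℝ {a})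
    (h3 : c ∉ span ℝ {a, b}) : d ∈ span ℝ {a, b, c} := by
  have e1 := finrank_span_singleton (K := ℝ) h1
  have e2 := finrank_sup_span_singleton h2
  have e3 := finrank_sup_span_singleton h3
  rw [← span_union, Set.singleton_union] at e2
  rw [← span_union, Set.union_singleton, Set.insert_comm, Set.pair_comm c] at e3
  have e4 : span ℝ {a, b, c} ≤ U := span_le.2 (by
    rintro _ (rfl | rfl | rfl) <;> assumption)
  rwa [eq_of_le_of_finrank_le e4 (by omega)]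

end Pool.Agent.MP_26cd3b_lc.H27
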