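import Pool.Agent.MP_26cd3b_lc.H27.Inst
import Pool.Agent.MP_26cd3b_lc.H27.TreeSound

set_option autoImplicit false

namespace Pool.Agent.MP_26cd3b_lc.H27

theorem TD.G_same {D : TD} {v : ℕ} {a b : Lb} (ha : D.InV D.m (v, a)) (hb : D.InV D.m (v, b))
    (g : D.adj v a b) : D.G D.m (v, a) (v, b) := by
  obtain ⟨x, x', h1, h2, h3, h4, h5⟩ := TD.strand D.m le_rfl v ha.1 a b g
  rwa [TD.eq_of_dir le_rfl h1 ha h4, TD.eq_of_dir le_rfl h2 hb h5] at h3

theorem TD.nbr_cases {D : TD} {v : ℕ} {a : Lb} {x : Vt} (ha : D.InV D.m (v, a))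
    (hx : D.InV D.m x) (g : D.G D.m (v, a) x) : x.1 = v ∨
      (0 < v ∧ D.dir (D.par v) x = D.mt v a) ∨ ∃ c < D.m, 0 < c ∧ D.par c = v ∧
        D.dir v x = D.dn c ∧ D.adj c up (D.dir c x) ∧ D.mt c (D.dir c x) = a := by
  obtain ⟨w, b⟩ := x
  by_cases e : w = v
  · exact Or.inl e
  right
  rcases TD.dir_cases w b hx.1 e hx.2.2.1 with k | ⟨c, g1, g2, g3, g4, g5⟩
  · have := (g.2 v ha.1).2.2 k.1 k.2 (by rw [D.dir_self]; exact ha.2.2.1 k.1)
    rw [D.dir_self] at this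
    exact Or.inl ⟨k.1, this⟩
  · have hc : c < D.m := lt_of_le_of_lt g1 hx.1
    have e1 : D.dir c (v, a) = up := D.dir_gt _ _ _ (g3 ▸ D.par_lt c g2 hc)
    have e2 := (g.2 c hc).1.2 g2 e1 g5
    have e3 := g.adj hc (e1 ▸ g5.symm)
    rw [g3, D.dir_self] at e2
    exact Or.inr ⟨c, hc, g2, g3, g4, e1 ▸ e3, e2.symm⟩

variable {r n : ℕ} {qs : List Quad} (h : WF n qs)

theorem inst_lev {v l : ℕ} (hv : v < 4 * qs.length + 1) (hl : l < cN n qs.length v) :
    (inst r n qs h).InV (inst r n qs h).m (v, (2, l)) :=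
  ⟨hv, mem_cLab.2 (Or.inr (Or.inl ⟨rfl, hl⟩)), fun _ => by simp [up], fun w _ _ _ e => by
    obtain ⟨i, -, -, e', -⟩ := cDn_eq qs.length w
    simpa using e'.symm.trans e⟩

theorem two_le_cN (n K v : ℕ) : 2 ≤ cN n K v := by unfold cN; split_ifs <;> omega

theorem exists_lev {v : ℕ} {a : Lb} (ha : a ∈ cLab r n qs.length v) :
    ∃ l < cN n qs.length v, cAdj r n qs v a (2, l) := by
  obtain ⟨p, q⟩ := a
  have := two_le_cN n qs.length v
  rcases mem_cLab.1 ha with ⟨e, g⟩ | ⟨e, g⟩ | ⟨e, g⟩ <;> obtain rfl : p = _ := e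
  · refine ⟨0, by omega, cAdj_cl.2 ⟨g, by omega, ?_⟩⟩
    simp only [cEs, esG] at g ⊢
    split_ifs <;> simp
    omega
  · obtain ⟨l, l1, l2⟩ : ∃ l < cN n qs.length v, q + 1 = l ∨ l + 1 = q := by
      rcases q with _ | q
      · exact ⟨1, by omega, by omega⟩
      · exact ⟨q, by simp only at g; omega, by omega⟩
    refine ⟨l, l1, ha, by simp [mem_cLab, l1], by simp; omega, by simp, by simp, fun _ _ => ?_⟩
    simp only
    tauto
  · exact ⟨0, by omega, cAdj_apex ha (by simp [mem_cLab]; omega) (by simp) (Or.inl rfl)⟩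

variable {E : Type} [AddCommGroup E] [Module ℝ E] [FiniteDimensional ℝ E] {Y : Vt → E}
  {ν : E →ₗ[ℝ] ℝ}

theorem base_id (hT : Tp ((inst r n qs h).Vs (inst r n qs h).m) Y ν)
    (hed : ∀ x x', (inst r n qs h).InV (inst r n qs h).m x →
      (inst r n qs h).InV (inst r n qs h).m x' → ((inst r n qs h).G (inst r n qs h).m x x' ↔
        Ed ((inst r n qs h).Vs (inst r n qs h).m) Y x x')) :
    ∃ j ≤ r, Glob (inst r n qs h) (1, j) Y ν := by
  set D := inst r n qs h with hD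
  have same : ∀ {v a b}, D.InV D.m (v, a) → D.InV D.m (v, b) → D.adj v a b →
      Ed (D.Vs D.m) Y (v, a) (v, b) := fun ha hb g => (hed _ _ ha hb).1 (TD.G_same ha hb g)
  have ap := inst_apex h (Nat.zero_le r)
  have A0 : ∀ v a, D.InV D.m (v, a) → a ≠ (1, 0) → 0 < ν (Y (v, a)) → 0 < ν (Y (v, (1, 0))) →
      False := by
    intro v a ha e g1 g2
    obtain ⟨l, l1, l2⟩ := exists_lev ha.2.1
    have hl := inst_lev (r := r) h ha.1 l1
    exact hT.no_tri (same (ap.mem ha.1) ha (ap.adj v ha.1 a ha.2.1 e))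
      (same (ap.mem ha.1) hl (ap.adj v ha.1 _ hl.2.1 (by simp))) (same ha hl l2) g2 g1
  have A : ∀ x x' : Vt, D.InV D.m x → D.InV D.m x' → 0 < ν (Y x) → 0 < ν (Y x') → x.1 = x'.1 →
      x = x' := by
    rintro ⟨v, a⟩ ⟨w, b⟩ ha hb g1 g2 e
    obtain rfl : v = w := e
    rcases (hT.nu _ (D.mem_Vs.2 (ap.mem ha.1))).eq_or_lt with e | e
    · exact hT.up_unique e.symm
        (same (ap.mem ha.1) ha (ap.adj v ha.1 a ha.2.1 (by rintro rfl; exact g1.ne e)))
        (same (ap.mem ha.1) hb (ap.adj v ha.1 b hb.2.1 (by rintro rfl; exact g2.ne e))) g1 g2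
    · rw [by_contra fun e' => A0 v a ha e' g1 e, by_contra fun e' => A0 v b hb e' g2 e]
  have hK : 0 < qs.length := List.length_pos_iff.2 h.1
  obtain ⟨q1, q2, q3, q4, q5⟩ := h.2 _ (qd_mem hK)
  have cn : ∀ v ≤ 2, cN n qs.length v = n + 2 := fun v hv => if_pos (by omega)
  obtain ⟨j, hj, B⟩ : ∃ j ≤ r, 0 < ν (Y (1, (1, j))) := by
    by_contra hcon
    push Not at hcon
    have key : ∀ l, 0 < l → l ≤ 10 → ∃ x, D.InV D.m x ∧ 0 < ν (Y x) ∧ x.1 ≤ 2 ∧
        l ≤ x.2.2 + 1 ∧ x.2.2 ≤ l + 1 := by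
      intro l l1 l2
      have lev : ∀ v ≤ 2, D.InV D.m (v, (2, l)) := fun v hv =>
        inst_lev h (by omega) (by rw [cn v hv]; omega)
      rcases (hT.nu _ (D.mem_Vs.2 (lev 1 (by omega)))).eq_or_lt with e | e
      swap
      · exact ⟨_, lev 1 (by omega), e, by simp, by simp, by simp⟩
      obtain ⟨x, x1, x2⟩ := up_exists hT.vx hT.hn (D.mem_Vs.2 (lev 1 (by omega))) e.symm
      have hx := D.mem_Vs.1 x1.2.1
      have g := (hed _ _ (lev 1 (by omega)) hx).2 x1
      have ad : cAdj r n qs 1 (D.dir 1 x) (2, l) :=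
        cAdj_symm (g.adj_left le_rfl hx (lev 1 (by omega)))
      have n2 : D.dir 1 x ≠ (0, 2) := fun e => by
        rw [e, cAdj_cl, cEs, if_pos (by omega), inS, inS] at ad
        simp only [show (1 + 1) / 2 - 1 = 0 from rfl] at ad
        omega
      refine ⟨x, hx, x2, ?_⟩
      rcases TD.nbr_cases (lev 1 (by omega)) hx g with k | ⟨-, k⟩ | ⟨c, c1, c2, c3, c4, c5, c6⟩
      · obtain ⟨v, p, q⟩ := x
        obtain rfl : v = 1 := k
        rw [D.dir_self] at ad n2
        rcases mem_cLab.1 ad.1 with ⟨e, g⟩ | ⟨e, g⟩ | ⟨e, g⟩ <;> obtain rfl : p = _ := e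
        · have e1 : q ≠ 0 := by rintro rfl; exact hx.2.2.1 one_pos rfl
          have e2 : q ≠ 1 := by
            rintro rfl
            exact hx.2.2.2 2 (show 2 < 4 * qs.length + 1 by omega) two_pos
              (if_pos (by omega)) (if_pos (by omega))
          simp only [ne_eq, Prod.mk.injEq, true_and] at g n2
          omega
        · have := ad.2.2.2.2.2 rfl rfl
          simp only [cCh] at this ⊢
          omega
        · exact absurd x2 (hcon q g).not_gt
      · have e1 : D.par 1 = 0 := if_pos (by omega)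
        have e2 : D.mt 1 (2, l) = (2, l) := cMt_level.trans (by rw [if_neg (by omega)])
        rw [e1, e2] at k
        rw [TD.eq_of_dir le_rfl hx (lev 0 (by omega)) k]
        simp
      · obtain rfl : c = 2 := by
          have e1 : cPar qs.length c = 1 := c3
          have e2 : cDn qs.length c ≠ (0, 2) := fun e => n2 (c4.trans e)
          unfold cPar at e1
          unfold cDn at e2
          split_ifs at e1 e2 <;> omega
        have k : D.dir 2 x = (2, l) := by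
          have c6' : cMt n qs 2 (D.dir 2 x) = (2, l) := c6
          unfold cMt at c6'
          split_ifs at c6' with e1 e2
          · simp [up] at c6'
          · omega
          · exact c6'
        rw [TD.eq_of_dir le_rfl hx (lev 2 (by omega)) k]
        simp
    obtain ⟨a, a1, a2, a3, a4, a5⟩ := key 1 (by omega) (by omega)
    obtain ⟨b, b1, b2, b3, b4, b5⟩ := key 4 (by omega) (by omega)
    obtain ⟨c, c1, c2, c3, c4, c5⟩ := key 7 (by omega) (by omega)
    obtain ⟨d, d1, d2, d3, d4, d5⟩ := key 10 (by omega) (by omega)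
    have e1 : a.1 ≠ b.1 := fun e => by have := A _ _ a1 b1 a2 b2 e; subst this; omega
    have e2 : a.1 ≠ c.1 := fun e => by have := A _ _ a1 c1 a2 c2 e; subst this; omega
    have e3 : a.1 ≠ d.1 := fun e => by have := A _ _ a1 d1 a2 d2 e; subst this; omega
    have e4 : b.1 ≠ c.1 := fun e => by have := A _ _ b1 c1 b2 c2 e; subst this; omega
    have e5 : b.1 ≠ d.1 := fun e => by have := A _ _ b1 d1 b2 d2 e; subst this; omega
    have e6 : c.1 ≠ d.1 := fun e => by have := A _ _ c1 d1 c2 d2 e; subst this; omega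
    omega
  have aj := inst_apex h hj
  have C := hT.connected (D.mem_Vs.2 (aj.mem (show 1 < 4 * qs.length + 1 by omega))) B
    (P := fun x => x.2 = (1, j)) rfl (by
      rintro ⟨v, a⟩ x g g1 g2 rfl
      have i1 := D.mem_Vs.1 g.1
      have i2 := D.mem_Vs.1 g.2.1
      rcases aj.nbr i1.1 i2 ((hed _ _ i1 i2).2 g) with k | ⟨-, -, k⟩ | ⟨c, -, -, -, -, k⟩
      · rw [A _ _ i2 i1 g2 g1 k]
      · rw [k]
      · rw [k])
  refine ⟨j, hj, aj, hT, hed, fun x hx => ⟨C x (D.mem_Vs.2 hx), fun e => ?_⟩⟩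
  have hl : D.InV D.m (x.1, (2, 0)) := inst_lev h hx.1 (by have := two_le_cN n qs.length x.1; omega)
  obtain ⟨⟨w, b⟩, z1, z2⟩ := up_exists hT.vx hT.hn (D.mem_Vs.2 hl) (le_antisymm
    (not_lt.1 fun g => by simpa using C _ (D.mem_Vs.2 hl) g) (hT.nu _ (D.mem_Vs.2 hl)))
  obtain rfl : b = (1, j) := C _ z1.2.1 z2
  have i1 := D.mem_Vs.1 z1.2.1
  rcases aj.nbr i1.1 hl ((hed _ _ i1 hl).2 z1.symm) with k | ⟨-, -, k⟩ | ⟨c, -, -, -, -, k⟩
  · obtain rfl : x.1 = w := k
    rwa [← e] at z2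
  · simp at k
  · simp at k

end Pool.Agent.MP_26cd3b_lc.H27
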