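import Pool.Agent.MP_26cd3b_lc.H27.Glue
import Pool.Agent.MP_26cd3b_lc.H27.Tree

set_option autoImplicit false

namespace Pool.Agent.MP_26cd3b_lc.H27

/-- the labels of a cell without apexes: three corners and `N` level points -/
def lab0 (N : ℕ) : Finset Lb :=
  (Finset.range 3).image (fun j => (0, j)) ∪ (Finset.range N).image fun i => (2, i)

theorem mem_lab0 {N : ℕ} {a : Lb} :
    a ∈ lab0 N ↔ (a.1 = 0 ∧ a.2 < 3) ∨ (a.1 = 2 ∧ a.2 < N) := by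
  obtain ⟨p, q⟩ := a
  simp only [lab0, Finset.mem_union, Finset.mem_image, Finset.mem_range, Prod.mk.injEq]
  constructor
  · rintro (⟨j, h, rfl, rfl⟩ | ⟨j, h, rfl, rfl⟩)
    · exact Or.inl ⟨rfl, h⟩
    · exact Or.inr ⟨rfl, h⟩
  · rintro (⟨rfl, h⟩ | ⟨rfl, h⟩)
    · exact Or.inl ⟨q, h, rfl, rfl⟩
    · exact Or.inr ⟨q, h, rfl, rfl⟩

/-- adjacency in a cell, from the corner-level relation `es` and the extra chords `ch` -/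
def adj0 (N : ℕ) (es : ℕ → ℕ → Prop) (ch : ℕ → ℕ → Prop) (a b : Lb) : Prop :=
  a ∈ lab0 N ∧ b ∈ lab0 N ∧ a ≠ b ∧ (a.1 = 0 → b.1 = 2 → es a.2 b.2) ∧
    (a.1 = 2 → b.1 = 0 → es b.2 a.2) ∧
    (a.1 = 2 → b.1 = 2 → a.2 + 1 = b.2 ∨ b.2 + 1 = a.2 ∨ ch a.2 b.2 ∨ ch b.2 a.2)

def esG (j i : ℕ) : Prop :=
  j = 0 ∨ (j = 1 ∧ (i = 0 ∨ i = 1 ∨ i = 5)) ∨ (j = 2 ∧ (i = 0 ∨ i = 2 ∨ i = 4 ∨ i = 5))

def chA (i l : ℕ) : Prop := (i = 1 ∧ l = 3) ∨ (i = 3 ∧ l = 5)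

def chG (i l : ℕ) : Prop := chA i l ∨ (i = 0 ∧ l = 4)

/-- the corners are the last three unit vectors -/
def Corners (y : Lb → Fin 5 → ℝ) : Prop :=
  y (0, 0) = ![0, 0, 1, 0, 0] ∧ y (0, 1) = ![0, 0, 0, 1, 0] ∧ y (0, 2) = ![0, 0, 0, 0, 1]

def pX (n l : ℕ) : ℝ := if l ≤ n then 1 else 0

def pY (n : ℕ) (t : ℕ → ℝ) (l : ℕ) : ℝ := if l ≤ n then t l else 1

open Classical in
/-- the convex function with breakpoints at the levels of `S` -/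
noncomputable def fS (n : ℕ) (t : ℕ → ℝ) (S : ℕ → Prop) (l : ℕ) : ℝ :=
  ∑ i ∈ (Finset.Icc 1 n).filter S, max (pY n t l - t i * pX n l) 0

end Pool.Agent.MP_26cd3b_lc.H27
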