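import Mathlib

set_option autoImplicit false

namespace Pool.Agent.MP_26cd3b_lc.H27

open Submodule

variable {E : Type} [AddCommGroup E] [Module ℝ E] {ι : Type}

/-- nonnegative on the configuration -/
def Valid (s : Finset ι) (y : ι → E) (φ : E →ₗ[ℝ] ℝ) : Prop := ∀ a ∈ s, 0 ≤ φ (y a)

/-- `S` is the zero set of a functional that is nonnegative on the configuration -/
def Face (s : Finset ι) (y : ι → E) (S : Set ι) : Prop :=
  ∃ φ : E →ₗ[ℝ] ℝ, ∀ a ∈ s, 0 ≤ φ (y a) ∧ (φ (y a) = 0 ↔ a ∈ S)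

/-- the cone generated by `A` and the subspace `U` -/
inductive Cn (U : Submodule ℝ E) (A : Set E) : E → Prop
  | base {u : E} : u ∈ U → Cn U A u
  | add {c : ℝ} {a w : E} : 0 ≤ c → a ∈ A → Cn U A w → Cn U A (c • a + w)

namespace Cn

variable {U U' : Submodule ℝ E} {A A' : Set E} {v w : E}

theorem zero : Cn U A 0 := base U.zero_mem

theorem of_mem {a : E} (h : a ∈ A) : Cn U A a := by
  simpa using add zero_le_one h (zero (U := U))

theorem add' (h : Cn U A v) (h' : Cn U A w) : Cn U A (v + w) := by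
  induction h with
  | base hu =>
    induction h' with
    | base hu' => exact base (U.add_mem hu hu')
    | add hc ha _ ih => rw [add_left_comm]; exact add hc ha ih
  | add hc ha _ ih => rw [add_assoc]; exact add hc ha ih

theorem smul {t : ℝ} (ht : 0 ≤ t) (h : Cn U A v) : Cn U A (t • v) := by
  induction h with
  | base hu => exact base (U.smul_mem _ hu)
  | add hc ha _ ih => rw [smul_add, smul_smul]; exact add (mul_nonneg ht hc) ha ih

theorem trans (h : Cn U A v) (hU : ∀ u ∈ U, Cn U' A' u) (hA : ∀ a ∈ A, Cn U' A' a) :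
    Cn U' A' v := by
  induction h with
  | base hu => exact hU _ hu
  | add hc ha _ ih => exact ((hA _ ha).smul hc).add' ih

theorem mono (h : Cn U A v) (hA : A ⊆ A') : Cn U A' v :=
  h.trans (fun _ hu => base hu) fun _ ha => of_mem (hA ha)

theorem sum {s : Finset ι} {f : ι → E} (h : ∀ a ∈ s, Cn U A (f a)) : Cn U A (∑ a ∈ s, f a) :=
  Finset.sum_induction f (Cn U A) (fun _ _ => add') zero h

theorem nonneg (h : Cn U A v) {φ : E →ₗ[ℝ] ℝ} (hU : ∀ u ∈ U, φ u = 0) (hA : ∀ a ∈ A, 0 ≤ φ a) :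
    0 ≤ φ v := by
  induction h with
  | base hu => exact (hU _ hu).ge
  | add hc ha _ ih => simp only [map_add, map_smul, smul_eq_mul]; have := hA _ ha; positivity

theorem restrict (h : Cn U A v) {φ : E →ₗ[ℝ] ℝ} (hU : ∀ u ∈ U, φ u = 0) (hA : ∀ a ∈ A, 0 ≤ φ a)
    (h0 : φ v = 0) : Cn U {a ∈ A | φ a = 0} v := by
  induction h with
  | base hu => exact base hu
  | @add c a w hc ha hw ih =>
    simp only [map_add, map_smul, smul_eq_mul] at h0
    have h1 := hw.nonneg hU hA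
    have h2 := mul_nonneg hc (hA _ ha)
    have h3 := ih (by linarith)
    rcases mul_eq_zero.1 (show c * φ a = 0 by linarith) with h4 | h4
    · simpa [h4] using h3
    · exact add hc ⟨ha, h4⟩ h3

theorem mem_sup (h : Cn U A v) {W : Submodule ℝ E} (hU : U ≤ W) (hA : ∀ a ∈ A, a ∈ W) :
    v ∈ W := by
  induction h with
  | base hu => exact hU hu
  | add hc ha _ ih => exact W.add_mem (W.smul_mem _ (hA _ ha)) ih

theorem of_empty (h : Cn U ∅ v) : v ∈ U := h.mem_sup le_rfl (by simp)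

theorem of_insert {a : E} (h : Cn U (insert a A) v) :
    ∃ c : ℝ, 0 ≤ c ∧ ∃ w, Cn U A w ∧ v = c • a + w := by
  induction h with
  | base hu => exact ⟨0, le_rfl, _, base hu, by simp⟩
  | @add c b w hc hb _ ih =>
    obtain ⟨d, hd, w', h1, rfl⟩ := ih
    rcases hb with rfl | hb
    · exact ⟨c + d, add_nonneg hc hd, w', h1, by rw [add_smul, add_assoc]⟩
    · exact ⟨d, hd, _, add hc hb h1, by rw [add_left_comm]⟩

theorem split (h : Cn U A v) : ∃ u ∈ U, ∃ w, Cn ⊥ A w ∧ v = u + w := by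
  induction h with
  | base hu => exact ⟨_, hu, 0, zero, by simp⟩
  | add hc ha _ ih =>
    obtain ⟨u, hu, w, h1, rfl⟩ := ih
    exact ⟨u, hu, _, add hc ha h1, by rw [add_left_comm]⟩

theorem map {F : Type} [AddCommGroup F] [Module ℝ F] (T : E →ₗ[ℝ] F) (h : Cn U A v) :
    Cn (U.map T) (T '' A) (T v) := by
  induction h with
  | base hu => exact base (mem_map_of_mem hu)
  | add hc ha _ ih => rw [map_add, map_smul]; exact add hc (Set.mem_image_of_mem _ ha) ih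

/-- a vector of the cone on which a functional positive on the generators vanishes -/
theorem eq_base (h : Cn U A v) {φ : E →ₗ[ℝ] ℝ} (hU : ∀ u ∈ U, φ u = 0) (hA : ∀ a ∈ A, 0 < φ a)
    (h0 : φ v = 0) : v ∈ U :=
  ((h.restrict hU (fun a ha => (hA a ha).le) h0).mono (A' := ∅)
    fun a ha => (hA a ha.1).ne' ha.2).of_empty

end Cn

variable {s : Finset ι} {y : ι → E} {S T : Set ι}

theorem Face.congr (h : Face s y S) (e : ∀ a ∈ s, a ∈ S ↔ a ∈ T) : Face s y T :=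
  let ⟨φ, h⟩ := h
  ⟨φ, fun a ha => ⟨(h a ha).1, (h a ha).2.trans (e a ha)⟩⟩

theorem Face.inter (h : Face s y S) (h' : Face s y T) : Face s y (S ∩ T) := by
  obtain ⟨φ, h⟩ := h
  obtain ⟨ψ, h'⟩ := h'
  refine ⟨φ + ψ, fun a ha => ?_⟩
  obtain ⟨h1, h2⟩ := h a ha
  obtain ⟨h3, h4⟩ := h' a ha
  rw [LinearMap.add_apply, Set.mem_inter_iff, ← h2, ← h4]
  exact ⟨add_nonneg h1 h3, add_eq_zero_iff_of_nonneg h1 h3⟩

theorem Face.univ : Face s y Set.univ := ⟨0, by simp⟩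

theorem Valid.face {φ : E →ₗ[ℝ] ℝ} (h : Valid s y φ) : Face s y {a | φ (y a) = 0} :=
  ⟨φ, fun a ha => ⟨h a ha, Iff.rfl⟩⟩

theorem exists_big (s : Finset ι) (f g : ι → ℝ) :
    ∃ M : ℝ, 0 < M ∧ ∀ M' ≥ M, ∀ a ∈ s, 0 < g a → 0 < f a + M' * g a := by
  refine ⟨∑ a ∈ s, |f a / g a| + 1, by positivity, fun M' hM a ha hg => ?_⟩
  have h1 := Finset.single_le_sum (f := fun a => |f a / g a|) (fun _ _ => abs_nonneg _) ha
  have h2 := neg_abs_le (f a / g a)
  have h3 : f a = f a / g a * g a := by field_simp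
  rw [h3]
  nlinarith

theorem Face.sub (h : Face s y S) (η : E →ₗ[ℝ] ℝ) (hη : ∀ a ∈ s, a ∈ S → 0 ≤ η (y a)) :
    Face s y {a ∈ S | η (y a) = 0} := by
  obtain ⟨φ, h⟩ := h
  obtain ⟨M, hM, h1⟩ := exists_big s (fun a => η (y a)) fun a => φ (y a)
  refine ⟨η + M • φ, fun a ha => ?_⟩
  simp only [LinearMap.add_apply, LinearMap.smul_apply, smul_eq_mul, Set.mem_ofPred_eq]
  by_cases hS : a ∈ S
  · simp [(h a ha).2.2 hS, hη a ha hS, hS]
  · have := h1 M le_rfl a ha (lt_of_le_of_ne (h a ha).1 fun e => hS ((h a ha).2.1 e.symm))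
    simp [this.le, this.ne', hS]

theorem Face.pos {φ : E →ₗ[ℝ] ℝ} (h : ∀ a ∈ s, 0 ≤ φ (y a) ∧ (φ (y a) = 0 ↔ a ∈ S)) {a : ι}
    (ha : a ∈ s) (hS : a ∉ S) : 0 < φ (y a) :=
  lt_of_le_of_ne (h a ha).1 fun e => hS ((h a ha).2.1 e.symm)

/-- Gordan's alternative -/
theorem face_or_rel [FiniteDimensional ℝ E] (s : Finset ι) (y : ι → E) (S : Set ι) (t : Finset ι)
    (ht : ∀ a, a ∈ t ↔ a ∈ s ∧ a ∉ S) :
    Face s y S ∨ ∃ c : ι → ℝ, (∀ a, 0 ≤ c a) ∧ ∑ a ∈ t, c a = 1 ∧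
      ∑ a ∈ t, c a • y a ∈ span ℝ (y '' (s ∩ S)) := by
  classical
  let e : E ≃ₗ[ℝ] (Fin (Module.finrank ℝ E) → ℝ) := (Module.finBasis ℝ E).equivFun
  let U := (span ℝ (y '' (s ∩ S))).map e.toLinearMap
  let C := convexHull ℝ ((e ∘ y) '' t)
  by_cases hd : Disjoint C U
  · left
    obtain ⟨f, u, v, h1, h2, h3⟩ := geometric_hahn_banach_compact_closed (convex_convexHull _ _)
      ((t.finite_toSet.image _).isCompact_convexHull ℝ) U.convex
      U.closed_of_finiteDimensional hd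
    have h4 : ∀ b ∈ U, f b = 0 := by
      intro b hb
      by_contra hne
      have := h3 _ (U.smul_mem ((v - 1) / f b) hb)
      rw [map_smul, smul_eq_mul, div_mul_cancel₀ _ hne] at this
      linarith
    have h5 := h3 0 U.zero_mem
    rw [map_zero] at h5
    refine ⟨-(f.toLinearMap ∘ₗ e.toLinearMap), fun a ha => ?_⟩
    by_cases hS : a ∈ S
    · have := h4 (e (y a)) (mem_map_of_mem (subset_span ⟨a, ⟨ha, hS⟩, rfl⟩))
      simp [this, hS]
    · have := h1 (e (y a)) (subset_convexHull _ _ ⟨a, by simp [ht, ha, hS], rfl⟩)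
      have h6 : f (e (y a)) < 0 := by linarith
      simp [h6.le, h6.ne, hS]
  · right
    obtain ⟨x, hx, hU⟩ := Set.not_disjoint_iff.1 hd
    have hC : convexHull ℝ ((e ∘ y) '' t) ⊆ {x | ∃ c : ι → ℝ, (∀ a, 0 ≤ c a) ∧
        ∑ a ∈ t, c a = 1 ∧ ∑ a ∈ t, c a • e (y a) = x} := by
      refine convexHull_min ?_ ?_
      · rintro _ ⟨a, ha, rfl⟩
        refine ⟨fun b => if b = a then 1 else 0, fun b => by positivity, ?_, ?_⟩
        · rw [Finset.sum_ite_eq', if_pos (Finset.mem_coe.1 ha)]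
        · simp only [ite_smul, one_smul, zero_smul]
          rw [Finset.sum_ite_eq', if_pos (Finset.mem_coe.1 ha)]; rfl
      · rintro _ ⟨c, h1, h2, rfl⟩ _ ⟨d, h3, h4, rfl⟩ p q hp hq hpq
        refine ⟨fun a => p * c a + q * d a, fun a => by have := h1 a; have := h3 a; positivity,
          ?_, ?_⟩
        · rw [Finset.sum_add_distrib, ← Finset.mul_sum, ← Finset.mul_sum, h2, h4]; linarith
        · simp only [add_smul, mul_smul, Finset.sum_add_distrib, Finset.smul_sum]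
    obtain ⟨c, h1, h2, rfl⟩ := hC hx
    refine ⟨c, h1, h2, ?_⟩
    obtain ⟨z, hz, hz2⟩ := mem_map.1 hU
    have : z = ∑ a ∈ t, c a • y a := by
      apply e.injective
      rw [map_sum]
      simpa using hz2
    rwa [← this]

/-- `a` spans, with the face of `θ`, a face of one more dimension -/
def Ext (s : Finset ι) (y : ι → E) (θ : E →ₗ[ℝ] ℝ) (a : ι) : Prop :=
  a ∈ s ∧ θ (y a) ≠ 0 ∧ ∃ φ : E →ₗ[ℝ] ℝ, Valid s y φ ∧ (∀ c ∈ s, θ (y c) = 0 → φ (y c) = 0) ∧
    φ (y a) = 0 ∧ ∀ c ∈ s, φ (y c) = 0 →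
      y c ∈ span ℝ (insert (y a) (y '' {c | c ∈ s ∧ θ (y c) = 0}))

theorem tangent [FiniteDimensional ℝ E] {θ : E →ₗ[ℝ] ℝ} (hθ : Valid s y θ) :
    ∀ b ∈ s, Cn (span ℝ (y '' {c | c ∈ s ∧ θ (y c) = 0})) (y '' {a | Ext s y θ a}) (y b) := by
  classical
  set U := span ℝ (y '' {c | c ∈ s ∧ θ (y c) = 0}) with hU
  have hUθ : ∀ φ : E →ₗ[ℝ] ℝ, (∀ c ∈ s, θ (y c) = 0 → φ (y c) = 0) → ∀ u ∈ U, φ u = 0 := by
    intro φ h u hu
    refine (span_le (p := LinearMap.ker φ)).2 ?_ hu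
    rintro _ ⟨c, hc, rfl⟩
    exact h c hc.1 hc.2
  obtain ⟨M, ⟨hM1, hM2⟩, hM3⟩ := exists_minimal_of_wellFoundedLT
    (fun M : Finset ι => (∀ a ∈ M, a ∈ s ∧ θ (y a) ≠ 0) ∧ ∀ b ∈ s, Cn U (y '' M) (y b))
    ⟨s.filter fun a => θ (y a) ≠ 0, fun a ha => Finset.mem_filter.1 ha, fun b hb => by
      by_cases h : θ (y b) = 0
      · exact .base (subset_span ⟨b, ⟨hb, h⟩, rfl⟩)
      · exact .of_mem ⟨b, by simp [hb, h], rfl⟩⟩
  refine fun b hb => (hM2 b hb).mono (Set.image_mono fun a ha => ?_)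
  have ha' : a ∈ M := ha
  refine ⟨(hM1 a ha).1, (hM1 a ha).2, ?_⟩
  rcases face_or_rel (M ∪ s.filter fun c => θ (y c) = 0) y {c | c = a ∨ θ (y c) = 0} (M.erase a)
    (by
      intro d
      simp only [Finset.mem_filter, Finset.mem_union, Set.mem_ofPred_eq, not_or, Finset.mem_erase]
      constructor
      · rintro ⟨h, h4⟩
        exact ⟨Or.inl h4, h, (hM1 d h4).2⟩
      · rintro ⟨h | h, h4, h5⟩
        · exact ⟨h4, h⟩
        · exact absurd h.2 h5) with
    ⟨φ, hφ⟩ | ⟨c, h1, h2, h3⟩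
  · have h0 : ∀ c ∈ s, θ (y c) = 0 → φ (y c) = 0 := fun c hc h =>
      (hφ c (by simp [hc, h])).2.2 (Or.inr h)
    have h1 : ∀ z ∈ y '' M, 0 ≤ φ z := by
      rintro _ ⟨c, hc, rfl⟩
      exact (hφ c (Finset.mem_union_left _ hc)).1
    refine ⟨φ, fun c hc => (hM2 c hc).nonneg (hUθ φ h0) h1, h0,
      (hφ a (Finset.mem_union_left _ ha)).2.2 (Or.inl rfl), fun c hc h => ?_⟩
    refine ((hM2 c hc).restrict (hUθ φ h0) h1 h).mem_sup (span_mono (Set.subset_insert _ _)) ?_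
    rintro _ ⟨⟨d, hd, rfl⟩, h2⟩
    rcases (hφ d (Finset.mem_union_left _ hd)).2.1 h2 with rfl | h3
    · exact subset_span (Set.mem_insert _ _)
    · exact absurd h3 (hM1 d hd).2
  · exfalso
    have h4 : ∑ d ∈ M.erase a, c d • y d ∈ span ℝ (insert (y a)
        (y '' {c | c ∈ s ∧ θ (y c) = 0})) := by
      refine span_mono ?_ h3
      rintro _ ⟨d, ⟨h5, rfl | h6⟩, rfl⟩
      · exact Set.mem_insert _ _
      · refine Set.mem_insert_of_mem _ ⟨d, ⟨?_, h6⟩, rfl⟩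
        rcases Finset.mem_union.1 h5 with h7 | h7
        · exact (hM1 d h7).1
        · exact (Finset.mem_filter.1 h7).1
    obtain ⟨t, u, hu, h5⟩ := mem_span_insert.1 h4
    have hpos : ∀ d ∈ M, 0 < θ (y d) := fun d hd =>
      lt_of_le_of_ne (hθ d (hM1 d hd).1) (hM1 d hd).2.symm
    have h6 : 0 < ∑ d ∈ M.erase a, c d * θ (y d) := by
      obtain ⟨d, hd, h7⟩ := Finset.exists_ne_zero_of_sum_ne_zero (h2.trans_ne one_ne_zero)
      exact Finset.sum_pos' (fun d hd => mul_nonneg (h1 d) (hpos d (Finset.mem_of_mem_erase hd)).le)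
        ⟨d, hd, mul_pos (lt_of_le_of_ne (h1 d) h7.symm) (hpos d (Finset.mem_of_mem_erase hd))⟩
    have h7 := congrArg θ h5
    simp only [map_sum, map_smul, smul_eq_mul, map_add, hUθ θ (fun _ _ h => h) u hu,
      add_zero] at h7
    have ht : 0 < t := (mul_pos_iff_of_pos_right (hpos a ha)).1 (h7 ▸ h6)
    have h8 : Cn U (y '' (M.erase a : Finset ι)) (y a) := by
      have : y a = t⁻¹ • (∑ d ∈ M.erase a, c d • y d + -u) := by
        rw [h5, add_neg_cancel_right, smul_smul, inv_mul_cancel₀ ht.ne', one_smul]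
      rw [this]
      exact ((Cn.sum fun d hd => (Cn.of_mem (Set.mem_image_of_mem y (Finset.mem_coe.2 hd))).smul (h1 d)).add'
        (.base (U.neg_mem hu))).smul (inv_nonneg.2 ht.le)
    have h9 := hM3 (y := M.erase a) ⟨fun d hd => hM1 d (Finset.mem_of_mem_erase hd),
      fun b hb => (hM2 b hb).trans (fun _ h => .base h) (by
        rintro _ ⟨d, hd, rfl⟩
        by_cases h : d = a
        · exact h ▸ h8
        · exact .of_mem ⟨d, by simpa using ⟨hd, h⟩, rfl⟩)⟩ (Finset.erase_subset _ _)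
    simpa using h9 ha'

end Pool.Agent.MP_26cd3b_lc.H27
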