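import Mathlib
import Pool.Agent.MP_aca74d_lc.H29.Defs

set_option autoImplicit false

namespace Pool.Agent.MP_26cd3b_lc.H27

/-- The dimension of a set of points: the dimension of its affine hull. -/
noncomputable def dim {k : ℕ} (Q : Set (Fin k → ℝ)) : ℕ := Module.finrank ℝ (vectorSpan ℝ Q)

/-- The 1-skeleton: vertices are the points that are faces, two of them are adjacent if they lie
on a common 1-dimensional face. -/
def skeleton {k : ℕ} (P : Set (Fin k → ℝ)) : SimpleGraph {x // IsExposed ℝ P {x}} where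
  Adj x y := x ≠ y ∧ ∃ Q, IsExposed ℝ P Q ∧ dim Q = 1 ∧ x.1 ∈ Q ∧ y.1 ∈ Q
  symm := ⟨fun _ _ ⟨h, Q, h1, h2, h3, h4⟩ => ⟨h.symm, Q, h1, h2, h4, h3⟩⟩
  loopless := ⟨fun _ h => h.1 rfl⟩

/-- `P` is a `k`-polytope with a facet `F` that meets every face of dimension at least two in at
least two points. -/
def IsTreetope (k : ℕ) (P F : Set (Fin k → ℝ)) : Prop :=
  (∃ s : Finset (Fin k → ℝ), P = convexHull ℝ (s : Set (Fin k → ℝ))) ∧ dim P = k ∧
    IsExposed ℝ P F ∧ dim F + 1 = k ∧ ∀ Q, IsExposed ℝ P Q → 2 ≤ dim Q → (F ∩ Q).Nontrivial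

/-- `G` is isomorphic to the 1-skeleton of a `k`-treetope. -/
def IsTreetopeGraph (k : ℕ) {V : Type} (G : SimpleGraph V) : Prop :=
  ∃ P F : Set (Fin k → ℝ), IsTreetope k P F ∧ Nonempty (G ≃g skeleton P)

/-- The graph written by a bit string, read as a row-by-row adjacency matrix of side
`n = sqrt (length)`: distinct `i`, `j` are adjacent if bit `i n + j` or bit `j n + i` is set. -/
def graphOf (x : List Bool) : SimpleGraph (Fin (Nat.sqrt x.length)) :=
  SimpleGraph.fromRel fun i j => x.getD (i.1 * Nat.sqrt x.length + j.1) false = true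

open Classical in
/-- The problem TREETOPE for a fixed dimension. -/
noncomputable def treetopeLang (k : ℕ) : N68a2faeb.DecisionProblem :=
  fun x => decide (IsTreetopeGraph k (graphOf x))

open Classical in
/-- The problem TREETOPE with the dimension, at least five, given in binary with the graph. -/
noncomputable def treetopeLangIn : N68a2faeb.DecisionProblem :=
  fun w => decide (∃ (k : ℕ) (x : List Bool), w = N487b59b3.bitEncode (k, x) ∧ 5 ≤ k ∧
    IsTreetopeGraph k (graphOf x))

end Pool.Agent.MP_26cd3b_lc.H27
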