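import Pool.Agent.MP_26cd3b_lc.H27.Real

set_option autoImplicit false

namespace Pool.Agent.MP_26cd3b_lc.H27

open Submodule

variable {E : Type} [AddCommGroup E] [Module ℝ E] {ι : Type}

theorem face_map {κ F : Type} [DecidableEq κ] [AddCommGroup F] [Module ℝ F] {s : Finset ι}
    {y : ι → E} {y' : κ → F} (f : ι → κ) (T : E ≃ₗ[ℝ] F) (h : ∀ a ∈ s, y' (f a) = T (y a))
    (S : Set κ) : Face (s.image f) y' S ↔ Face s y (f ⁻¹' S) := by
  constructor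
  · rintro ⟨φ, hφ⟩
    refine ⟨φ ∘ₗ T.toLinearMap, fun a ha => ?_⟩
    simpa [h a ha] using hφ (f a) (Finset.mem_image_of_mem _ ha)
  · rintro ⟨φ, hφ⟩
    refine ⟨φ ∘ₗ T.symm.toLinearMap, fun b hb => ?_⟩
    obtain ⟨a, ha, rfl⟩ := Finset.mem_image.1 hb
    simpa [h a ha] using hφ a ha

theorem vx_map {κ F : Type} [DecidableEq κ] [AddCommGroup F] [Module ℝ F] {s : Finset ι}
    {y : ι → E} {y' : κ → F} {f : ι → κ} (hf : Function.Injective f) (T : E ≃ₗ[ℝ] F)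
    (h : ∀ a ∈ s, y' (f a) = T (y a)) (hv : Vx s y) : Vx (s.image f) y' := by
  intro b hb
  obtain ⟨a, ha, rfl⟩ := Finset.mem_image.1 hb
  exact (face_map f T h _).2 ((hv a ha).congr fun c _ => by simp [hf.eq_iff])

theorem ed_map {κ F : Type} [DecidableEq κ] [AddCommGroup F] [Module ℝ F] {s : Finset ι}
    {y : ι → E} {y' : κ → F} {f : ι → κ} (hf : Function.Injective f) (T : E ≃ₗ[ℝ] F)
    (h : ∀ a ∈ s, y' (f a) = T (y a)) (a b : ι) :
    Ed (s.image f) y' (f a) (f b) ↔ Ed s y a b := by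
  have e : f ⁻¹' {f a, f b} = {a, b} := by ext c; simp [hf.eq_iff]
  simp only [Ed, face_map f T h, e, hf.mem_finset_image, ne_eq, hf.eq_iff]

/-- the data of a connected sum along the vertices `l` and `o` -/
structure Sep (s1 s2 s : Finset ι) (y : ι → E) (l o : ι) : Prop where
  mem : ∀ a, a ∈ s ↔ (a ∈ s1 ∧ a ≠ l) ∨ (a ∈ s2 ∧ a ≠ o)
  dis : ∀ a ∈ s1, a ∉ s2
  hl : l ∈ s1
  ho : o ∈ s2
  neg : y o = -y l
  v1 : Vx s1 y
  v2 : Vx s2 y
  h1 : ∀ b ∈ s2, b ≠ o → ∃ ε : ℝ, 0 < ε ∧ ∃ w, Cn ⊥ (y '' s1) w ∧ y b = ε • y l + w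
  h2 : ∀ a ∈ s1, a ≠ l → ∃ ε : ℝ, 0 < ε ∧ ∃ w, Cn ⊥ (y '' s2) w ∧ y a = ε • y o + w

namespace Sep

variable {s1 s2 s : Finset ι} {y : ι → E} {l o : ι}

theorem symm (h : Sep s1 s2 s y l o) : Sep s2 s1 s y o l :=
  ⟨fun a => (h.mem a).trans or_comm, fun a ha hb => h.dis a hb ha, h.ho, h.hl,
    by rw [h.neg, neg_neg], h.v2, h.v1, h.h2, h.h1⟩

theorem nonneg (h : Sep s1 s2 s y l o) {φ : E →ₗ[ℝ] ℝ} (hφ : Valid s1 y φ) {b : ι} (hb : b ∈ s2)
    (hbo : b ≠ o) : 0 ≤ φ (y b) ∧ (0 < φ (y l) → 0 < φ (y b)) := by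
  obtain ⟨ε, h1, w, h2, h3⟩ := h.h1 b hb hbo
  have h4 := h2.nonneg (φ := φ) (by simp) (by rintro _ ⟨a, ha, rfl⟩; exact hφ a ha)
  have h5 := mul_nonneg h1.le (hφ l h.hl)
  rw [h3, map_add, map_smul, smul_eq_mul]
  exact ⟨by linarith, fun g => by have := mul_pos h1 g; linarith⟩

theorem face_left (h : Sep s1 s2 s y l o) {S : Set ι} (hS : Face s1 y S) (hl : l ∉ S)
    (h1 : ∀ a ∈ S, a ∈ s1) : Face s y S := by
  obtain ⟨φ, hφ⟩ := hS
  refine ⟨φ, fun a ha => ?_⟩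
  rcases (h.mem a).1 ha with g | g
  · exact hφ a g.1
  · have := (h.nonneg (fun c hc => (hφ c hc).1) g.1 g.2).2 (Face.pos hφ h.hl hl)
    exact ⟨this.le, fun e => absurd e this.ne', fun e => absurd g.1 (h.dis a (h1 a e))⟩

theorem vx (h : Sep s1 s2 s y l o) : Vx s y := by
  intro a ha
  rcases (h.mem a).1 ha with g | g
  · exact h.face_left (h.v1 a g.1) (Ne.symm g.2) (by simpa using g.1)
  · exact h.symm.face_left (h.v2 a g.1) (Ne.symm g.2) (by simpa using g.1)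

theorem valid_left (h : Sep s1 s2 s y l o) {φ : E →ₗ[ℝ] ℝ} (hφ : Valid s y φ)
    (h0 : 0 ≤ φ (y l)) : Valid s1 y φ := fun a ha => by
  by_cases e : a = l
  · exact e ▸ h0
  · exact hφ a ((h.mem a).2 (Or.inl ⟨ha, e⟩))

/-- a zero on the left side, when the functional vanishes at the port -/
theorem zero_left (h : Sep s1 s2 s y l o) {φ : E →ₗ[ℝ] ℝ} (hφ : Valid s y φ) (h0 : φ (y l) = 0)
    {a : ι} (ha : a ∈ s1) (hal : a ≠ l) (h1 : φ (y a) = 0) :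
    Cn (span ℝ {y l}) (y '' {b | b ∈ s2 ∧ b ≠ o ∧ φ (y b) = 0}) (y a) := by
  obtain ⟨ε, g1, w, g2, g3⟩ := h.h2 a ha hal
  have h2 : φ (y o) = 0 := by rw [h.neg, map_neg, h0, neg_zero]
  have h3 := h.symm.valid_left hφ h2.ge
  have ho : y o ∈ span ℝ {y l} := by rw [h.neg]; exact neg_mem (subset_span rfl)
  have g4 := g2.restrict (φ := φ) (by simp) (by rintro _ ⟨c, hc, rfl⟩; exact h3 c hc)
    (by simpa [g3, h2] using h1)
  rw [g3]
  refine (Cn.base (smul_mem _ _ ho)).add' (g4.trans (fun u hu => ?_) ?_)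
  · rw [(mem_bot ℝ).1 hu]; exact Cn.zero
  · rintro _ ⟨⟨c, hc, rfl⟩, g5⟩
    by_cases e : c = o
    · exact .base (e ▸ ho)
    · exact .of_mem ⟨c, ⟨hc, e, g5⟩, rfl⟩

theorem ed_left (h : Sep s1 s2 s y l o) {a b : ι} (ha : a ∈ s1) (hb : b ∈ s1) (hal : a ≠ l)
    (hbl : b ≠ l) : Ed s y a b ↔ Ed s1 y a b := by
  have ha' := (h.mem a).2 (Or.inl ⟨ha, hal⟩)
  have hb' := (h.mem b).2 (Or.inl ⟨hb, hbl⟩)
  refine ⟨fun g => ⟨ha, hb, g.2.2.1, ?_⟩, fun g => ⟨ha', hb', g.2.2.1, h.face_left g.2.2.2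
    (by simp [hal.symm, hbl.symm]) (by simp [ha, hb])⟩⟩
  obtain ⟨φ, g1, g2, g3, g4⟩ := g.fn
  rcases lt_trichotomy 0 (φ (y l)) with e | e | e
  · refine (h.valid_left g1 e.le).face.congr fun c hc => ⟨fun k => ?_, ?_⟩
    · by_contra k2
      simp only [Set.mem_insert_iff, Set.mem_singleton_iff, not_or] at k2
      exact (g4 c ((h.mem c).2 (Or.inl ⟨hc, fun e' => e.ne' (e' ▸ k)⟩)) k2.1 k2.2).ne' k
    · rintro (rfl | rfl) <;> assumption
  · exfalso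
    refine h.v1.pair h.hl ha hal ((h.zero_left g1 e.symm ha hal g2).mem_sup le_rfl ?_)
    rintro _ ⟨c, ⟨k1, k2, k3⟩, rfl⟩
    exact absurd k3 (g4 c ((h.mem c).2 (Or.inr ⟨k1, k2⟩)) (fun e => h.dis a ha (e ▸ k1))
      fun e => h.dis b hb (e ▸ k1)).ne'
  · have e' : 0 < φ (y o) := by rw [h.neg, map_neg]; linarith
    exact absurd g2 ((h.symm.nonneg (h.symm.valid_left g1 e'.le) ha hal).2 e').ne'

theorem ed_mixed (h : Sep s1 s2 s y l o) {a b : ι} (ha : a ∈ s1) (hb : b ∈ s2) (hal : a ≠ l)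
    (hbo : b ≠ o) : Ed s y a b ↔ Ed s1 y l a ∧ Ed s2 y o b ∧
      ∃ c t : ℝ, 0 < c ∧ y a = c • y b + t • y l := by
  have ha' := (h.mem a).2 (Or.inl ⟨ha, hal⟩)
  have hb' := (h.mem b).2 (Or.inr ⟨hb, hbo⟩)
  have hab : a ≠ b := fun e => h.dis a ha (e ▸ hb)
  constructor
  · intro g
    obtain ⟨φ, g1, g2, g3, g4⟩ := g.fn
    have e : φ (y l) = 0 := by
      rcases lt_trichotomy 0 (φ (y l)) with e | e | e
      · exact absurd g3 ((h.nonneg (h.valid_left g1 e.le) hb hbo).2 e).ne'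
      · exact e.symm
      · have e' : 0 < φ (y o) := by rw [h.neg, map_neg]; linarith
        exact absurd g2 ((h.symm.nonneg (h.symm.valid_left g1 e'.le) ha hal).2 e').ne'
    have e' : φ (y o) = 0 := by rw [h.neg, map_neg, e, neg_zero]
    refine ⟨⟨h.hl, ha, hal.symm, (h.valid_left g1 e.ge).face.congr fun c hc => ⟨fun k => ?_, ?_⟩⟩,
      ⟨h.ho, hb, hbo.symm, (h.symm.valid_left g1 e'.ge).face.congr fun c hc => ⟨fun k => ?_, ?_⟩⟩,
      ?_⟩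
    · by_contra k2
      simp only [Set.mem_insert_iff, Set.mem_singleton_iff, not_or] at k2
      exact (g4 c ((h.mem c).2 (Or.inl ⟨hc, k2.1⟩)) k2.2 fun e => h.dis c hc (e ▸ hb)).ne' k
    · rintro (rfl | rfl) <;> assumption
    · by_contra k2
      simp only [Set.mem_insert_iff, Set.mem_singleton_iff, not_or] at k2
      exact (g4 c ((h.mem c).2 (Or.inr ⟨hc, k2.1⟩)) (fun e => h.dis a ha (e ▸ hc)) k2.2).ne' k
    · rintro (rfl | rfl) <;> assumption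
    · obtain ⟨c, k1, w, k2, k3⟩ := ((h.zero_left g1 e ha hal g2).mono (A' := insert (y b) ∅) (by
        rintro _ ⟨c, ⟨k1, k2, k3⟩, rfl⟩
        by_cases e2 : c = b
        · simp [e2]
        · exact absurd k3 (g4 c ((h.mem c).2 (Or.inr ⟨k1, k2⟩)) (fun e => h.dis a ha (e ▸ k1))
            e2).ne')).of_insert
      obtain ⟨t, rfl⟩ := mem_span_singleton.1 k2.of_empty
      refine ⟨c, t, lt_of_le_of_ne k1 fun e2 => ?_, k3⟩
      exact h.v1.pair h.hl ha hal (mem_span_singleton.2 ⟨t, by simp [k3, ← e2]⟩)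
  · rintro ⟨g1, g2, c, t, hc, g3⟩
    obtain ⟨φ, k1, k2, k3, k4⟩ := g1.fn
    obtain ⟨ψ, m1, m2, m3, m4⟩ := g2.fn
    have m5 : ψ (y l) = 0 := by simpa [h.neg] using m2
    have m6 : ψ (y a) = 0 := by simp [g3, m3, m5]
    have k5 : φ (y b) = 0 := by simpa [g3, k2, hc.ne'] using k3
    refine ⟨ha', hb', hab, φ + ψ, fun d hd => ?_⟩
    rw [LinearMap.add_apply]
    by_cases e : d ∈ ({a, b} : Set ι)
    · rcases e with rfl | rfl
      · simp [k3, m6]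
      · simp [k5, m3]
    · have : 0 < φ (y d) + ψ (y d) := by
        simp only [Set.mem_insert_iff, Set.mem_singleton_iff, not_or] at e
        rcases (h.mem d).1 hd with g | g
        · exact add_pos_of_pos_of_nonneg (k4 d g.1 g.2 e.1) (h.symm.nonneg m1 g.1 g.2).1
        · exact add_pos_of_nonneg_of_pos (h.nonneg k1 g.1 g.2).1 (m4 d g.1 g.2 e.2)
      exact ⟨this.le, fun e' => absurd e' this.ne', fun e' => absurd e' e⟩

theorem span_le (h : Sep s1 s2 s y l o) {a : ι} (ha : a ∈ s1) (hal : a ≠ l) :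
    span ℝ (y '' s1) ≤ span ℝ (y '' s) := by
  obtain ⟨ε, g1, w, g2, g3⟩ := h.h2 a ha hal
  obtain ⟨c, k1, w', k2, k3⟩ := (g2.mono (A' := insert (y o) (y '' s)) (by
    rintro _ ⟨c, hc, rfl⟩
    by_cases e : c = o
    · simp [e]
    · exact Or.inr ⟨c, (h.mem c).2 (Or.inr ⟨hc, e⟩), rfl⟩)).of_insert
  have k4 : w' ∈ span ℝ (y '' s) := k2.mem_sup bot_le fun _ h => subset_span h
  have k5 : y a ∈ span ℝ (y '' s) := subset_span ⟨a, (h.mem a).2 (Or.inl ⟨ha, hal⟩), rfl⟩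
  have k6 : y l = (ε + c)⁻¹ • (w' - y a) := by
    rw [g3, k3, h.neg, eq_inv_smul_iff₀ (by linarith)]
    module
  rw [Submodule.span_le]
  rintro _ ⟨b, hb, rfl⟩
  by_cases e : b = l
  · rw [e, k6]; exact smul_mem _ _ (sub_mem k4 k5)
  · exact subset_span ⟨b, (h.mem b).2 (Or.inl ⟨hb, e⟩), rfl⟩

end Sep

/-- a shear that makes two cones with the same quotient fit together -/
theorem exists_shear {κ : Type} {s1 : Finset ι} {s2 : Finset κ} {y : ι → E} {z : κ → E} {l : ι}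
    {o : κ} (hl : l ∈ s1) (ho : o ∈ s2) (hn : z o = -y l) (v1 : Vx s1 y) (v2 : Vx s2 z)
    (c1 : ∀ b ∈ s2, Cn (span ℝ {y l}) (y '' s1) (z b))
    (c2 : ∀ a ∈ s1, Cn (span ℝ {y l}) (z '' s2) (y a)) :
    ∃ S : E ≃ₗ[ℝ] E, (∀ x, ∃ t : ℝ, S x = x + t • y l) ∧ S (y l) = y l ∧
      (∀ b ∈ s2, b ≠ o → ∃ ε : ℝ, 0 < ε ∧ ∃ w, Cn ⊥ (y '' s1) w ∧ S (z b) = ε • y l + w) ∧
      ∀ a ∈ s1, a ≠ l → ∃ ε : ℝ, 0 < ε ∧ ∃ w, Cn ⊥ (S '' (z '' s2)) w ∧ y a = ε • -y l + w := by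
  obtain ⟨f, f1, f2, f3⟩ := v1.fn hl
  have f4 : ∀ b ∈ s2, b ≠ o → 0 < f (z b) := by
    intro b hb hbo
    have hA : ∀ v ∈ y '' s1, 0 ≤ f v := by rintro _ ⟨a, ha, rfl⟩; exact f1 a ha
    refine lt_of_le_of_ne ((c1 b hb).nonneg (span_zero1 f2) hA) fun e => v2.pair ho hb hbo ?_
    rw [hn, ← Set.neg_singleton, span_neg]
    refine ((c1 b hb).restrict (span_zero1 f2) hA e.symm).mem_sup le_rfl ?_
    rintro _ ⟨⟨a, ha, rfl⟩, g⟩
    rw [by_contra fun e => (f3 a ha e).ne' g]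
    exact subset_span rfl
  have d1 : ∀ b, ∃ t : ℝ, b ∈ s2 → ∃ w, Cn ⊥ (y '' s1) w ∧ z b = t • y l + w := by
    intro b
    by_cases hb : b ∈ s2
    · obtain ⟨u, hu, w, g⟩ := (c1 b hb).split
      obtain ⟨t, rfl⟩ := mem_span_singleton.1 hu
      exact ⟨t, fun _ => ⟨w, g⟩⟩
    · exact ⟨0, fun h => absurd h hb⟩
  have d2 : ∀ a, ∃ t : ℝ, a ∈ s1 → ∃ w, Cn ⊥ (z '' s2) w ∧ y a = t • y l + w := by
    intro b
    by_cases hb : b ∈ s1
    · obtain ⟨u, hu, w, g⟩ := (c2 b hb).split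
      obtain ⟨t, rfl⟩ := mem_span_singleton.1 hu
      exact ⟨t, fun _ => ⟨w, g⟩⟩
    · exact ⟨0, fun h => absurd h hb⟩
  choose t1 d1 using d1
  choose t2 d2 using d2
  obtain ⟨M1, -, m1⟩ := exists_big s2 t1 fun b => f (z b)
  obtain ⟨M2, -, m2⟩ := exists_big s1 (fun a => -t2 a) fun a => f (y a)
  let S := LinearEquiv.transvection (f := max M1 M2 • f) (v := y l) (by simp [f2])
  have hS : ∀ x, S x = x + (max M1 M2 * f x) • y l := fun x => by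
    simp [S, LinearMap.transvection.apply]
  refine ⟨S, fun x => ⟨_, hS x⟩, by simp [hS, f2], fun b hb hbo => ?_, fun a ha hal => ?_⟩
  · obtain ⟨w, g1, g2⟩ := d1 b hb
    refine ⟨_, m1 _ (le_max_left M1 M2) b hb (f4 b hb hbo), w, g1, ?_⟩
    rw [hS]
    nth_rw 1 [g2]
    module
  · obtain ⟨w, g1, g2⟩ := d2 a ha
    refine ⟨_, m2 _ (le_max_right M1 M2) a ha (f3 a ha hal), S w, by simpa using g1.map S.toLinearMap, ?_⟩
    have : f (y a) = f w := by simp [g2, f2]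
    rw [hS, this, g2]
    module

end Pool.Agent.MP_26cd3b_lc.H27
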