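import Pool.Agent.MP_26cd3b_lc.H27.Vertex

set_option autoImplicit false

namespace Pool.Agent.MP_26cd3b_lc.H27

open Submodule

variable {E : Type} [AddCommGroup E] [Module ℝ E] {ι : Type} {s : Finset ι} {y : ι → E}
  {ν : E →ₗ[ℝ] ℝ}

/-- the cone over a treetope, `ν` being the functional of the base -/
structure Tp (s : Finset ι) (y : ι → E) (ν : E →ₗ[ℝ] ℝ) : Prop where
  vx : Vx s y
  nu : Valid s y ν
  tp : ∀ φ, Valid s y φ → Three s y φ → ∃ a ∈ s, ∃ b ∈ s, a ≠ b ∧ φ (y a) = 0 ∧ φ (y b) = 0 ∧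
    ν (y a) = 0 ∧ ν (y b) = 0
  sp : span ℝ (y '' s) = ⊤
  hb : ∃ a ∈ s, ν (y a) = 0
  hn : ∃ a ∈ s, 0 < ν (y a)

theorem Vx.pointed (hv : Vx s y) {a b : ι} (ha : a ∈ s) (hb : b ∈ s) (hab : a ≠ b) :
    ∃ θ : E →ₗ[ℝ] ℝ, ∀ c ∈ s, 0 < θ (y c) := by
  obtain ⟨θ, h, -, h'⟩ := (((hv a ha).inter (hv b hb)).congr (T := ∅) fun c _ =>
    ⟨fun h => hab (h.1.symm.trans h.2), False.elim⟩).fn
  exact ⟨θ, fun c hc => h' c hc id⟩

theorem Tp.pointed (h : Tp s y ν) : ∃ θ : E →ₗ[ℝ] ℝ, ∀ c ∈ s, 0 < θ (y c) := by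
  obtain ⟨a, ha, h1⟩ := h.hb
  obtain ⟨b, hb, h2⟩ := h.hn
  exact h.vx.pointed ha hb fun e => h2.ne' (e ▸ h1)

variable [FiniteDimensional ℝ E]

theorem Tp.up_unique (h : Tp s y ν) {a x x' : ι} (h0 : ν (y a) = 0) (hx : Ed s y a x)
    (hx' : Ed s y a x') (h1 : 0 < ν (y x)) (h2 : 0 < ν (y x')) : x = x' := by
  by_contra hne
  obtain ⟨θ, g1, g2, g3⟩ := h.vx.fn hx.1
  obtain ⟨M, hM, g4⟩ := exists_big s (fun c => -θ (y c)) fun c => ν (y c)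
  obtain ⟨φ, k1, k2, k3⟩ := h.vx.down hx hx' hne (η := θ - M • ν) (by simp [h0, g2])
    (by have := g4 M le_rfl x hx.2.1 h1; simp; linarith)
    (by have := g4 M le_rfl x' hx'.2.1 h2; simp; linarith)
  obtain ⟨b, hb, c, hc, e, m1, m2, m3, m4⟩ := h.tp φ k1 k2
  have key : ∀ d ∈ s, φ (y d) = 0 → ν (y d) = 0 → d = a := by
    intro d hd n1 n2
    by_contra hda
    have := k3 d hd n1
    have := g3 d hd hda
    simp [n2] at *
    linarith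
  exact e ((key b hb m1 m3).trans (key c hc m2 m4).symm)

theorem up_exists (hv : Vx s y) (hn : ∃ a ∈ s, 0 < ν (y a)) {a : ι} (ha : a ∈ s)
    (h0 : ν (y a) = 0) : ∃ x, Ed s y a x ∧ 0 < ν (y x) := by
  by_contra hcon
  push Not at hcon
  obtain ⟨b, hb, h1⟩ := hn
  have := hv.valid ha (φ := -ν) (by simp [h0]) (fun x hx => by simpa using hcon x hx) b hb
  simp at this
  linarith

theorem Tp.rank (h : Tp s y ν) : ∃ ρ : ι → ℝ, ∀ a x x', 0 < ν (y a) → Ed s y a x → Ed s y a x' →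
    0 < ν (y x) → 0 < ν (y x') → ρ x ≤ ρ a → ρ x' ≤ ρ a → x = x' := by
  obtain ⟨θ, hθ⟩ := h.pointed
  refine ⟨fun a => θ (y a) / ν (y a), fun a x x' h0 hx hx' h1 h2 h3 h4 => by_contra fun hne => ?_⟩
  obtain ⟨φ, k1, k2, k3⟩ := h.vx.down hx hx' hne (η := θ - (θ (y a) / ν (y a)) • ν)
    (by simp [h0.ne']) (by simpa [div_le_iff₀ h1] using h3) (by simpa [div_le_iff₀ h2] using h4)
  obtain ⟨b, hb, c, hc, e, m1, m2, m3, m4⟩ := h.tp φ k1 k2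
  have := k3 b hb m1
  have := hθ b hb
  simp [m3] at *
  linarith

theorem Tp.no_tri (h : Tp s y ν) {a b c : ι} (hab : Ed s y a b) (hac : Ed s y a c)
    (hbc : Ed s y b c) (ha : 0 < ν (y a)) (hb : 0 < ν (y b)) : False := by
  rcases (h.nu c hac.2.1).eq_or_lt with hc | hc
  · exact hab.2.2.1 (h.up_unique hc.symm hac.symm hbc.symm ha hb)
  · obtain ⟨ρ, hρ⟩ := h.rank
    rcases le_total (ρ a) (ρ b) with e1 | e1
    · rcases le_total (ρ b) (ρ c) with e2 | e2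
      · exact hab.2.2.1 (hρ c a b hc hac.symm hbc.symm ha hb (e1.trans e2) e2)
      · exact hac.2.2.1 (hρ b a c hb hab.symm hbc ha hc e1 e2)
    · rcases le_total (ρ a) (ρ c) with e2 | e2
      · exact hab.2.2.1 (hρ c a b hc hac.symm hbc.symm ha hb e2 (e1.trans e2))
      · exact hbc.2.2.1 (hρ a b c ha hab hac hb hc e1 e2)

theorem Tp.connected (h : Tp s y ν) {r : ι} (hr : r ∈ s) (h0 : 0 < ν (y r)) {P : ι → Prop}
    (hP : P r) (hstep : ∀ a b, Ed s y a b → 0 < ν (y a) → 0 < ν (y b) → P a → P b) :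
    ∀ a ∈ s, 0 < ν (y a) → P a := by
  classical
  obtain ⟨θ, g1, g2, g3⟩ := h.vx.fn hr
  by_contra hcon
  push Not at hcon
  obtain ⟨a, ha, hmin⟩ := (s.filter fun a => 0 < ν (y a) ∧ ¬ P a).exists_min_image
    (fun a => θ (y a) / ν (y a)) (by
      obtain ⟨a, h1, h2, h3⟩ := hcon
      exact ⟨a, Finset.mem_filter.2 ⟨h1, h2, h3⟩⟩)
  obtain ⟨h1, h2, h3⟩ := Finset.mem_filter.1 ha
  have h4 := h.vx.valid h1 (φ := θ - (θ (y a) / ν (y a)) • ν) (by simp [h2.ne']) (fun x hx => by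
    simp only [LinearMap.sub_apply, LinearMap.smul_apply, smul_eq_mul, sub_nonneg]
    rcases (h.nu x hx.2.1).eq_or_lt with e | e
    · rw [← e, mul_zero]; exact g1 x hx.2.1
    · exact (le_div_iff₀ e).1 (hmin x (Finset.mem_filter.2
        ⟨hx.2.1, e, fun hPx => h3 (hstep x a hx.symm e h2 hPx)⟩))) r hr
  have h5 := mul_pos (div_pos (g3 a h1 fun e => h3 (e ▸ hP)) h2) h0
  simp only [LinearMap.sub_apply, LinearMap.smul_apply, smul_eq_mul, g2] at h4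
  linarith

theorem tp_of_cert (hv : Vx s y) (hν : Valid s y ν) (ρ : ι → ℝ)
    (h1 : ∀ a x x', ν (y a) = 0 → Ed s y a x → Ed s y a x' → 0 < ν (y x) → 0 < ν (y x') → x = x')
    (h2 : ∀ a x x', 0 < ν (y a) → Ed s y a x → Ed s y a x' → 0 < ν (y x) → 0 < ν (y x') →
      ρ x ≤ ρ a → ρ x' ≤ ρ a → x = x') (φ : E →ₗ[ℝ] ℝ) (hφ : Valid s y φ) (h3 : Three s y φ) :
    ∃ a ∈ s, ∃ b ∈ s, a ≠ b ∧ φ (y a) = 0 ∧ φ (y b) = 0 ∧ ν (y a) = 0 ∧ ν (y b) = 0 := by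
  classical
  by_cases hb : ∃ a ∈ s, φ (y a) = 0 ∧ ν (y a) = 0
  · obtain ⟨a, ha, g1, g2⟩ := hb
    obtain ⟨x, k1, k2, -⟩ := hv.two_nbrs hφ h3 ha g1 a
    obtain ⟨x', k3, k4, k5⟩ := hv.two_nbrs hφ h3 ha g1 x
    rcases (hν x k1.2.1).eq_or_lt with e | e
    · exact ⟨a, ha, x, k1.2.1, k1.2.2.1, g1, k2, g2, e.symm⟩
    rcases (hν x' k3.2.1).eq_or_lt with e' | e'
    · exact ⟨a, ha, x', k3.2.1, k3.2.2.1, g1, k4, g2, e'.symm⟩
    exact absurd (h1 a x' x g2 k3 k1 e' e) k5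
  · exfalso
    have hpos : ∀ a ∈ s, φ (y a) = 0 → 0 < ν (y a) := fun a ha g =>
      lt_of_le_of_ne (hν a ha) fun e => hb ⟨a, ha, g, e.symm⟩
    obtain ⟨a, ha, hmax⟩ := (s.filter fun a => φ (y a) = 0).exists_max_image ρ (by
      obtain ⟨a, ha, -, -, -, -, -, -, -, g, -⟩ := h3
      exact ⟨a, Finset.mem_filter.2 ⟨ha, g⟩⟩)
    obtain ⟨ha, g1⟩ := Finset.mem_filter.1 ha
    obtain ⟨x, k1, k2, -⟩ := hv.two_nbrs hφ h3 ha g1 a
    obtain ⟨x', k3, k4, k5⟩ := hv.two_nbrs hφ h3 ha g1 x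
    exact k5 (h2 a x' x (hpos a ha g1) k3 k1 (hpos x' k3.2.1 k4) (hpos x k1.2.1 k2)
      (hmax x' (Finset.mem_filter.2 ⟨k3.2.1, k4⟩)) (hmax x (Finset.mem_filter.2 ⟨k1.2.1, k2⟩)))

theorem Tp.base_rank (h : Tp s y ν) :
    Module.finrank ℝ (span ℝ (y '' {a | a ∈ s ∧ ν (y a) = 0})) + 1 = Module.finrank ℝ E := by
  obtain ⟨a, ha, h0⟩ := h.hb
  obtain ⟨x, hx, h1⟩ := up_exists h.vx h.hn ha h0
  have h2 : y x ∉ span ℝ (y '' {a | a ∈ s ∧ ν (y a) = 0}) := fun g =>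
    h1.ne' (span_zero (φ := ν) (by rintro _ ⟨c, hc, rfl⟩; exact hc.2) _ g)
  have h3 : span ℝ (y '' {a | a ∈ s ∧ ν (y a) = 0}) ⊔ span ℝ {y x} = ⊤ := by
    rw [eq_top_iff, ← h.sp, span_le]
    rintro _ ⟨b, hb, rfl⟩
    refine (h.vx.tangent ha b hb).mem_sup (le_sup_of_le_left (span_mono ?_)) ?_
    · rintro _ rfl; exact ⟨a, ⟨ha, h0⟩, rfl⟩
    · rintro _ ⟨c, hc, rfl⟩
      rcases (h.nu c hc.2.1).eq_or_lt with e | e
      · exact mem_sup_left (subset_span ⟨c, ⟨hc.2.1, e.symm⟩, rfl⟩)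
      · rw [h.up_unique h0 hc hx e h1]
        exact mem_sup_right (subset_span rfl)
  rw [← finrank_sup_span_singleton h2, h3, finrank_top]

end Pool.Agent.MP_26cd3b_lc.H27
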