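import Pool.Agent.MP_26cd3b_lc.H27.Glue
import Pool.Agent.MP_26cd3b_lc.H27.Tree

set_option autoImplicit false

namespace Pool.Agent.MP_26cd3b_lc.H27

open Submodule

variable {E : Type} [AddCommGroup E] [Module ℝ E] [FiniteDimensional ℝ E]

/-- local realisations of the cells that agree across the walls -/
structure Local (D : TD) (y : ℕ → Lb → E) (ν : E →ₗ[ℝ] ℝ) : Prop where
  vx : ∀ v < D.m, Vx (D.lab v) (y v)
  ed : ∀ v < D.m, ∀ a b, D.adj v a b ↔ Ed (D.lab v) (y v) a b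
  dn : ∀ v, 0 < v → v < D.m → ν (y (D.par v) (D.dn v)) = 0
  wall : ∀ v, 0 < v → v < D.m → ∃ J : E ≃ₗ[ℝ] E, J (y v up) = -y (D.par v) (D.dn v) ∧
    (∀ x, ν (J x) = ν x) ∧ ∀ b, D.adj v up b → ∃ t : ℝ,
      J (y v b) = y (D.par v) (D.mt v b) + t • y (D.par v) (D.dn v)
  sp : span ℝ (y 0 '' D.lab 0) = ⊤
  nb : ∀ v, 0 < v → v < D.m → ∃ b, D.adj v up b

structure Inv (D : TD) (y : ℕ → Lb → E) (ν : E →ₗ[ℝ] ℝ) (n : ℕ) (Y : Vt → E)
    (T : ℕ → E ≃ₗ[ℝ] E) : Prop where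
  vx : Vx (D.Vs n) Y
  ed : ∀ x x', D.InV n x → D.InV n x' → (D.G n x x' ↔ Ed (D.Vs n) Y x x')
  val : ∀ x, D.InV n x → Y x = T x.1 (y x.1 x.2)
  nbr : ∀ x x', D.InV n x → D.InV n x' → D.G n x x' → ∃ c t : ℝ, 0 < c ∧
    Y x' = c • T x.1 (y x.1 (D.dir x.1 x')) + t • Y x
  nu : ∀ v x, ν (T v x) = ν x
  sp : span ℝ (Y '' D.Vs n) = ⊤

variable {D : TD} {y : ℕ → Lb → E} {ν : E →ₗ[ℝ] ℝ}

omit [FiniteDimensional ℝ E] in
theorem inv_one (h : Local D y ν) :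
    Inv D y ν 1 (fun x => y 0 x.2) fun _ => LinearEquiv.refl ℝ E := by
  have e : D.Vs 1 = (D.lab 0).image fun a => ((0, a) : Vt) := by
    ext ⟨v, a⟩
    simp only [TD.mem_Vs, TD.InV, Nat.lt_one_iff, Finset.mem_image, Prod.mk.injEq]
    constructor
    · rintro ⟨rfl, h1, -⟩; exact ⟨a, h1, rfl, rfl⟩
    · rintro ⟨b, h1, rfl, rfl⟩; exact ⟨rfl, h1, by simp, fun w hw => by omega⟩
  have hf : Function.Injective fun a : Lb => ((0, a) : Vt) := fun a b g => by simpa using g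
  have h0 : ∀ x, D.InV 1 x → x = (0, x.2) := fun x hx => Prod.ext (Nat.lt_one_iff.1 hx.1) rfl
  refine ⟨e ▸ vx_map hf (LinearEquiv.refl ℝ E) (fun _ _ => rfl) (h.vx 0 D.m_pos),
    fun x x' hx hx' => ?_, fun x hx => by rw [h0 x hx]; rfl, fun x x' hx hx' _ => ⟨1, 0, one_pos, ?_⟩,
    fun _ _ => rfl, ?_⟩
  · rw [h0 x hx, h0 x' hx', e, ed_map hf (LinearEquiv.refl ℝ E) (y := y 0) (fun _ _ => rfl),
      ← h.ed 0 D.m_pos]
    constructor
    · intro g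
      have := g.adj (z := 0) one_pos
      simp only [D.dir_self] at this
      exact this fun e => g.1 (by rw [e])
    · intro g
      refine ⟨by simpa using (D.adj_mem _ _ _ g).2.2, fun w hw => ?_⟩
      obtain rfl : w = 0 := by omega
      simp [TD.C, D.dir_self, g, D.adj_symm _ _ _ g]
  · rw [h0 x hx, h0 x' hx']; simp [D.dir_self]
  · rw [e, ← h.sp, Finset.coe_image, Set.image_image]

theorem inv_succ (h : Local D y ν) {n : ℕ} (h0 : 0 < n) (hn : n < D.m) {Y : Vt → E}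
    {T : ℕ → E ≃ₗ[ℝ] E} (I : Inv D y ν n Y T) : ∃ Y' T', Inv D y ν (n + 1) Y' T' := by
  classical
  obtain ⟨J, J1, J2, J3⟩ := h.wall n h0 hn
  have hp := TD.port_mem h0 hn
  have hpv : Y (D.port n) = T (D.par n) (y (D.par n) (D.dn n)) := I.val _ hp
  have hu := D.par_lt n h0 hn
  set T0 := J.trans (T (D.par n)) with hT0
  have z1 : T0 (y n up) = -Y (D.port n) := by simp [hT0, J1, hpv]
  have z2 : ∀ b, D.adj n up b → ∃ t : ℝ, T (D.par n) (y (D.par n) (D.mt n b)) =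
      T0 (y n b) + t • Y (D.port n) := by
    intro b hb
    obtain ⟨t, ht⟩ := J3 b hb
    exact ⟨-t, by simp [hT0, ht, hpv]⟩
  have v2 : Vx (D.lab n) fun b => T0 (y n b) := by
    simpa using vx_map (y' := fun b => T0 (y n b)) Function.injective_id T0 (fun _ _ => rfl)
      (h.vx n hn)
  have e2 : ∀ a b, Ed (D.lab n) (fun b => T0 (y n b)) a b ↔ D.adj n a b := fun a b => by
    simpa [h.ed n hn] using ed_map (s := D.lab n) (y' := fun b => T0 (y n b))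
      Function.injective_id T0 (fun _ _ => rfl) a b
  have par1 : ∀ x b, D.InV n x → D.G n x (D.port n) → D.adj n up b →
      D.dir (D.par n) x = D.mt n b → ∃ c t : ℝ, 0 < c ∧
        Y x = c • T0 (y n b) + t • Y (D.port n) := by
    intro x b hx g hb e
    obtain ⟨c, t, hc, k⟩ := I.nbr _ x hp hx g.symm
    obtain ⟨t', k'⟩ := z2 b hb
    refine ⟨c, c * t' + t, hc, ?_⟩
    rw [k, show (D.port n).1 = D.par n from rfl, e, k']
    module
  obtain ⟨S, S1, S2, S3, S4⟩ := exists_shear (D.mem_Vs.2 hp) (D.up_mem n hn) z1 I.vx v2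
    (fun b hb => (v2.tangent (D.up_mem n hn) b hb).trans (fun u hu => .base (by
      rwa [z1, ← Set.neg_singleton, span_neg] at hu)) (by
      rintro _ ⟨b', hb', rfl⟩
      have hb' := (e2 _ _).1 hb'
      obtain ⟨x', x, g1, g2, g3, g4, g5⟩ := TD.strand n hn.le _ hu _ _ (D.mt_adj n h0 hn b' hb')
      obtain rfl : x' = D.port n := TD.eq_of_dir hn.le g1 hp g4
      obtain ⟨c, t, hc, k⟩ := par1 x b' g2 g3.symm hb' g5
      have : T0 (y n b') = c⁻¹ • Y x + (-(c⁻¹ * t)) • Y (D.port n) := by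
        rw [k, smul_add, smul_smul, smul_smul, inv_mul_cancel₀ hc.ne']; module
      show Cn _ _ (T0 (y n b'))
      rw [this]
      exact .add (inv_nonneg.2 hc.le) ⟨x, D.mem_Vs.2 g2, rfl⟩
        (.base (smul_mem _ _ (subset_span rfl)))))
    (fun a ha => (I.vx.tangent (D.mem_Vs.2 hp) a ha).trans (fun u hu => .base hu) (by
      rintro _ ⟨x, hx, rfl⟩
      have g2 := D.mem_Vs.1 hx.2.1
      have g3 := (I.ed _ _ hp g2).2 hx
      obtain ⟨b, hb, e⟩ := D.mt_surj n h0 hn _ (g3.adj_left hn.le g2 hp)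
      obtain ⟨c, t, hc, k⟩ := par1 x b g2 g3.symm hb e.symm
      rw [k]
      exact .add hc.le ⟨b, (D.adj_mem _ _ _ hb).2.1, rfl⟩ (.base (smul_mem _ _ (subset_span rfl)))))
  let T1 := T0.trans S
  have hT1 : ∀ x, T1 x = S (T0 x) := fun _ => rfl
  let Y' : Vt → E := fun x => if x.1 = n then T1 (y n x.2) else Y x
  have Y1 : ∀ x : Vt, x.1 < n → Y' x = Y x := fun x hx => if_neg hx.ne
  have Y2 : ∀ b, Y' (n, b) = T1 (y n b) := fun b => if_pos rfl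
  have hf : Function.Injective fun a : Lb => ((n, a) : Vt) := fun a b g => by simpa using g
  have hlt : ∀ x ∈ D.Vs n, x.1 < n := fun x hx => (D.mem_Vs.1 hx).1
  have eo : ∀ x x', Ed (D.Vs n) Y' x x' ↔ Ed (D.Vs n) Y x x' := fun x x' => by
    simpa using ed_map (s := D.Vs n) (y' := Y') (y := Y) Function.injective_id
      (LinearEquiv.refl ℝ E) (fun x hx => Y1 x (hlt x hx)) x x'
  have en : ∀ a b, Ed ((D.lab n).image fun a => ((n, a) : Vt)) Y' (n, a) (n, b) ↔ D.adj n a b :=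
    fun a b => by rw [ed_map hf T1 (y := y n) (fun b _ => Y2 b), h.ed n hn]
  have io : Y' '' D.Vs n = Y '' D.Vs n := Set.image_congr fun x hx => Y1 x (hlt x hx)
  have sep : Sep (D.Vs n) ((D.lab n).image fun a => ((n, a) : Vt)) (D.Vs (n + 1)) Y' (D.port n)
      (n, up) := by
    refine ⟨fun x => ?_, fun x hx g => ?_, D.mem_Vs.2 hp,
      Finset.mem_image_of_mem _ (D.up_mem n hn), ?_, ?_,
      vx_map hf T1 (fun b _ => Y2 b) (h.vx n hn), fun x hx g => ?_, fun x hx g => ?_⟩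
    · rw [D.mem_Vs, TD.inV_succ h0 hn, D.mem_Vs]
      refine or_congr Iff.rfl ⟨fun g => ⟨Finset.mem_image.2 ⟨x.2, g.2.1, by rw [← g.1]⟩,
        fun e => g.2.2 (by rw [e])⟩, fun g => ?_⟩
      obtain ⟨b, hb, rfl⟩ := Finset.mem_image.1 g.1
      exact ⟨rfl, hb, fun e => g.2 (by rw [← e])⟩
    · obtain ⟨b, -, rfl⟩ := Finset.mem_image.1 g
      exact (hlt _ hx).ne rfl
    · rw [Y2, Y1 _ hp.1, hT1, z1, map_neg, S2]
    · simpa using vx_map (y' := Y') Function.injective_id (LinearEquiv.refl ℝ E)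
        (fun x hx => Y1 x (hlt x hx)) I.vx
    · obtain ⟨b, hb, rfl⟩ := Finset.mem_image.1 hx
      rw [io, Y2, Y1 _ hp.1]
      exact S3 b hb fun e => g (by rw [e])
    · obtain ⟨ε, k1, w, k2, k3⟩ := S4 x hx g
      refine ⟨ε, k1, w, k2.mono ?_, ?_⟩
      · rintro _ ⟨_, ⟨b, hb, rfl⟩, rfl⟩
        exact ⟨(n, b), Finset.mem_coe.2 (Finset.mem_image_of_mem _ hb), Y2 b⟩
      · rw [Y2, Y1 _ (hlt x hx), hT1, z1, map_neg, S2, k3]
  have par2 : ∀ x b, D.InV n x → D.G n x (D.port n) → D.adj n up b →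
      D.dir (D.par n) x = D.mt n b → ∃ c t : ℝ, 0 < c ∧
        Y x = c • T1 (y n b) + t • Y (D.port n) := by
    intro x b hx g hb e
    obtain ⟨c, t, hc, k⟩ := par1 x b hx g hb e
    obtain ⟨t', k'⟩ := S1 (T0 (y n b))
    refine ⟨c, t - c * t', hc, ?_⟩
    rw [k, hT1, k']
    module
  have mixed : ∀ x b, D.InV n x → x ≠ D.port n → b ∈ D.lab n → b ≠ up →
      (D.G (n + 1) x (n, b) ↔ Ed (D.Vs (n + 1)) Y' x (n, b)) := by
    intro x b hx g hb hb'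
    rw [TD.G_mixed h0 hn hx.1 g hb', sep.ed_mixed (D.mem_Vs.2 hx) (Finset.mem_image_of_mem _ hb) g
      (fun e => hb' (hf e)), eo, en, ← I.ed _ _ hp hx, Y1 _ hx.1, Y2, Y1 _ hp.1]
    refine ⟨fun k => ⟨k.1.symm, k.2.1, par2 x b hx k.1 k.2.1 k.2.2⟩, fun k => ⟨k.1.symm, k.2.1, ?_⟩⟩
    obtain ⟨k1, k2, c, t, hc, k3⟩ := k
    obtain ⟨c', t', hc', k4⟩ := I.nbr _ x hp hx k1
    obtain ⟨t2, k5⟩ := z2 b k2
    obtain ⟨t3, k6⟩ := S1 (T0 (y n b))
    have a1 := (h.ed _ (hu.trans hn) _ _).1 (k1.adj_left hn.le hx hp)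
    have a2 := (h.ed _ (hu.trans hn) _ _).1 (D.mt_adj n h0 hn b k2)
    refine a2.eq_of_par a1.2.1 a1.2.2.1.symm (p := c'⁻¹ * c)
      (q := c'⁻¹ * (c * (t3 - t2) + t - t')) ((T (D.par n)).injective ?_)
    rw [map_add, map_smul, map_smul, k5, mul_smul, mul_smul, ← smul_add,
      eq_inv_smul_iff₀ hc'.ne', ← hpv]
    rw [hT1, k6, k4, show (D.port n).1 = D.par n from rfl] at k3
    linear_combination (norm := module) k3
  have hν : ν (Y (D.port n)) = 0 := by rw [hpv, I.nu]; exact h.dn n h0 hn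
  let T' : ℕ → E ≃ₗ[ℝ] E := fun v => if v = n then T1 else T v
  have T2 : ∀ v < n, T' v = T v := fun v hv => if_neg hv.ne
  have T3 : T' n = T1 := if_pos rfl
  refine ⟨Y', T', sep.vx, fun x x' hx hx' => ?_, fun x hx => ?_, fun x x' hx hx' g => ?_,
    fun v x => ?_, ?_⟩
  · rcases (TD.inV_succ h0 hn x).1 hx with ⟨k1, k2⟩ | ⟨k1, k2, k3⟩ <;>
      rcases (TD.inV_succ h0 hn x').1 hx' with ⟨l1, l2⟩ | ⟨l1, l2, l3⟩
    · rw [TD.G_old k1.1 l1.1, sep.ed_left (D.mem_Vs.2 k1) (D.mem_Vs.2 l1) k2 l2, eo, I.ed _ _ k1 l1]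
    · obtain ⟨v, b⟩ := x'
      subst l1
      exact mixed x b k1 k2 l2 l3
    · obtain ⟨v, b⟩ := x
      subst k1
      exact ⟨fun g => ((mixed x' b l1 l2 k2 k3).1 g.symm).symm,
        fun g => ((mixed x' b l1 l2 k2 k3).2 g.symm).symm⟩
    · obtain ⟨v, b⟩ := x
      obtain ⟨v', b'⟩ := x'
      subst k1
      subst l1
      rw [TD.G_new hn k3 l3, sep.symm.ed_left (Finset.mem_image_of_mem _ k2)
        (Finset.mem_image_of_mem _ l2) (fun e => k3 (hf e)) (fun e => l3 (hf e)), en]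
  · rcases (TD.inV_succ h0 hn x).1 hx with ⟨k1, k2⟩ | ⟨k1, k2, k3⟩
    · rw [Y1 _ k1.1, T2 _ k1.1, I.val x k1]
    · obtain ⟨v, b⟩ := x
      subst k1
      rw [Y2, T3]
  · rcases (TD.inV_succ h0 hn x).1 hx with ⟨k1, k2⟩ | ⟨k1, k2, k3⟩ <;>
      rcases (TD.inV_succ h0 hn x').1 hx' with ⟨l1, l2⟩ | ⟨l1, l2, l3⟩
    · rw [Y1 _ k1.1, Y1 _ l1.1, T2 _ k1.1]
      exact I.nbr x x' k1 l1 ((TD.G_old k1.1 l1.1).1 g)
    · obtain ⟨v, b⟩ := x'
      subst l1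
      obtain ⟨g1, g2, g3⟩ := (TD.G_mixed h0 hn k1.1 k2 l3).1 g
      obtain ⟨c, t, hc, m1⟩ := par2 x b k1 g1 g2 g3
      obtain ⟨c', t', hc', m2⟩ := I.nbr x _ k1 hp g1
      have a1 := (sep.ed_mixed (D.mem_Vs.2 k1) (Finset.mem_image_of_mem _ l2) k2
        (fun e => l3 (hf e))).2 ⟨(eo _ _).2 ((I.ed _ _ hp k1).1 g1.symm), (en _ _).2 g2, c, t, hc,
          by rw [Y1 _ k1.1, Y2, Y1 _ hp.1, m1]⟩
      have ht : t < 0 := by
        obtain ⟨φ, p1, p2, p3⟩ := sep.v1.fn (D.mem_Vs.2 k1)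
        have p4 := p3 _ (D.mem_Vs.2 hp) k2.symm
        have p5 := (sep.nonneg p1 (Finset.mem_image_of_mem _ l2) fun e => l3 (hf e)).2 p4
        rw [Y1 _ k1.1, m1] at p2
        rw [Y1 _ hp.1] at p4
        rw [Y2] at p5
        simp only [map_add, map_smul, smul_eq_mul] at p2
        nlinarith [mul_pos hc p5]
      refine ⟨c⁻¹ * (-t * c'), c⁻¹ * (1 - t * t'), mul_pos (inv_pos.2 hc)
        (mul_pos (by linarith) hc'), ?_⟩
      rw [Y2, Y1 _ k1.1, T2 _ k1.1, TD.dir_port k1.1 hn, mul_smul, mul_smul c⁻¹, ← smul_add,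
        eq_inv_smul_iff₀ hc.ne']
      rw [m2] at m1
      linear_combination (norm := module) -m1
    · obtain ⟨v, b⟩ := x
      subst k1
      obtain ⟨g1, g2, g3⟩ := (TD.G_mixed h0 hn l1.1 l2 k3).1 g.symm
      obtain ⟨c, t, hc, m1⟩ := par2 x' b l1 g1 g2 g3
      have ht : t < 0 := by
        obtain ⟨φ, p1, p2, p3⟩ := sep.v1.fn (D.mem_Vs.2 l1)
        have p4 := p3 _ (D.mem_Vs.2 hp) l2.symm
        have p5 := (sep.nonneg p1 (Finset.mem_image_of_mem _ k2) fun e => k3 (hf e)).2 p4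
        rw [Y1 _ l1.1, m1] at p2
        rw [Y1 _ hp.1] at p4
        rw [Y2] at p5
        simp only [map_add, map_smul, smul_eq_mul] at p2
        nlinarith [mul_pos hc p5]
      refine ⟨-t, c, by linarith, ?_⟩
      rw [Y2, Y1 _ l1.1, T3, TD.dir_up l1.1, m1, hT1 (y _ up), z1,
        map_neg, S2]
      module
    · obtain ⟨v, b⟩ := x
      obtain ⟨v', b'⟩ := x'
      subst k1
      subst l1
      exact ⟨1, 0, one_pos, by simp [Y2, T3, D.dir_self]⟩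
  · by_cases e : v = n
    · obtain ⟨t, ht⟩ := S1 (T0 x)
      rw [e, T3, hT1, ht]
      simp [hν, hT0, I.nu, J2]
    · simp only [T', if_neg e, I.nu]
  · obtain ⟨b, hb⟩ := h.nb n h0 hn
    obtain ⟨x', x, g1, g2, g3, g4, g5⟩ := TD.strand n hn.le _ hu _ _ (D.mt_adj n h0 hn b hb)
    obtain rfl : x' = D.port n := TD.eq_of_dir hn.le g1 hp g4
    rw [eq_top_iff, ← I.sp, ← io]
    exact sep.span_le (D.mem_Vs.2 g2) g3.1.symm

theorem exists_inv (h : Local D y ν) : ∀ n, 0 < n → n ≤ D.m → ∃ Y T, Inv D y ν n Y T := by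
  intro n h0
  induction n, h0 using Nat.le_induction with
  | base => exact fun _ => ⟨_, _, inv_one h⟩
  | succ n h0 ih =>
    intro hn
    obtain ⟨Y, T, I⟩ := ih (by omega)
    exact inv_succ h h0 hn I

theorem tree_real (h : Local D y ν) {nd : Lb} (hA : D.Apex nd)
    (h1 : ∀ v < D.m, ∀ a ∈ D.lab v, a ≠ nd → ν (y v a) = 0) (h2 : ∀ v < D.m, 0 < ν (y v nd)) :
    ∃ Y : Vt → E, Tp (D.Vs D.m) Y ν ∧
      ∀ x x', D.InV D.m x → D.InV D.m x' → (D.G D.m x x' ↔ Ed (D.Vs D.m) Y x x') := by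
  obtain ⟨Y, T, I⟩ := exists_inv h D.m D.m_pos le_rfl
  have k1 : ∀ x, D.InV D.m x → x.2 ≠ nd → ν (Y x) = 0 := fun x hx e => by
    rw [I.val x hx, I.nu, h1 _ hx.1 _ hx.2.1 e]
  have k2 : ∀ x, D.InV D.m x → x.2 = nd → 0 < ν (Y x) := fun x hx e => by
    rw [I.val x hx, I.nu, e]; exact h2 _ hx.1
  have k3 : ∀ x ∈ D.Vs D.m, 0 < ν (Y x) → x = (x.1, nd) := fun x hx e =>
    Prod.ext rfl (by_contra fun g => e.ne' (k1 x (D.mem_Vs.1 hx) g))
  have hν : Valid (D.Vs D.m) Y ν := fun x hx => by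
    by_cases e : x.2 = nd
    · exact (k2 x (D.mem_Vs.1 hx) e).le
    · exact (k1 x (D.mem_Vs.1 hx) e).ge
  have k4 : ∀ a x, Ed (D.Vs D.m) Y a x → 0 < ν (Y x) → D.G D.m (x.1, nd) a := fun a x g e => by
    rw [← k3 x g.2.1 e]
    exact (I.ed _ _ (D.mem_Vs.1 g.2.1) (D.mem_Vs.1 g.1)).2 g.symm
  refine ⟨Y, ⟨I.vx, hν, tp_of_cert I.vx hν (fun x => x.1) ?_ ?_, I.sp, ?_,
    ⟨_, D.mem_Vs.2 (hA.mem D.m_pos), k2 _ (hA.mem D.m_pos) rfl⟩⟩, I.ed⟩
  · have key : ∀ a x, ν (Y a) = 0 → Ed (D.Vs D.m) Y a x → 0 < ν (Y x) → x = (a.1, nd) := by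
      intro a x g1 g2 g3
      have ha := D.mem_Vs.1 g2.1
      rcases hA.nbr (D.mem_Vs.1 g2.2.1).1 ha (k4 a x g2 g3) with e | ⟨-, -, e⟩ | ⟨c, -, -, -, -, e⟩
      · rw [e]; exact k3 x g2.2.1 g3
      · exact absurd g1 (k2 a ha (by rw [e])).ne'
      · exact absurd g1 (k2 a ha (by rw [e])).ne'
    intro a x x' g1 g2 g3 g4 g5
    rw [key a x g1 g2 g4, key a x' g1 g3 g5]
  · have key : ∀ a x, 0 < ν (Y a) → Ed (D.Vs D.m) Y a x → 0 < ν (Y x) → (x.1 : ℝ) ≤ a.1 →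
        x = (D.par a.1, nd) := by
      intro a x g1 g2 g3 g4
      have hx := D.mem_Vs.1 g2.2.1
      rcases hA.nbr (D.mem_Vs.1 g2.1).1 hx (k4 x a g2.symm g1) with e | ⟨-, -, e⟩ |
        ⟨c, e1, e2, e3, -, e⟩
      · exact absurd (by rw [k3 x g2.2.1 g3, k3 a g2.1 g1, e]) g2.2.2.1
      · exact e
      · have := D.par_lt c e2 e1
        rw [e, Nat.cast_le] at g4
        omega
    intro a x x' g1 g2 g3 g4 g5 g6 g7
    rw [key a x g1 g2 g4 g6, key a x' g1 g3 g5 g7]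
  · have : D.InV D.m (0, up) :=
      ⟨D.m_pos, D.up_mem 0 D.m_pos, by simp, fun w _ _ _ => D.dn_ne w⟩
    exact ⟨_, D.mem_Vs.2 this, k1 _ this hA.ne_up.symm⟩

end Pool.Agent.MP_26cd3b_lc.H27
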