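import Pool.Agent.MP_26cd3b_lc.H27.InstSound
import Pool.Agent.MP_26cd3b_lc.H25.InstC
import Pool.Agent.MP_26cd3b_lc.H39.InstR
import Pool.Agent.MP_26cd3b_lc.H30.Bridge
import Pool.Agent.MP_26cd3b_lc.H38.Algebra
import Pool.Agent.Shared.H56.Converse

set_option autoImplicit false

namespace Pool.Agent.MP_26cd3b_lc.H27

open Pool.Agent.Shared.H56 Pool.Agent.MP_aca74d_lc.H29

theorem hard_fixed (r : ℕ) : N793a5b8e.ManyOneReducible ETR (treetopeLang (r + 5)) := by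
  obtain ⟨n, qs, pn, pq, h⟩ := H38.exists_esys
  obtain ⟨f, pf, hf⟩ := H25.inst_code r
  let L0 : List Bool → List Tok := fun w => (N487b59b3.bitDecode w).getD []
  let L : List Bool → List Tok := fun w => if N487b59b3.bitEncode (L0 w) = w then L0 w else []
  have h0 : PT L0 := PT.decode_getD PT.id' (PT.const _)
  have hL : PT L := PT.ite (by fun_prop) h0 (PT.const _)
  have key : ∀ w, ETR w = true ↔ ∃ φ : Formula, L w = φ.code ∧ ∃ x : ℕ → ℝ, φ.Holds x := by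
    intro w
    simp only [ETR, decide_eq_true_eq, L]
    refine exists_congr fun φ => and_congr_left fun _ => ⟨?_, fun e => ?_⟩
    · rintro rfl
      simp [L0, N487b59b3.bitDecode_bitEncode]
    · split_ifs at e with g
      · rw [← e, g]
      · cases φ <;> simp [Formula.code] at e
  refine ⟨fun w => f (n (L w)) (qs (L w)), (pf (pn.comp hL) (pq.comp hL)).isPolyTime, fun w => ?_⟩
  obtain ⟨h1, h2, h3, h4⟩ := h (L w)
  have wf : WF (n (L w)) (qs (L w)) := ⟨h1, h2⟩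
  obtain ⟨e, e1, e2, e3⟩ := hf _ _ wf
  have hE : Module.finrank ℝ ((Fin 5 → ℝ) × (Fin (r + 1) → ℝ)) = r + 5 + 1 := by
    simp [Module.finrank_prod]; omega
  rw [Bool.eq_iff_iff, key, ← compile_iff]
  simp only [treetopeLang, decide_eq_true_eq]
  rw [H30.bridge' (r + 5) (by omega) _ _ e e1 e2 hE]
  constructor
  · intro g
    obtain ⟨t, t0, t1, t2⟩ := h4 g
    obtain ⟨y, ν, k1, k2, k3⟩ := H39.inst_real r wf t0 t1 t2
    obtain ⟨Y, k4, k5⟩ := tree_real k1 (inst_apex wf (Nat.zero_le r)) k2 k3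
    exact ⟨Y, ν, k4, fun a b => (e3 a b).trans (k5 _ _ ((TD.mem_Vs _).1 ((e2 _).2 ⟨a, rfl⟩))
      ((TD.mem_Vs _).1 ((e2 _).2 ⟨b, rfl⟩)))⟩
  · rintro ⟨Y, ν, k1, k2⟩
    obtain ⟨t, t0, t1, t2⟩ := inst_sound wf hE k1 fun x x' hx hx' => by
      obtain ⟨a, rfl⟩ := (e2 x).1 ((TD.mem_Vs _).2 hx)
      obtain ⟨b, rfl⟩ := (e2 x').1 ((TD.mem_Vs _).2 hx')
      exact (e3 a b).symm.trans (k2 a b)
    exact h3 t t0 t1 t2

theorem five_le_in : N793a5b8e.ManyOneReducible (treetopeLang 5) treetopeLangIn := by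
  refine ⟨fun x => N487b59b3.bitEncode ((5 : ℕ), x), PT.isPolyTime (by fun_prop), fun x => ?_⟩
  rw [Bool.eq_iff_iff]
  simp only [treetopeLang, treetopeLangIn, decide_eq_true_eq]
  refine ⟨fun h => ⟨5, x, rfl, le_rfl, h⟩, ?_⟩
  rintro ⟨k, y, e, -, h⟩
  obtain ⟨rfl, rfl⟩ := Prod.ext_iff.1 (N487b59b3.bitEncode_injective e)
  exact h

end Pool.Agent.MP_26cd3b_lc.H27
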