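import Pool.Agent.MP_26cd3b_lc.H27.TreeSound

set_option autoImplicit false

namespace Pool.Agent.MP_26cd3b_lc.H27

open Submodule

variable {E : Type} [AddCommGroup E] [Module ℝ E]

theorem face_quot {ι : Type} {s : Finset ι} {y : ι → E} {u : E} {S : Set ι} :
    Face s (fun a => (span ℝ {u}).mkQ (y a)) S ↔
      ∃ φ : E →ₗ[ℝ] ℝ, φ u = 0 ∧ ∀ a ∈ s, 0 ≤ φ (y a) ∧ (φ (y a) = 0 ↔ a ∈ S) := by
  constructor
  · rintro ⟨φ, h⟩
    refine ⟨φ ∘ₗ (span ℝ {u}).mkQ, ?_, h⟩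
    rw [LinearMap.comp_apply, mkQ_apply, (Quotient.mk_eq_zero _).2 (mem_span_singleton_self u),
      map_zero]
  · rintro ⟨φ, h0, h⟩
    exact ⟨(span ℝ {u}).liftQ φ fun _ hx => span_zero1 h0 _ hx, h⟩

/-- the vertex figure at the node `v` -/
noncomputable def loc (D : TD) (nd : Lb) (Y : Vt → E) (v : ℕ) (a : Lb) :
    E ⧸ span ℝ {Y (v, nd)} := (span ℝ {Y (v, nd)}).mkQ (Y (D.nb nd v a))

variable {D : TD} {nd : Lb}

theorem TD.dir_ne {v w : ℕ} (hw : w < D.m) (h : w ≠ v) (b b' : Lb) :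
    D.dir v (w, b) = D.dir v (w, b') := by
  rcases lt_or_gt_of_ne h with e | e
  · rw [D.dir_gt _ _ _ e, D.dir_gt _ _ _ e]
  · rw [D.dir_lt _ _ _ e hw, D.dir_lt _ _ _ e hw]

theorem TD.Apex.dir_par (h : D.Apex nd) {v w : ℕ} (h0 : 0 < w) (hw : w < D.m)
    (h1 : D.dir v (w, nd) ≠ nd) (h2 : D.dir v (D.par w, nd) ≠ nd) :
    D.dir v (w, nd) = D.dir v (D.par w, nd) := by
  have hp := D.par_lt w h0 hw
  rcases lt_trichotomy v w with e | rfl | e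
  · rw [D.dir_lt _ _ _ e hw]
    exact TD.dir_ne (hp.trans hw) (by rintro rfl; exact h2 (D.dir_self _ _)) _ _
  · exact absurd (D.dir_self _ _) h1
  · rw [D.dir_gt _ _ _ e, D.dir_gt _ _ _ (hp.trans e)]

theorem TD.Apex.not_node (h : D.Apex nd) {v : ℕ} {x x' : Vt} (hx : D.InV D.m x)
    (hx' : D.InV D.m x') (g : D.G D.m x x') (e : D.dir v x ≠ D.dir v x') (h1 : D.dir v x ≠ nd)
    (h2 : D.dir v x' ≠ nd) : x.2 ≠ nd := by
  obtain ⟨w, b⟩ := x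
  rintro rfl
  rcases h.nbr hx.1 hx' g with k | ⟨k, -, rfl⟩ | ⟨c, k1, k2, rfl, -, rfl⟩
  · obtain ⟨w', b'⟩ := x'
    obtain rfl : w' = w := k
    exact e (TD.dir_ne hx.1 (by rintro rfl; exact h1 (D.dir_self _ _)) _ _)
  · exact e (h.dir_par k hx.1 h1 h2)
  · exact e (h.dir_par k2 k1 h2 h1).symm

variable [FiniteDimensional ℝ E] {Y : Vt → E} {ν : E →ₗ[ℝ] ℝ}

namespace Glob

omit [FiniteDimensional ℝ E] in
theorem ed_nb (h : Glob D nd Y ν) {v : ℕ} (hv : v < D.m) {a : Lb} (ha : a ∈ (D.lab v).erase nd) :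
    Ed (D.Vs D.m) Y (v, nd) (D.nb nd v a) :=
  let k := h.ap.nb_spec hv (Finset.mem_erase.1 ha).2 (Finset.mem_erase.1 ha).1
  (h.ed _ _ (h.ap.mem hv) k.1).1 k.2.1

omit [FiniteDimensional ℝ E] in
theorem dir_nb (h : Glob D nd Y ν) {v : ℕ} (hv : v < D.m) {a : Lb} (ha : a ∈ (D.lab v).erase nd) :
    D.dir v (D.nb nd v a) = a :=
  (h.ap.nb_spec hv (Finset.mem_erase.1 ha).2 (Finset.mem_erase.1 ha).1).2.2

omit [FiniteDimensional ℝ E] in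
theorem nb_ne (h : Glob D nd Y ν) {v : ℕ} (hv : v < D.m) {a b : Lb} (ha : a ∈ (D.lab v).erase nd)
    (hb : b ∈ (D.lab v).erase nd) (e : a ≠ b) : D.nb nd v a ≠ D.nb nd v b := fun g =>
  e (by rw [← h.dir_nb hv ha, g, h.dir_nb hv hb])

omit [FiniteDimensional ℝ E] in
theorem of_ed (h : Glob D nd Y ν) {v : ℕ} (hv : v < D.m) {x : Vt}
    (g : Ed (D.Vs D.m) Y (v, nd) x) : ∃ a ∈ (D.lab v).erase nd, x = D.nb nd v a :=
  let k := D.mem_Vs.1 g.2.1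
  let l := (h.ed _ _ (h.ap.mem hv) k).2 g
  ⟨_, Finset.mem_erase.2 (h.ap.dir_mem hv k l).symm, h.ap.eq_nb hv k l⟩

omit [FiniteDimensional ℝ E] in
theorem node_ne (h : Glob D nd Y ν) {v : ℕ} (hv : v < D.m) : Y (v, nd) ≠ 0 := fun e => by
  have := (h.nd _ (h.ap.mem hv)).2 rfl
  simp [e] at this

theorem face_loc (h : Glob D nd Y ν) {v : ℕ} (hv : v < D.m) {S : Set Lb} :
    Face ((D.lab v).erase nd) (loc D nd Y v) S ↔ ∃ φ : E →ₗ[ℝ] ℝ, Valid (D.Vs D.m) Y φ ∧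
      φ (Y (v, nd)) = 0 ∧ ∀ a ∈ (D.lab v).erase nd, (φ (Y (D.nb nd v a)) = 0 ↔ a ∈ S) := by
  refine face_quot.trans (exists_congr fun φ => ⟨fun ⟨h1, h2⟩ => ⟨?_, h1, fun a ha => (h2 a ha).2⟩,
    fun ⟨h1, h2, h3⟩ => ⟨h2, fun a ha => ⟨h1 _ (h.ed_nb hv ha).2.1, h3 a ha⟩⟩⟩)
  refine h.tp.vx.valid (D.mem_Vs.2 (h.ap.mem hv)) h1 fun x hx => ?_
  obtain ⟨a, ha, rfl⟩ := h.of_ed hv hx
  exact (h2 a ha).1

theorem vx_loc (h : Glob D nd Y ν) {v : ℕ} (hv : v < D.m) :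
    Vx ((D.lab v).erase nd) (loc D nd Y v) := by
  intro a ha
  obtain ⟨φ, h1, h2, h3, h4⟩ := (h.ed_nb hv ha).fn
  refine (h.face_loc hv).2 ⟨φ, h1, h2, fun b hb => ⟨fun e => by_contra fun e' => ?_, ?_⟩⟩
  · exact (h4 _ (h.ed_nb hv hb).2.1 (h.ed_nb hv hb).2.2.1.symm (h.nb_ne hv hb ha e')).ne' e
  · rintro rfl; exact h3

theorem sp_loc (h : Glob D nd Y ν) {v : ℕ} (hv : v < D.m) :
    span ℝ (loc D nd Y v '' ((D.lab v).erase nd)) = ⊤ := by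
  rw [eq_top_iff, ← range_mkQ (span ℝ {Y (v, nd)}), LinearMap.range_eq_map, ← h.tp.sp,
    map_le_iff_le_comap, span_le]
  rintro _ ⟨x, hx, rfl⟩
  refine (h.tp.vx.tangent (D.mem_Vs.2 (h.ap.mem hv)) x hx).mem_sup (fun u hu => ?_) ?_
  · rw [mem_comap, mkQ_apply, (Quotient.mk_eq_zero _).2 hu]
    exact zero_mem _
  · rintro _ ⟨x, hx, rfl⟩
    obtain ⟨a, ha, rfl⟩ := h.of_ed hv hx
    exact subset_span ⟨a, ha, rfl⟩

theorem rank_loc (h : Glob D nd Y ν) {v : ℕ} (hv : v < D.m) :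
    Module.finrank ℝ (E ⧸ span ℝ {Y (v, nd)}) + 1 = Module.finrank ℝ E := by
  rw [← finrank_quotient_add_finrank (span ℝ {Y (v, nd)}), finrank_span_singleton (h.node_ne hv)]

theorem strand' (h : Glob D nd Y ν) {v : ℕ} (hv : v < D.m) {a b : Lb} (ha : a ≠ nd) (hb : b ≠ nd)
    (g : D.adj v a b) : ∃ l l', D.InV D.m l ∧ D.InV D.m l' ∧ D.G D.m l l' ∧ D.dir v l = a ∧
      D.dir v l' = b ∧ ∃ φ : E →ₗ[ℝ] ℝ, Valid (D.Vs D.m) Y φ ∧ ∃ U : Submodule ℝ E,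
        Module.finrank ℝ U ≤ 3 ∧ (∀ x, D.InV D.m x → φ (Y x) = 0 → Y x ∈ U) ∧
          ∀ z < D.m, D.dir z l ≠ D.dir z l' → φ (Y (z, nd)) = 0 ∧
            φ (Y (D.nb nd z (D.dir z l))) = 0 ∧ φ (Y (D.nb nd z (D.dir z l'))) = 0 := by
  obtain ⟨l, l', h1, h2, h3, rfl, rfl⟩ := TD.strand D.m le_rfl v hv a b g
  have e := (D.adj_mem _ _ _ g).2.2
  exact ⟨l, l', h1, h2, h3, rfl, rfl, h.strand_face h1 h2 h3 (h.ap.not_node h1 h2 h3 e ha hb)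
    (h.ap.not_node h2 h1 h3.symm e.symm hb ha)⟩

theorem ed_of_adj (h : Glob D nd Y ν) {v : ℕ} (hv : v < D.m) {a b : Lb} (ha : a ≠ nd) (hb : b ≠ nd)
    (g : D.adj v a b) : Ed ((D.lab v).erase nd) (loc D nd Y v) a b := by
  obtain ⟨k1, k2, k3⟩ := D.adj_mem _ _ _ g
  have ha' := Finset.mem_erase.2 ⟨ha, k1⟩
  have hb' := Finset.mem_erase.2 ⟨hb, k2⟩
  obtain ⟨l, l', -, -, -, rfl, rfl, φ, h1, U, h2, h3, h4⟩ := h.strand' hv ha hb g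
  obtain ⟨p1, p2, p3⟩ := h4 v hv k3
  have ea := h.ed_nb hv ha'
  have eb := h.ed_nb hv hb'
  refine ⟨ha', hb', k3, (h.face_loc hv).2 ⟨φ, h1, p1, fun c hc => ⟨fun e => by_contra fun e' => ?_, ?_⟩⟩⟩
  · simp only [Set.mem_insert_iff, Set.mem_singleton_iff, not_or] at e'
    have ec := h.ed_nb hv hc
    exact ea.three eb ec (h.nb_ne hv ha' hb' k3) (h.nb_ne hv hc ha' e'.1) (h.nb_ne hv hc hb' e'.2)
      (mem_span_of_rank h2 (h3 _ (D.mem_Vs.1 ea.1) p1) (h3 _ (D.mem_Vs.1 ea.2.1) p2)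
        (h3 _ (D.mem_Vs.1 eb.2.1) p3) (h3 _ (D.mem_Vs.1 ec.2.1) e) (h.node_ne hv)
        (h.tp.vx.pair ea.1 ea.2.1 ea.2.2.1.symm) (h.tp.vx.tri ea.1 ea.2.1 eb.2.1 ea.2.2.1
          eb.2.2.1.symm (h.nb_ne hv hb' ha' k3.symm)))
  · rintro (rfl | rfl)
    · exact p2
    · exact p3

theorem adj_of_ed (h : Glob D nd Y ν) {v : ℕ} (hv : v < D.m) {a b : Lb}
    (g : Ed ((D.lab v).erase nd) (loc D nd Y v) a b) : D.adj v a b := by
  classical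
  obtain ⟨ha, hb, hab, g⟩ := g
  obtain ⟨φ, h1, h2, h3⟩ := (h.face_loc hv).1 g
  have ea := h.ed_nb hv ha
  have eb := h.ed_nb hv hb
  have pa := (h3 a ha).2 (by simp)
  have pb := (h3 b hb).2 (by simp)
  have t3 : Three (D.Vs D.m) Y φ := ⟨_, ea.1, _, ea.2.1, _, eb.2.1, ea.2.2.1, eb.2.2.1,
    h.nb_ne hv ha hb hab, h2, pa, pb⟩
  obtain ⟨l, hl, l', hl', ne, q1, q2, q3, q4⟩ := h.tp.tp φ h1 t3
  have hU : ∀ x ∈ D.Vs D.m, φ (Y x) = 0 →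
      Y x ∈ span ℝ ({Y (v, nd), Y (D.nb nd v a), Y (D.nb nd v b)} : Finset E) := by
    intro x hx e
    refine (h.tp.vx.tangent_face ea.1 hx h1 h2 e).mem_sup (span_mono (by simp)) ?_
    rintro _ ⟨x', ⟨g1, g2⟩, rfl⟩
    obtain ⟨c, hc, rfl⟩ := h.of_ed hv g1
    rcases (h3 c hc).1 g2 with rfl | rfl <;> exact subset_span (by simp)
  have hZ : ∀ x, D.InV D.m x → φ (Y x) = 0 → x.2 ≠ nd → x = l ∨ x = l' := by
    intro x hx e1 e2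
    by_contra e3
    push Not at e3
    obtain ⟨θ, hθ⟩ := h.tp.pointed
    have := mem_span_of_rank ((finrank_span_finset_le_card _).trans Finset.card_le_three)
      (hU l hl q1) (hU l' hl' q2) (hU x (D.mem_Vs.2 hx) e1) (hU _ ea.1 h2)
      (fun e => by simpa [e] using hθ l hl) (h.tp.vx.pair hl hl' ne.symm)
      (h.tp.vx.tri hl hl' (D.mem_Vs.2 hx) ne e3.1 e3.2)
    refine ((h.nd _ (h.ap.mem hv)).2 rfl).ne' (span_zero ?_ _ this)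
    rintro _ (rfl | rfl | rfl)
    · exact q3
    · exact q4
    · exact (h.base hx).2 e2
  have il := D.mem_Vs.1 hl
  have il' := D.mem_Vs.1 hl'
  have nl := (h.base il).1 q3
  have nl' := (h.base il').1 q4
  have gl : D.G D.m l l' := (h.ed _ _ il il').2 ⟨hl, hl', ne,
    (h1.face.inter h.tp.nu.face).congr fun x hx => ⟨fun e =>
      hZ x (D.mem_Vs.1 hx) e.1 ((h.base (D.mem_Vs.1 hx)).1 e.2), by
        rintro (rfl | rfl)
        · exact ⟨q1, q3⟩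
        · exact ⟨q2, q4⟩⟩⟩
  have ne' : D.dir v l ≠ D.dir v l' := by
    intro e
    by_cases e1 : 0 < v → D.dir v l ≠ up
    · exact h.no_escape h1 t3 hZ il il' nl v hv h2 e e1
    push Not at e1
    have key : ∀ c ∈ (D.lab v).erase nd, φ (Y (D.nb nd v c)) = 0 → c = up := by
      intro c hc e2
      by_contra e3
      have k := h.ap.nb_spec hv (Finset.mem_erase.1 hc).2 (Finset.mem_erase.1 hc).1
      have := h.down_dir h1 t3 hZ il il' v hv h2 _ k.1 k.2.1 e2 fun _ => k.2.2.symm ▸ e3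
      rw [k.2.2, ← e, e1.2, or_self] at this
      exact e3 this
    exact hab ((key a ha pa).trans (key b hb pb).symm)
  have ad := gl.adj hv ne'
  obtain ⟨m1, m2, -⟩ := D.adj_mem _ _ _ ad
  have r1 := (h3 _ (Finset.mem_erase.2 ⟨fun e => nl (congrArg Prod.snd
    (TD.eq_of_dir le_rfl il (h.ap.mem hv) e)), m1⟩)).1 (h.through h1 t3 hZ il il' q1 nl q2 nl' hv ne').2
  have r2 := (h3 _ (Finset.mem_erase.2 ⟨fun e => nl' (congrArg Prod.snd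
    (TD.eq_of_dir le_rfl il' (h.ap.mem hv) e)), m2⟩)).1
    (h.through h1 t3 (fun x a b c => (hZ x a b c).symm) il' il q2 nl' q1 nl hv ne'.symm).2
  rcases r1 with e1 | e1 <;> rcases r2 with e2 | e2
  · exact absurd (e1.trans e2.symm) ne'
  · rwa [e1, e2] at ad
  · rw [e1, e2] at ad; exact D.adj_symm _ _ _ ad
  · exact absurd (e1.trans e2.symm) ne'

omit [FiniteDimensional ℝ E] in
theorem mt_ne (h : Glob D nd Y ν) {v : ℕ} (h0 : 0 < v) (hv : v < D.m) {b : Lb} (g : D.adj v up b) :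
    D.mt v b = nd ↔ b = nd :=
  ⟨fun e => D.mt_inj v h0 hv _ _ g (D.adj_symm _ _ _ (h.ap.adj v hv up (D.up_mem v hv)
    h.ap.ne_up.symm)) (e.trans (h.ap.mt v).symm), fun e => e ▸ h.ap.mt v⟩

theorem transport (h : Glob D nd Y ν) {v : ℕ} (h0 : 0 < v) (hv : v < D.m) {b : Lb} (hb : b ≠ nd)
    (g : D.adj v up b) : ∃ c α β : ℝ, 0 < c ∧ Y (D.nb nd v b) =
      α • Y (D.par v, nd) + β • Y (v, nd) + c • Y (D.nb nd (D.par v) (D.mt v b)) := by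
  have hu := (D.par_lt v h0 hv).trans hv
  obtain ⟨-, k2, k3⟩ := D.adj_mem _ _ _ g
  obtain ⟨k4, k5, k6⟩ := D.adj_mem _ _ _ (D.mt_adj v h0 hv b g)
  obtain ⟨l, l', il, il', gl, e1, e2, φ, h1, U, h2, h3, h4⟩ := h.strand' hv h.ap.ne_up.symm hb g
  have e3 : D.dir (D.par v) l = D.mt v b := e2 ▸ (gl.2 v hv).1.2 h0 e1 (e2 ▸ k3.symm)
  have e4 : D.dir (D.par v) l' = D.dn v := TD.dir_par h0 hv l'.1 l'.2 il'.1 (e2 ▸ k3.symm)
  obtain ⟨p1, -, p3⟩ := h4 v hv (by rw [e1, e2]; exact k3)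
  obtain ⟨p4, p5, -⟩ := h4 _ hu (by rw [e3, e4]; exact k6.symm)
  rw [e2] at p3
  rw [e3] at p5
  have m1 := Finset.mem_erase.2 ⟨hb, k2⟩
  have m2 := Finset.mem_erase.2 ⟨(h.mt_ne h0 hv g).not.2 hb, k5⟩
  have m3 := Finset.mem_erase.2 ⟨h.ap.ne_dn v, k4⟩
  have m4 := Finset.mem_erase.2 ⟨h.ap.ne_up.symm, D.up_mem v hv⟩
  have ea := h.ed_nb hu m3
  have eb := h.ed_nb hu m2
  have ec := h.ed_nb hv m1
  have n1 := h.nb_ne hu m2 m3 k6.symm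
  have n2 := h.nb_ne hv m1 m4 k3.symm
  rw [h.ap.nb_dn h0 hv] at ea n1
  rw [h.ap.nb_up h0 hv] at n2
  obtain ⟨α, β, c, e⟩ := mem_span_three (mem_span_of_rank h2 (h3 _ (D.mem_Vs.1 ea.1) p4)
    (h3 _ (D.mem_Vs.1 ea.2.1) p1) (h3 _ (D.mem_Vs.1 eb.2.1) p5) (h3 _ (D.mem_Vs.1 ec.2.1) p3)
    (h.node_ne hu) (h.tp.vx.pair ea.1 ea.2.1 ea.2.2.1.symm)
    (h.tp.vx.tri ea.1 ea.2.1 eb.2.1 ea.2.2.1 eb.2.2.1.symm n1))
  refine ⟨c, α, β, ?_, e⟩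
  obtain ⟨ψ, -, r1, r2, r3⟩ := ea.fn
  have r4 := r3 _ ec.2.1 n2 ec.2.2.1.symm
  rw [e] at r4
  simp only [map_add, map_smul, smul_eq_mul, r1, r2, mul_zero, zero_add] at r4
  exact (mul_pos_iff_of_pos_right (r3 _ eb.2.1 eb.2.2.1.symm n1)).1 r4

/-- a triangle at the port of a cell gives an edge in the parent cell -/
theorem face_wall (h : Glob D nd Y ν) {v : ℕ} (h0 : 0 < v) (hv : v < D.m) {b b' : Lb}
    (hb : b ≠ nd) (hb' : b' ≠ nd) (g : D.adj v up b) (g' : D.adj v up b') (hne : b ≠ b')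
    (hu : ∀ a ∈ D.lab (D.par v), a ≠ D.dn v → D.adj (D.par v) (D.dn v) a)
    (hF : Face ((D.lab v).erase nd) (loc D nd Y v) {up, b, b'}) :
    D.adj (D.par v) (D.mt v b) (D.mt v b') := by
  have hp := (D.par_lt v h0 hv).trans hv
  obtain ⟨φ, h1, h2, h3⟩ := (h.face_loc hv).1 hF
  have h4 := (h3 up (Finset.mem_erase.2 ⟨h.ap.ne_up.symm, D.up_mem v hv⟩)).2 (by simp)
  rw [h.ap.nb_up h0 hv] at h4
  have key : ∀ c, c ≠ nd → D.adj v up c →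
      (φ (Y (D.nb nd (D.par v) (D.mt v c))) = 0 ↔ c = b ∨ c = b') := by
    intro c hc gc
    obtain ⟨t, α, β, ht, e⟩ := h.transport h0 hv hc gc
    have := h3 c (Finset.mem_erase.2 ⟨hc, (D.adj_mem _ _ _ gc).2.1⟩)
    simpa [e, h2, h4, ht.ne', (D.adj_mem _ _ _ gc).2.2.symm] using this
  obtain ⟨k1, k2, k3⟩ := D.adj_mem _ _ _ (D.mt_adj v h0 hv b g)
  obtain ⟨-, k4, k5⟩ := D.adj_mem _ _ _ (D.mt_adj v h0 hv b' g')
  refine h.adj_of_ed hp ((h.vx_loc hp).drop (Finset.mem_erase.2 ⟨h.ap.ne_dn v, k1⟩)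
    (Finset.mem_erase.2 ⟨(h.mt_ne h0 hv g).not.2 hb, k2⟩)
    (Finset.mem_erase.2 ⟨(h.mt_ne h0 hv g').not.2 hb', k4⟩)
    (fun e => hne (D.mt_inj v h0 hv _ _ g g' e)) k3 k5
    ((h.face_loc hp).2 ⟨φ, h1, h4, fun a ha => ?_⟩))
  by_cases e : a = D.dn v
  · simp [e, h.ap.nb_dn h0 hv, h2]
  obtain ⟨c, gc, rfl⟩ := D.mt_surj v h0 hv a (hu a (Finset.mem_erase.1 ha).2 e)
  rw [key c ((h.mt_ne h0 hv gc).not.1 (Finset.mem_erase.1 ha).1) gc]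
  simp only [Set.mem_insert_iff, Set.mem_singleton_iff, e, false_or]
  exact or_congr ⟨fun e => e ▸ rfl, D.mt_inj v h0 hv _ _ gc g⟩
    ⟨fun e => e ▸ rfl, D.mt_inj v h0 hv _ _ gc g'⟩

end Glob

end Pool.Agent.MP_26cd3b_lc.H27
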