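import Pool.Agent.MP_26cd3b_lc.H27.BaseId
import Pool.Agent.MP_26cd3b_lc.H27.LocalExt
import Pool.Agent.MP_26cd3b_lc.H50.SoundO
import Pool.Agent.MP_26cd3b_lc.H84.SoundG

set_option autoImplicit false

namespace Pool.Agent.MP_26cd3b_lc.H27

open Submodule

variable {E : Type} [AddCommGroup E] [Module ℝ E] [FiniteDimensional ℝ E] {Y : Vt → E}
  {ν : E →ₗ[ℝ] ℝ} {r n j : ℕ} {qs : List Quad} {h : WF n qs}

theorem inst_vanish (g : Glob (inst r n qs h) (1, j) Y ν) {X : E →ₗ[ℝ] ℝ}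
    (h0 : X (Y (0, (1, j))) = 0) (h1 : ∀ a ∈ ((inst r n qs h).lab 0).erase (1, j), a.1 ≠ 2 →
      X (Y ((inst r n qs h).nb (1, j) 0 a)) = 0) : ∀ v < (inst r n qs h).m,
      X (Y (v, (1, j))) = 0 ∧ ∀ a ∈ ((inst r n qs h).lab v).erase (1, j), a.1 ≠ 2 →
        X (Y ((inst r n qs h).nb (1, j) v a)) = 0 := by
  set D := inst r n qs h with hD
  intro v
  induction v using Nat.strong_induction_on with
  | _ v ih =>
    intro hv
    rcases Nat.eq_zero_or_pos v with rfl | hp
    · exact ⟨h0, h1⟩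
    have hu := D.par_lt v hp hv
    obtain ⟨k1, k2⟩ := ih _ hu (hu.trans hv)
    obtain ⟨i, -, -, e, -⟩ := cDn_eq qs.length v
    have k3 : X (Y (v, (1, j))) = 0 := by
      rw [← g.ap.nb_dn hp hv]
      exact k2 _ (Finset.mem_erase.2 ⟨g.ap.ne_dn v, D.dn_mem v hp hv⟩)
        (by rw [show D.dn v = _ from e]; simp)
    refine ⟨k3, fun a ha ha2 => ?_⟩
    by_cases e1 : a = up
    · rw [e1, g.ap.nb_up hp hv, k1]
    obtain ⟨ha0, ha1⟩ := Finset.mem_erase.1 ha
    have ad : D.adj v up a := ⟨D.up_mem v hv, ha1, Ne.symm e1, fun _ e => absurd e ha2,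
      by simp [up], by simp [up]⟩
    obtain ⟨c, α, β, -, e2⟩ := g.transport hp hv ha0 ad
    have k4 := k2 _ (Finset.mem_erase.2 ⟨(g.mt_ne hp hv ad).not.2 ha0,
      (D.adj_mem _ _ _ (D.mt_adj v hp hv a ad)).2.1⟩) (by
        show (cMt n qs v a).1 ≠ 2
        unfold cMt
        split_ifs with e3 e4
        · simp [up]
        · exact absurd e4.2.2 ha2
        · exact ha2)
    simp [e2, k1, k3, k4]

theorem inst_sound (h : WF n qs) (hE : Module.finrank ℝ E = r + 5 + 1)
    (hT : Tp ((inst r n qs h).Vs (inst r n qs h).m) Y ν)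
    (hed : ∀ x x', (inst r n qs h).InV (inst r n qs h).m x →
      (inst r n qs h).InV (inst r n qs h).m x' → ((inst r n qs h).G (inst r n qs h).m x x' ↔
        Ed ((inst r n qs h).Vs (inst r n qs h).m) Y x x')) :
    ∃ t : ℕ → ℝ, (∀ i, 1 ≤ i → i ≤ n → t i ≠ 0) ∧ Set.InjOn t (Set.Icc 1 n) ∧ ESat qs t := by
  obtain ⟨j, hj, g⟩ := base_id h hT hed
  set D := inst r n qs h with hD
  have hs : ∀ v x, x ∈ (D.lab v).erase (1, j) ↔
      x ∈ lab0 (cN n qs.length v) ∨ x ∈ (apx r).erase (1, j) := by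
    intro v x
    have : x ∈ lab0 (cN n qs.length v) → x ≠ (1, j) := by rintro k rfl; simp [mem_lab0] at k
    show x ∈ (cLab r n qs.length v).erase (1, j) ↔ _
    simp only [cLab, Finset.mem_erase, Finset.mem_union]
    tauto
  have hA : ∀ x ∈ (apx r).erase (1, j), x.1 = 1 := fun x hx =>
    (mem_apx.1 (Finset.mem_of_mem_erase hx)).1
  have hr : ∀ v < D.m, Module.finrank ℝ (E ⧸ span ℝ {Y (v, (1, j))}) =
      ((apx r).erase (1, j)).card + 5 := by
    intro v hv
    have := g.rank_loc hv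
    rw [Finset.card_erase_of_mem (mem_apx.2 ⟨rfl, hj⟩), apx, Finset.card_image_of_injective _
      fun a b e => by simpa using e, Finset.card_range]
    omega
  have c0 : cN n qs.length 0 = n + 2 := if_pos (by omega)
  obtain ⟨X0, Z0, o1, o2, o3, o4⟩ := H50.order_sound (n := n) (c0 ▸ hs 0) hA (g.vx_loc D.m_pos)
    (g.sp_loc D.m_pos) (hr 0 D.m_pos) (by
      intro a ha b hb e
      obtain ⟨-, -, e1, e2, e3, e4⟩ := g.adj_of_ed D.m_pos e
      simp only [cEs, cCh, inS, zero_le, if_true] at e2 e3 e4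
      refine ⟨ha, hb, e1, fun p q => ?_, fun p q => ?_, fun p q => ?_⟩
      · have := e2 p q; omega
      · have := e3 p q; omega
      · simpa using e4 p q)
  let X := X0 ∘ₗ (span ℝ {Y (0, (1, j))}).mkQ
  let Z := Z0 ∘ₗ (span ℝ {Y (0, (1, j))}).mkQ
  have q0 : (span ℝ {Y (0, (1, j))}).mkQ (Y (0, (1, j))) = 0 :=
    (Quotient.mk_eq_zero _).2 (mem_span_singleton_self _)
  have vX := inst_vanish g (X := X) (by simp [X, q0]) fun a ha e => (o1 a ha e).1
  have vZ := inst_vanish g (X := Z) (by simp [Z, q0]) fun a ha e => (o1 a ha e).2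
  let x : ℕ → ℕ → ℝ := fun v l => X (Y (D.nb (1, j) v (2, l)))
  let z : ℕ → ℕ → ℝ := fun v l => Z (Y (D.nb (1, j) v (2, l)))
  have step : ∀ v u l l' L, 0 < v → v < D.m → D.par v = u → l < cN n qs.length v →
      D.mt v (2, l) = (2, l') → (∃ c, 0 < c ∧ x u l' = c * x 0 L ∧ z u l' = c * z 0 L) →
      ∃ c, 0 < c ∧ x v l = c * x 0 L ∧ z v l = c * z 0 L := by
    rintro v u l l' L hp hv rfl hl e ⟨c, hc, e1, e2⟩
    have hu := (D.par_lt v hp hv).trans hv
    obtain ⟨c', α, β, hc', e3⟩ := g.transport hp hv (b := (2, l)) (by simp)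
      (cAdj_cl.2 ⟨by omega, hl, by unfold cEs esG; split_ifs <;> simp⟩)
    rw [e] at e3
    refine ⟨c' * c, mul_pos hc' hc, ?_, ?_⟩
    · rw [mul_assoc, ← e1]; simp [x, e3, (vX v hv).1, (vX _ hu).1]
    · rw [mul_assoc, ← e2]; simp [z, e3, (vZ v hv).1, (vZ _ hu).1]
  have spine : ∀ v ≤ 2 * qs.length, ∀ l < n + 2,
      ∃ c, 0 < c ∧ x v l = c * x 0 l ∧ z v l = c * z 0 l := by
    intro v
    induction v with
    | zero => exact fun _ l _ => ⟨1, one_pos, by simp, by simp⟩
    | succ v ih =>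
      exact fun hv l hl => step _ v l l l (by omega) (show _ < 4 * qs.length + 1 by omega)
        (if_pos hv) (by rwa [cN, if_pos hv]) (cMt_level.trans (by rw [if_neg (by omega)]))
        (ih (by omega) l hl)
  have xz : x 0 (n + 1) = 0 := o2
  have zz : z 0 0 = 0 := o3
  have dz : ∀ a ≤ n + 1, ∀ b ≤ n + 1, a ≠ b → x 0 a * z 0 b - x 0 b * z 0 a ≠ 0 := o4
  have xn : ∀ a ≤ n, x 0 a ≠ 0 := fun a ha e => dz a (by omega) (n + 1) le_rfl (by omega)
    (by simp [e, xz])
  have zn : ∀ a ≤ n + 1, 0 < a → z 0 a ≠ 0 := fun a ha h0 e => dz 0 (by omega) a ha (by omega)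
    (by simp [e, zz])
  refine ⟨fun l => z 0 l / x 0 l, fun i h1 h2 => div_ne_zero (zn i (by omega) h1) (xn i h2),
    fun a ha b hb e => by_contra fun e' => dz a (by have := ha.2; omega) b (by have := hb.2; omega)
      e' ?_, fun q hq => ?_⟩
  · have := (div_eq_div_iff (xn a ha.2) (xn b hb.2)).1 e
    linarith
  obtain ⟨i, hi, rfl⟩ := List.getElem_of_mem hq
  obtain ⟨q1, q2, q3, q4, q5⟩ := h.2 _ hq
  have eq : qd qs i = qs[i] := List.getD_eq_getElem _ _ hi
  set q := qs[i]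
  have hv : 3 * qs.length + 1 + i < D.m := show _ < 4 * qs.length + 1 by omega
  have p1 : D.par (3 * qs.length + 1 + i) = 2 * qs.length + 1 + i := by
    show cPar _ _ = _
    unfold cPar; split_ifs <;> omega
  have n1 : cN n qs.length (3 * qs.length + 1 + i) = 6 := if_neg (by omega)
  have n2 : cN n qs.length (2 * qs.length + 1 + i) = 6 := if_neg (by omega)
  have m1 : ∀ l, D.mt (3 * qs.length + 1 + i) (2, l) = (2, l) := fun l =>
    cMt_level.trans (by rw [if_neg (by omega)])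
  have gad : ∀ l < 6, ∃ c, 0 < c ∧ x (3 * qs.length + 1 + i) l = c * x 0 (lvq n q l) ∧
      z (3 * qs.length + 1 + i) l = c * z 0 (lvq n q l) := fun l hl =>
    step _ _ l l _ (by omega) hv p1 (by omega) (m1 l)
      (step _ (2 * i + 2) l (lvq n q l) _ (by omega) (by omega) (by
        show cPar _ _ = _
        unfold cPar; split_ifs <;> omega) (by omega) (cMt_level.trans (by
          rw [if_pos (by omega), show 2 * qs.length + 1 + i - 2 * qs.length - 1 = i by omega, eq]))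
        (spine _ (by omega) _ (by unfold lvq; split_ifs <;> omega)))
  obtain ⟨c0, k0, x0, z0⟩ := gad 0 (by omega)
  obtain ⟨c1, k1, x1, z1⟩ := gad 1 (by omega)
  obtain ⟨c2, k2, x2, z2⟩ := gad 2 (by omega)
  obtain ⟨c3, k3, x3, z3⟩ := gad 3 (by omega)
  obtain ⟨c4, k4, x4, z4⟩ := gad 4 (by omega)
  obtain ⟨c5, k5, x5, z5⟩ := gad 5 (by omega)
  simp only [lvq, if_true, if_false, OfNat.ofNat_ne_zero, OfNat.ofNat_ne_one, one_ne_zero,
    Nat.reduceEqDiff, xz, zz, mul_zero] at x0 z0 x1 z1 x2 z2 x3 z3 x4 z4 x5 z5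
  have a0 := xn 0 (by omega)
  have a1 := xn q.1 (by omega)
  have a2 := xn q.2.1 (by omega)
  have a3 := xn q.2.2.1 (by omega)
  have a4 := xn q.2.2.2 (by omega)
  have b4 := zn q.2.2.2 (by omega) (by omega)
  have b5 := zn (n + 1) le_rfl (by omega)
  have up1 : ∀ l < 6, D.adj (3 * qs.length + 1 + i) up (2, l) := fun l hl =>
    cAdj_cl.2 ⟨by omega, by omega, by unfold cEs esG; split_ifs <;> simp⟩
  have key := H84.gadget_sound (n1 ▸ hs _) hA (g.vx_loc hv) (g.sp_loc hv) (hr _ hv)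
    (fun a ha b hb => by
      have ea : a ≠ (1, j) := by rintro rfl; simp [mem_lab0] at ha
      have eb : b ≠ (1, j) := by rintro rfl; simp [mem_lab0] at hb
      refine (Iff.intro (g.adj_of_ed hv) (g.ed_of_adj hv ea eb)).trans ?_
      show cAdj _ _ _ _ _ _ ↔ _
      have e1 : ¬ 3 * qs.length + 1 + i ≤ 2 * qs.length := by omega
      have e2 : ¬ 3 * qs.length + 1 + i ≤ 3 * qs.length := by omega
      simp only [cAdj, adj0, cLab, n1, Finset.mem_union, ha, hb, true_or, true_and, cEs, cCh, chG,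
        e1, e2, not_le.1 e1, not_le.1 e2, if_false, false_or])
    (fun a ha b hb e => g.ed_of_adj hv (Finset.mem_erase.1 ha).1 (Finset.mem_erase.1 hb).1
      (cAdj_apex (Finset.mem_of_mem_erase ((hs _ a).2 (Or.inr ha))) (Finset.mem_of_mem_erase hb)
        e.symm (Or.inl (hA a ha))))
    (fun hF => by
      have := g.face_wall (by omega) hv (by simp) (by simp) (up1 0 (by omega)) (up1 4 (by omega))
        (by simp) (fun a ha e => by
          rw [p1] at ha ⊢
          have e1 : D.dn (3 * qs.length + 1 + i) = (0, 2) := if_neg (by omega)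
          rw [e1] at e ⊢
          refine ⟨by simp [mem_cLab], ha, e.symm, fun _ _ => ?_, by simp, by simp⟩
          rw [cEs, if_neg (by omega)]
          exact Or.inl (by omega)) hF
      rw [p1, m1, m1] at this
      have := this.2.2.2.2.2 rfl rfl
      simp only [cCh, chA] at this
      omega)
    (X := (span ℝ {Y (_, (1, j))}).liftQ X fun _ hu => span_zero1 (vX _ hv).1 _ hu)
    (Z := (span ℝ {Y (_, (1, j))}).liftQ Z fun _ hu => span_zero1 (vZ _ hv).1 _ hu)
    (fun a ha e => ⟨(vX _ hv).2 a ha e, (vZ _ hv).2 a ha e⟩)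
    (d := fun a b => x (3 * qs.length + 1 + i) a * z (3 * qs.length + 1 + i) b -
      x (3 * qs.length + 1 + i) b * z (3 * qs.length + 1 + i) a) (fun _ _ => rfl)
    (by simp [x0, z0, x4, z4, k0.ne', k4.ne', a0, b4])
    (by simp [x0, z0, x5, z5, k0.ne', k5.ne', a0, b5])
  simp only [x0, z0, x1, z1, x2, z2, x3, z3, x4, z4, x5, z5] at key
  have hc : c0 * c1 * c2 * c3 * c4 * c5 * x 0 0 * z 0 (n + 1) ≠ 0 := by positivity
  field_simp
  apply mul_left_cancel₀ hc
  linear_combination key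

end Pool.Agent.MP_26cd3b_lc.H27
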