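import Pool.Agent.MP_26cd3b_lc.H27.Cone

set_option autoImplicit false

namespace Pool.Agent.MP_26cd3b_lc.H27

open Submodule

variable {E : Type} [AddCommGroup E] [Module ℝ E] {ι : Type} {s : Finset ι} {y : ι → E}

/-- all points of the configuration are vertices -/
def Vx (s : Finset ι) (y : ι → E) : Prop := ∀ a ∈ s, Face s y {a}

/-- `a` and `b` span an edge -/
def Ed (s : Finset ι) (y : ι → E) (a b : ι) : Prop := a ∈ s ∧ b ∈ s ∧ a ≠ b ∧ Face s y {a, b}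

theorem Ed.symm {a b : ι} (h : Ed s y a b) : Ed s y b a :=
  ⟨h.2.1, h.1, h.2.2.1.symm, by rw [Set.pair_comm]; exact h.2.2.2⟩

theorem Face.fn {S : Set ι} (h : Face s y S) : ∃ φ : E →ₗ[ℝ] ℝ, Valid s y φ ∧
    (∀ a ∈ s, a ∈ S → φ (y a) = 0) ∧ ∀ a ∈ s, a ∉ S → 0 < φ (y a) :=
  let ⟨φ, h⟩ := h
  ⟨φ, fun a ha => (h a ha).1, fun a ha => (h a ha).2.2, fun _ ha hS => Face.pos h ha hS⟩

theorem Vx.fn (hv : Vx s y) {a : ι} (ha : a ∈ s) : ∃ φ : E →ₗ[ℝ] ℝ, Valid s y φ ∧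
    φ (y a) = 0 ∧ ∀ b ∈ s, b ≠ a → 0 < φ (y b) :=
  let ⟨φ, h1, h2, h3⟩ := (hv a ha).fn
  ⟨φ, h1, h2 a ha rfl, h3⟩

theorem Ed.fn {a b : ι} (h : Ed s y a b) : ∃ φ : E →ₗ[ℝ] ℝ, Valid s y φ ∧
    φ (y a) = 0 ∧ φ (y b) = 0 ∧ ∀ c ∈ s, c ≠ a → c ≠ b → 0 < φ (y c) :=
  let ⟨φ, h1, h2, h3⟩ := h.2.2.2.fn
  ⟨φ, h1, h2 a h.1 (by simp), h2 b h.2.1 (by simp), fun c hc g1 g2 => h3 c hc (by simp [g1, g2])⟩

theorem Vx.pair (hv : Vx s y) {a b : ι} (ha : a ∈ s) (hb : b ∈ s) (hab : b ≠ a) :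
    y b ∉ span ℝ {y a} := by
  intro h
  obtain ⟨t, ht⟩ := mem_span_singleton.1 h
  obtain ⟨φ, -, h1, h2⟩ := hv.fn ha
  have := h2 b hb hab
  rw [← ht, map_smul, h1] at this
  simp at this

theorem Vx.tri (hv : Vx s y) {a b c : ι} (ha : a ∈ s) (hb : b ∈ s) (hc : c ∈ s) (hab : a ≠ b)
    (hca : c ≠ a) (hcb : c ≠ b) : y c ∉ span ℝ {y a, y b} := by
  intro h
  obtain ⟨p, q, h⟩ := mem_span_pair.1 h
  obtain ⟨φ, -, h1, h2⟩ := hv.fn ha
  obtain ⟨ψ, -, h3, h4⟩ := hv.fn hb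
  obtain ⟨χ, -, h5, h6⟩ := hv.fn hc
  have g1 := h2 c hc hca
  have g2 := h4 c hc hcb
  rw [← h] at g1 g2 h5
  simp only [map_add, map_smul, smul_eq_mul, h1, h3, mul_zero, zero_add, add_zero] at g1 g2 h5
  have g3 := (mul_pos_iff_of_pos_right (h2 b hb hab.symm)).1 g1
  have g4 := (mul_pos_iff_of_pos_right (h4 a ha hab)).1 g2
  have := mul_pos g4 (h6 a ha hca.symm)
  have := mul_pos g3 (h6 b hb hcb.symm)
  linarith

theorem mem_span_three {a b c w : E} (h : w ∈ span ℝ {a, b, c}) :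
    ∃ p q r : ℝ, w = p • a + q • b + r • c := by
  obtain ⟨p, z, hz, rfl⟩ := mem_span_insert.1 h
  obtain ⟨q, r, rfl⟩ := mem_span_pair.1 hz
  exact ⟨p, q, r, (add_assoc _ _ _).symm⟩

theorem Ed.three {a b c d : ι} (hb : Ed s y a b) (hc : Ed s y a c) (hd : Ed s y a d) (hbc : b ≠ c)
    (hdb : d ≠ b) (hdc : d ≠ c) : y d ∉ span ℝ {y a, y b, y c} := by
  intro h
  obtain ⟨o, p, q, h⟩ := mem_span_three h
  obtain ⟨φ, -, h0, h1, h2⟩ := hb.fn
  obtain ⟨ψ, -, h3, h4, h5⟩ := hc.fn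
  obtain ⟨χ, -, h6, h7, h8⟩ := hd.fn
  have g1 := h2 d hd.2.1 hd.2.2.1.symm hdb
  have g2 := h5 d hd.2.1 hd.2.2.1.symm hdc
  rw [h] at g1 g2 h7
  simp only [map_add, map_smul, smul_eq_mul, h0, h1, h3, h4, h6, mul_zero, zero_add,
    add_zero] at g1 g2 h7
  have g3 := (mul_pos_iff_of_pos_right (h2 c hc.2.1 hc.2.2.1.symm hbc.symm)).1 g1
  have g4 := (mul_pos_iff_of_pos_right (h5 b hb.2.1 hb.2.2.1.symm hbc)).1 g2
  have := mul_pos g4 (h8 b hb.2.1 hb.2.2.1.symm hdb.symm)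
  have := mul_pos g3 (h8 c hc.2.1 hc.2.2.1.symm hdc.symm)
  linarith

/-- two edges at `a` that are parallel modulo `a` coincide -/
theorem Ed.eq_of_par {a b c : ι} (hb : Ed s y a b) (hc : c ∈ s) (hca : c ≠ a) {p q : ℝ}
    (h : y c = p • y b + q • y a) : c = b := by
  by_contra hne
  obtain ⟨φ, -, h0, h1, h2⟩ := hb.fn
  have := h2 c hc hca hne
  simp [h, h0, h1] at this

theorem span_zero {φ : E →ₗ[ℝ] ℝ} {A : Set E} (h : ∀ a ∈ A, φ a = 0) :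
    ∀ u ∈ span ℝ A, φ u = 0 := fun _ hu => (span_le (p := LinearMap.ker φ)).2 h hu

theorem span_zero1 {φ : E →ₗ[ℝ] ℝ} {a : E} (h : φ a = 0) : ∀ u ∈ span ℝ {a}, φ u = 0 :=
  span_zero (by simpa using h)

theorem span_zero2 {φ : E →ₗ[ℝ] ℝ} {a b : E} (h : φ a = 0) (h' : φ b = 0) :
    ∀ u ∈ span ℝ {a, b}, φ u = 0 :=
  span_zero (by simpa using ⟨h, h'⟩)

theorem Vx.drop (hv : Vx s y) {o p x : ι} (ho : o ∈ s) (hp : p ∈ s) (hx : x ∈ s) (hpx : p ≠ x)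
    (hop : o ≠ p) (hox : o ≠ x) (h : Face s y {o, p, x}) : Ed s y p x := by
  obtain ⟨η, h1, h2⟩ := exists_le_ker_of_notMem (hv.tri hp hx ho hpx hop hox)
  have h3 : η (y p) = 0 := h2 (subset_span (by simp))
  have h4 : η (y x) = 0 := h2 (subset_span (by simp))
  refine ⟨hp, hx, hpx, (h.sub ((η (y o))⁻¹ • η) ?_).congr ?_⟩
  · rintro a - (rfl | rfl | rfl) <;> simp [h1, h3, h4]
  · intro a _
    constructor
    · rintro ⟨rfl | h | h, h5⟩
      · simp [h1] at h5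
      · exact Or.inl h
      · exact Or.inr h
    · rintro (rfl | rfl) <;> simp [h3, h4]

variable [FiniteDimensional ℝ E]

theorem Vx.tangent (hv : Vx s y) {a : ι} (ha : a ∈ s) :
    ∀ b ∈ s, Cn (span ℝ {y a}) (y '' {x | Ed s y a x}) (y b) := by
  obtain ⟨θ, h1, h2, h3⟩ := hv.fn ha
  have e : {c | c ∈ s ∧ θ (y c) = 0} = {a} := by
    ext c
    refine ⟨fun h => by_contra fun hne => (h3 c h.1 hne).ne' h.2, ?_⟩
    rintro rfl
    exact ⟨ha, h2⟩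
  intro b hb
  have := H27.tangent h1 b hb
  rw [e, Set.image_singleton] at this
  refine this.mono (Set.image_mono ?_)
  rintro x ⟨hx, g1, φ, g2, g3, g4, g5⟩
  have hne : a ≠ x := fun e => g1 (e ▸ h2)
  refine ⟨ha, hx, hne, g2.face.congr fun c hc => ⟨fun h => ?_, ?_⟩⟩
  · by_contra hc2
    simp only [Set.mem_insert_iff, Set.mem_singleton_iff, not_or] at hc2
    have := g5 c hc h
    rw [e, Set.image_singleton] at this
    exact hv.tri hx ha hc hne.symm hc2.2 hc2.1 this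
  · rintro (rfl | rfl)
    · exact g3 c hc h2
    · exact g4

theorem Vx.valid (hv : Vx s y) {a : ι} (ha : a ∈ s) {φ : E →ₗ[ℝ] ℝ} (h0 : φ (y a) = 0)
    (h : ∀ x, Ed s y a x → 0 ≤ φ (y x)) : Valid s y φ := fun b hb =>
  (hv.tangent ha b hb).nonneg (span_zero1 h0) (by rintro _ ⟨x, hx, rfl⟩; exact h x hx)

/-- the tangent cone inside a face -/
theorem Vx.tangent_face (hv : Vx s y) {a b : ι} (ha : a ∈ s) (hb : b ∈ s) {φ : E →ₗ[ℝ] ℝ}
    (h : Valid s y φ) (h0 : φ (y a) = 0) (h1 : φ (y b) = 0) :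
    Cn (span ℝ {y a}) (y '' {x | Ed s y a x ∧ φ (y x) = 0}) (y b) := by
  refine ((hv.tangent ha b hb).restrict (span_zero1 h0) ?_ h1).mono ?_
  · rintro _ ⟨x, hx, rfl⟩; exact h x hx.2.1
  · rintro _ ⟨⟨x, hx, rfl⟩, h2⟩; exact ⟨x, ⟨hx, h2⟩, rfl⟩

theorem Ed.tangent {o p : ι} (hp : Ed s y o p) (ho : ∀ x ∈ s, x ≠ o → Ed s y o x) :
    ∀ b ∈ s, Cn (span ℝ {y o, y p}) (y '' {x | x ∈ s ∧ x ≠ o ∧ x ≠ p ∧ Face s y {o, p, x}})
      (y b) := by
  obtain ⟨θ, h1, h2, h2', h3⟩ := hp.fn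
  have e : {c | c ∈ s ∧ θ (y c) = 0} = {o, p} := by
    ext c
    refine ⟨fun h => by_contra fun hne => ?_, ?_⟩
    · simp only [Set.mem_insert_iff, Set.mem_singleton_iff, not_or] at hne
      exact (h3 c h.1 hne.1 hne.2).ne' h.2
    · rintro (rfl | rfl)
      · exact ⟨hp.1, h2⟩
      · exact ⟨hp.2.1, h2'⟩
  intro b hb
  have := H27.tangent h1 b hb
  rw [e, Set.image_pair] at this
  refine this.mono (Set.image_mono ?_)
  rintro x ⟨hx, g1, φ, g2, g3, g4, g5⟩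
  have hne : x ≠ o := fun e => g1 (e ▸ h2)
  have hne' : x ≠ p := fun e => g1 (e ▸ h2')
  refine ⟨hx, hne, hne', g2.face.congr fun c hc => ⟨fun h => ?_, ?_⟩⟩
  · by_contra hc2
    simp only [Set.mem_insert_iff, Set.mem_singleton_iff, not_or] at hc2
    have := g5 c hc h
    rw [e, Set.image_pair, Set.insert_comm, Set.pair_comm (y x)] at this
    exact hp.three (ho x hx hne) (ho c hc hc2.1) hne'.symm hc2.2.1 hc2.2.2 this
  · rintro (rfl | rfl | rfl)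
    · exact g3 c hc h2
    · exact g3 c hc h2'
    · exact g4

/-- at least three zeros -/
def Three (s : Finset ι) (y : ι → E) (φ : E →ₗ[ℝ] ℝ) : Prop :=
  ∃ a ∈ s, ∃ b ∈ s, ∃ c ∈ s, a ≠ b ∧ a ≠ c ∧ b ≠ c ∧ φ (y a) = 0 ∧ φ (y b) = 0 ∧ φ (y c) = 0

theorem Vx.two_nbrs (hv : Vx s y) {φ : E →ₗ[ℝ] ℝ} (h : Valid s y φ) (h3 : Three s y φ) {x : ι}
    (hx : x ∈ s) (h0 : φ (y x) = 0) (x' : ι) : ∃ z, Ed s y x z ∧ φ (y z) = 0 ∧ z ≠ x' := by
  by_contra hcon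
  push Not at hcon
  have key : ∀ p ∈ s, φ (y p) = 0 → p ≠ x → p = x' := by
    intro p hp g1 g2
    by_contra g3
    have g4 := hv.tangent_face hx hp h h0 g1
    by_cases g5 : Ed s y x x'
    · refine hv.tri hx g5.2.1 hp g5.2.2.1 g2 g3 (g4.mem_sup (span_mono (by simp)) ?_)
      rintro _ ⟨z, hz, rfl⟩
      rw [hcon z hz.1 hz.2]
      exact subset_span (by simp)
    · refine hv.pair hx hp g2 (g4.mem_sup le_rfl ?_)
      rintro _ ⟨z, hz, rfl⟩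
      exact absurd (hcon z hz.1 hz.2 ▸ hz.1) g5
  obtain ⟨a, ha, b, hb, c, hc, e1, e2, e3, g1, g2, g3⟩ := h3
  by_cases e4 : a = x
  · exact e3 ((key b hb g2 (e4 ▸ e1.symm)).trans (key c hc g3 (e4 ▸ e2.symm)).symm)
  · by_cases e5 : b = x
    · exact e2 ((key a ha g1 e4).trans (key c hc g3 (e5 ▸ e3.symm)).symm)
    · exact e1 ((key a ha g1 e4).trans (key b hb g2 e5).symm)

/-- two edges going down lie below a face of rank three -/
theorem Vx.down (hv : Vx s y) {a x x' : ι} (hx : Ed s y a x) (hx' : Ed s y a x') (hne : x ≠ x')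
    {η : E →ₗ[ℝ] ℝ} (h0 : η (y a) = 0) (h1 : η (y x) ≤ 0) (h2 : η (y x') ≤ 0) :
    ∃ φ : E →ₗ[ℝ] ℝ, Valid s y φ ∧ Three s y φ ∧ ∀ c ∈ s, φ (y c) = 0 → η (y c) ≤ 0 := by
  classical
  obtain ⟨θ, g1, g2, g3, g4⟩ := hx.fn
  set s' := s.filter fun c => c = a ∨ Ed s y a c with hs'
  have e : {c | c ∈ s' ∧ θ (y c) = 0} = {a, x} := by
    ext c
    refine ⟨fun h => by_contra fun hne => ?_, ?_⟩
    · simp only [Set.mem_insert_iff, Set.mem_singleton_iff, not_or] at hne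
      exact (g4 c (Finset.mem_filter.1 h.1).1 hne.1 hne.2).ne' h.2
    · rintro (rfl | rfl)
      · exact ⟨by simp [hs', hx.1], g2⟩
      · exact ⟨by simp [hs', hx.2.1, hx], g3⟩
  have hθ : Valid s' y θ := fun c hc => g1 c (Finset.mem_filter.1 hc).1
  by_cases hz : ∃ z, Ext s' y θ z ∧ η (y z) ≤ 0
  · obtain ⟨z, ⟨k1, k2, φ, k3, k4, k5, k6⟩, k7⟩ := hz
    have hza : z ≠ a := fun e => k2 (e ▸ g2)
    have hzx : z ≠ x := fun e => k2 (e ▸ g3)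
    have hz : Ed s y a z := (Finset.mem_filter.1 k1).2.resolve_left hza
    have k8 : φ (y a) = 0 := k4 a (by simp [hs', hx.1]) g2
    have k9 : φ (y x) = 0 := k4 x (by simp [hs', hx.2.1, hx]) g3
    have k10 : Valid s y φ := hv.valid hx.1 k8 fun c hc => k3 c (by simp [hs', hc.2.1, hc])
    refine ⟨φ, k10, ⟨a, hx.1, x, hx.2.1, z, hz.2.1, hx.2.2.1, hza.symm, hzx.symm, k8, k9, k5⟩,
      fun c hc k11 => ?_⟩
    have := (hv.tangent_face hx.1 hc k10 k8 k11).nonneg (φ := -η) (span_zero1 (by simp [h0])) (by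
      rintro _ ⟨d, ⟨d1, d2⟩, rfl⟩
      by_cases e1 : d = x
      · simpa [e1] using h1
      by_cases e2 : d = z
      · simpa [e2] using k7
      have := k6 d (by simp [hs', d1.2.1, d1]) d2
      rw [e, Set.image_pair, Set.insert_comm, Set.pair_comm (y z)] at this
      exact absurd this (hx.three hz d1 hzx.symm e1 e2))
    simpa using this
  · exfalso
    push Not at hz
    have k := H27.tangent hθ x' (by simp [hs', hx'.2.1, hx'])
    rw [e, Set.image_pair] at k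
    obtain ⟨u, hu, w, hw, k1⟩ := k.split
    obtain ⟨p, q, rfl⟩ := mem_span_pair.1 hu
    obtain ⟨ψ, m1, m2, m3, m4⟩ := hx'.fn
    have k2 : 0 ≤ ψ w := hw.nonneg (by simp) (by
      rintro _ ⟨d, hd, rfl⟩; exact m1 d (Finset.mem_filter.1 hd.1).1)
    have hη : ∀ v ∈ y '' {a | Ext s' y θ a}, 0 < η v := by
      rintro _ ⟨d, hd, rfl⟩; exact hz d hd
    have k3 : 0 ≤ η w := hw.nonneg (by simp) fun v hv => (hη v hv).le
    rw [k1] at m3 h2
    simp only [map_add, map_smul, smul_eq_mul, m2, h0, mul_zero, zero_add] at m3 h2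
    have k4 := m4 x hx.2.1 hx.2.2.1.symm hne
    have k5 : q ≤ 0 := by nlinarith
    have k6 : w = 0 := hw.eq_base (φ := η) (by simp) hη (by nlinarith)
    refine hv.tri hx.1 hx.2.1 hx'.2.1 hx.2.2.1 hx'.2.2.1.symm hne.symm ?_
    rw [k1, k6, add_zero]
    exact hu

end Pool.Agent.MP_26cd3b_lc.H27
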